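import Pool.Agent.Lib.SR.Defs

namespace Pool.SR

open Finset

/-- C1. In a two-coloured complete graph with many edges of both colours some two vertices
`a`, `b` have many vertices `v` with `a v` of the first and `b v` of the second colour. -/
theorem anchors {n : ℕ} (A : SimpleGraph (Fin n)) (δ : ℝ) (hδ : 0 < δ) (hn : 1 ≤ n)
    (h1 : δ * (n : ℝ) ^ 2 ≤ (A.edgeSet.ncard : ℝ)) (h2 : δ * (n : ℝ) ^ 2 ≤ (Aᶜ.edgeSet.ncard : ℝ)) :
    ∃ a b : Fin n, δ ^ 2 * (n : ℝ) ≤ ({v : Fin n | A.Adj a v ∧ Aᶜ.Adj b v}.ncard : ℝ) := by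
  classical
  have e1 : A.edgeSet.ncard = A.edgeFinset.card := by
    rw [← SimpleGraph.coe_edgeFinset, Set.ncard_coe_finset]
  have e2 : Aᶜ.edgeSet.ncard = Aᶜ.edgeFinset.card := by
    rw [← SimpleGraph.coe_edgeFinset, Set.ncard_coe_finset]
  have d1 : ∑ v, (A.degree v : ℝ) = 2 * (A.edgeSet.ncard : ℝ) := by
    rw [e1]
    exact_mod_cast A.sum_degrees_eq_twice_card_edges
  have d2 : ∑ v, (Aᶜ.degree v : ℝ) = 2 * (Aᶜ.edgeSet.ncard : ℝ) := by
    rw [e2]
    exact_mod_cast Aᶜ.sum_degrees_eq_twice_card_edges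
  have hn0 : (0 : ℝ) < n := by exact_mod_cast hn
  -- degrees as sums of indicators
  have s1 : ∀ v, (A.degree v : ℝ) = ∑ w, if A.Adj v w then (1 : ℝ) else 0 := by
    intro v
    rw [← SimpleGraph.card_neighborFinset_eq_degree, SimpleGraph.neighborFinset_eq_filter]
    simp
  have s2 : ∀ v, (Aᶜ.degree v : ℝ) = ∑ w, if Aᶜ.Adj v w then (1 : ℝ) else 0 := by
    intro v
    rw [← SimpleGraph.card_neighborFinset_eq_degree, SimpleGraph.neighborFinset_eq_filter]
    simp
  have b1 : ∀ v, (A.degree v : ℝ) ≤ n := by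
    intro v
    have := A.degree_lt_card_verts v
    rw [Fintype.card_fin] at this
    exact_mod_cast this.le
  have b2 : ∀ v, (Aᶜ.degree v : ℝ) ≤ n := by
    intro v
    have := Aᶜ.degree_lt_card_verts v
    rw [Fintype.card_fin] at this
    exact_mod_cast this.le
  set C : ℝ := ∑ v, (A.degree v : ℝ) * (Aᶜ.degree v : ℝ) with hC
  have key : (∑ v, (A.degree v : ℝ)) * (∑ w, (Aᶜ.degree w : ℝ)) ≤ (2 * n + 1) * C := by
    rw [Finset.sum_mul_sum]
    have hterm : ∀ v w : Fin n, (A.degree v : ℝ) * (Aᶜ.degree w : ℝ)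
        ≤ (if v = w then (A.degree v : ℝ) * (Aᶜ.degree v : ℝ) else 0)
          + (if Aᶜ.Adj v w then (1 : ℝ) else 0) * ((A.degree v : ℝ) * n)
          + (if A.Adj w v then (1 : ℝ) else 0) * ((Aᶜ.degree w : ℝ) * n) := by
      intro v w
      have p1 : (0 : ℝ) ≤ A.degree v := Nat.cast_nonneg _
      have p2 : (0 : ℝ) ≤ Aᶜ.degree w := Nat.cast_nonneg _
      by_cases hvw : v = w
      · subst hvw
        simp
      · by_cases hA : A.Adj v w
        · have : ¬ Aᶜ.Adj v w := by simp [SimpleGraph.compl_adj, hA]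
          rw [if_neg hvw, if_neg this, if_pos hA.symm]
          nlinarith [b1 v, b2 w]
        · have : Aᶜ.Adj v w := by simp [SimpleGraph.compl_adj, hA, hvw]
          have h3 : ¬ A.Adj w v := fun h => hA h.symm
          rw [if_neg hvw, if_pos this, if_neg h3]
          nlinarith [b1 v, b2 w]
    calc ∑ v, ∑ w, (A.degree v : ℝ) * (Aᶜ.degree w : ℝ)
        ≤ ∑ v, ∑ w, ((if v = w then (A.degree v : ℝ) * (Aᶜ.degree v : ℝ) else 0)
          + (if Aᶜ.Adj v w then (1 : ℝ) else 0) * ((A.degree v : ℝ) * n)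
          + (if A.Adj w v then (1 : ℝ) else 0) * ((Aᶜ.degree w : ℝ) * n)) :=
          Finset.sum_le_sum (fun v _ => Finset.sum_le_sum (fun w _ => hterm v w))
      _ = C + C * n + C * n := by
          simp_rw [Finset.sum_add_distrib]
          congr 1
          · congr 1
            · simp [hC]
            · rw [hC, Finset.sum_mul]
              apply Finset.sum_congr rfl
              intro v _
              rw [← Finset.sum_mul, ← s2]
              ring
          · rw [Finset.sum_comm, hC, Finset.sum_mul]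
            apply Finset.sum_congr rfl
            intro w _
            rw [← Finset.sum_mul, ← s1]
            ring
      _ = (2 * n + 1) * C := by ring
  have hCn : δ ^ 2 * (n : ℝ) ^ 3 ≤ C := by
    have h3 : (2 * (δ * (n : ℝ) ^ 2)) * (2 * (δ * (n : ℝ) ^ 2)) ≤ (2 * n + 1) * C := by
      refine le_trans ?_ key
      rw [d1, d2]
      have : 0 ≤ δ * (n : ℝ) ^ 2 := by positivity
      apply mul_le_mul
      · linarith
      · linarith
      · positivity
      · positivity
    have hC0 : 0 ≤ C := by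
      rw [hC]
      positivity
    have hn1 : (1 : ℝ) ≤ n := by exact_mod_cast hn
    have h4 : (2 * (n : ℝ) + 1) * C ≤ 3 * n * C := by
      apply mul_le_mul_of_nonneg_right _ hC0
      linarith
    have h5 : 4 * (δ ^ 2 * (n : ℝ) ^ 3) * n ≤ 3 * C * n := by nlinarith
    have h6 : 4 * (δ ^ 2 * (n : ℝ) ^ 3) ≤ 3 * C := le_of_mul_le_mul_right h5 hn0
    nlinarith [mul_pos (pow_pos hδ 2) (pow_pos hn0 3)]
  -- double counting
  have hcount : C = ∑ a, ∑ b, ({v : Fin n | A.Adj a v ∧ Aᶜ.Adj b v}.ncard : ℝ) := by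
    have h7 : ∀ a b : Fin n, ({v : Fin n | A.Adj a v ∧ Aᶜ.Adj b v}.ncard : ℝ)
        = ∑ v, (if A.Adj v a then (1 : ℝ) else 0) * (if Aᶜ.Adj v b then (1 : ℝ) else 0) := by
      intro a b
      have : {v : Fin n | A.Adj a v ∧ Aᶜ.Adj b v}
          = ((univ.filter (fun v => A.Adj a v ∧ Aᶜ.Adj b v) : Finset (Fin n)) : Set (Fin n)) := by
        ext v
        simp
      rw [this, Set.ncard_coe_finset, Finset.card_filter]
      push_cast
      apply Finset.sum_congr rfl
      intro v _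
      have i1 : A.Adj a v ↔ A.Adj v a := ⟨fun h => h.symm, fun h => h.symm⟩
      have i2 : Aᶜ.Adj b v ↔ Aᶜ.Adj v b := ⟨fun h => h.symm, fun h => h.symm⟩
      by_cases q1 : A.Adj v a <;> by_cases q2 : Aᶜ.Adj v b <;>
        simp only [i1, i2, q1, q2, and_true, and_false, if_true, if_false, mul_one, mul_zero]
    simp_rw [h7]
    rw [hC]
    have h8 : ∀ a : Fin n, ∑ b, ∑ v, (if A.Adj v a then (1 : ℝ) else 0)
        * (if Aᶜ.Adj v b then (1 : ℝ) else 0)
        = ∑ v, (if A.Adj v a then (1 : ℝ) else 0) * (Aᶜ.degree v : ℝ) := by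
      intro a
      rw [Finset.sum_comm]
      apply Finset.sum_congr rfl
      intro v _
      rw [s2, Finset.mul_sum]
    simp_rw [h8]
    rw [Finset.sum_comm]
    apply Finset.sum_congr rfl
    intro v _
    rw [← Finset.sum_mul, ← s1]
  by_contra hcon
  push Not at hcon
  have h9 : C < δ ^ 2 * (n : ℝ) ^ 3 := by
    rw [hcount]
    haveI : Nonempty (Fin n) := ⟨⟨0, hn⟩⟩
    calc ∑ a, ∑ b, ({v : Fin n | A.Adj a v ∧ Aᶜ.Adj b v}.ncard : ℝ)
        < ∑ a : Fin n, ∑ b : Fin n, δ ^ 2 * (n : ℝ) := by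
          apply Finset.sum_lt_sum_of_nonempty univ_nonempty
          intro a _
          apply Finset.sum_lt_sum_of_nonempty univ_nonempty
          intro b _
          exact hcon a b
      _ = δ ^ 2 * (n : ℝ) ^ 3 := by
          simp
          ring
  linarith

end Pool.SR
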