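import Pool.Agent.Lib.SR.Defs

namespace Pool.SR

open Finset

/-- D1. Stiemke: a subspace without nonzero nonnegative vectors has a strictly positive
orthogonal vector (separate the compact standard simplex from the subspace,
geometric_hahn_banach_compact_closed). -/
theorem stiemke {X : Type} [Fintype X] [DecidableEq X] (P : Submodule ℝ (X → ℝ))
    (hP : ∀ p ∈ P, (∀ x, 0 ≤ p x) → p = 0) :
    ∃ ψ : X → ℝ, (∀ x, 0 < ψ x) ∧ ∀ p ∈ P, ∑ x, ψ x * p x = 0 := by
  rcases isEmpty_or_nonempty X with hX | hX
  · exact ⟨fun _ => 1, fun x => isEmptyElim x, fun p _ => by simp⟩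
  have hdisj : Disjoint (stdSimplex ℝ X) (P : Set (X → ℝ)) := by
    rw [Set.disjoint_left]
    rintro a ⟨ha0, ha1⟩ haP
    have h0 := hP a haP ha0
    rw [h0] at ha1
    simp at ha1
  obtain ⟨f, u, v, hu, huv, hv⟩ := geometric_hahn_banach_compact_closed (convex_stdSimplex ℝ X)
    (isCompact_stdSimplex ℝ X) P.convex P.closed_of_finiteDimensional hdisj
  have hv0 : v < 0 := by
    have := hv 0 P.zero_mem
    rwa [map_zero] at this
  have hf : ∀ p ∈ P, f p = 0 := by
    intro p hp
    by_contra hne
    have h1 := hv ((v / f p) • p) (P.smul_mem _ hp)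
    rw [map_smul, smul_eq_mul, div_mul_cancel₀ _ hne] at h1
    exact lt_irrefl _ h1
  refine ⟨fun x => -f (Pi.single x 1), fun x => ?_, fun p hp => ?_⟩
  · have h1 := hu (Pi.single x 1) (single_mem_stdSimplex ℝ x)
    linarith
  · have h2 : p = ∑ x, p x • (Pi.single x (1 : ℝ) : X → ℝ) := by
      have h3 := (Finset.univ_sum_single p).symm
      rw [h3]
      refine Finset.sum_congr rfl fun x _ => ?_
      ext y
      by_cases hy : y = x
      · subst hy
        simp
      · simp [Pi.single_eq_of_ne hy]
    have h4 := hf p hp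
    rw [h2, map_sum] at h4
    simp only [map_smul, smul_eq_mul] at h4
    simp only [neg_mul, Finset.sum_neg_distrib, neg_eq_zero]
    rw [← h4]
    exact Finset.sum_congr rfl fun x _ => mul_comm _ _

end Pool.SR
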