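import Pool.Agent.Lib.SR.T1

namespace Pool.SR

open Finset

/-- T4. The curve argument. For `c i ∈ {1, ..., d}` let `g(t) = Q(c_i (t - 2 (i+1))^2)`; it has
degree at most `2 (d - 1) < 2 d`, it is nonnegative at odd and nonpositive at even
`t = 1, ..., 2 d + 1`; hence `g(1) = 0` by T1, and `Q = 0` by
MvPolynomial.eq_zero_of_eval_zero_at_prod_finset on the grid `c_i (1 - 2 (i+1))^2`. -/
theorem Q_zero {d m : ℕ} (hd : 1 ≤ d) (hm : d * (2 * d + 1) ^ 2 ≤ m)
    (Q : MvPolynomial (Fin d) ℝ) (hQ : Q.totalDegree < d)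
    (h1 : ∀ s : Fin d → ℕ, (∀ i, 1 ≤ s i) → (∀ i, s i ≤ m) →
      0 ≤ MvPolynomial.eval (fun i => (s i : ℝ)) Q)
    (h2 : ∀ s : Fin d → ℕ, (∃ i, s i = 0) → (∀ i, s i ≤ m) →
      MvPolynomial.eval (fun i => (s i : ℝ)) Q ≤ 0) : Q = 0 := by
  classical
  -- the value at `t = 1` of every curve
  have key : ∀ c : Fin d → ℕ, (∀ i, 1 ≤ c i) → (∀ i, c i ≤ d) →
      MvPolynomial.eval (fun i : Fin d => (c i : ℝ) * (1 - 2 * ((i : ℕ) + 1 : ℝ)) ^ 2) Q = 0 := by
    intro c hc1 hc2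
    let u : Fin d → Polynomial ℝ := fun i =>
      Polynomial.C (c i : ℝ) * (Polynomial.X - Polynomial.C (2 * ((i : ℕ) + 1 : ℝ))) ^ 2
    have hu : ∀ i, (u i).natDegree ≤ 2 := by
      intro i
      refine (Polynomial.natDegree_C_mul_le _ _).trans ?_
      refine (Polynomial.natDegree_pow_le).trans ?_
      have := Polynomial.natDegree_X_sub_C_le (2 * ((i : ℕ) + 1 : ℝ))
      omega
    set g : Polynomial ℝ := MvPolynomial.aeval u Q with hg
    have hgeval : ∀ t : ℝ, g.eval t =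
        MvPolynomial.eval (fun i : Fin d => (c i : ℝ) * (t - 2 * ((i : ℕ) + 1 : ℝ)) ^ 2) Q := by
      intro t
      have e1 : g.eval t = (Polynomial.evalRingHom t) (MvPolynomial.aeval u Q) := rfl
      rw [e1, MvPolynomial.aeval_def, MvPolynomial.hom_eval₂]
      rw [MvPolynomial.eval, MvPolynomial.coe_eval₂Hom]
      congr 1
      · ext x
        simp
      · funext i
        simp [u]
    have hdeg : g.natDegree < 2 * d := by
      have := MvPolynomial.aeval_natDegree_le Q (m := d - 1) (n := 2) (by omega) u hu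
      rw [← hg] at this
      omega
    have h0 : g.eval 1 = 0 := by
      refine alt_zero g (2 * d) hdeg ?_
      intro j hj
      rw [hgeval]
      -- the natural numbers
      let s : Fin d → ℕ := fun i => c i * ((1 + j : ℤ) - 2 * ((i : ℕ) + 1 : ℤ)).natAbs ^ 2
      have hs : (fun i : Fin d => (c i : ℝ) * (1 + (j : ℝ) - 2 * ((i : ℕ) + 1 : ℝ)) ^ 2) =
          fun i => (s i : ℝ) := by
        funext i
        have e : ((((1 + j : ℤ) - 2 * ((i : ℕ) + 1 : ℤ)).natAbs ^ 2 : ℕ) : ℝ) =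
            (1 + (j : ℝ) - 2 * ((i : ℕ) + 1 : ℝ)) ^ 2 := by
          have e2 : ((((1 + j : ℤ) - 2 * ((i : ℕ) + 1 : ℤ)).natAbs ^ 2 : ℕ) : ℤ) =
              ((1 + j : ℤ) - 2 * ((i : ℕ) + 1 : ℤ)) ^ 2 := by
            rw [Nat.cast_pow, Int.natAbs_sq]
          have e3 : ((((1 + j : ℤ) - 2 * ((i : ℕ) + 1 : ℤ)).natAbs ^ 2 : ℕ) : ℝ) =
              (((((1 + j : ℤ) - 2 * ((i : ℕ) + 1 : ℤ)).natAbs ^ 2 : ℕ) : ℤ) : ℝ) := by
            rw [Int.cast_natCast]
          rw [e3, e2]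
          push_cast
          ring
        simp only [s]
        rw [Nat.cast_mul, e]
      have hsm : ∀ i, s i ≤ m := by
        intro i
        refine le_trans ?_ hm
        have hi := i.isLt
        have : ((1 + j : ℤ) - 2 * ((i : ℕ) + 1 : ℤ)).natAbs ≤ 2 * d + 1 := by omega
        exact Nat.mul_le_mul (hc2 i) (Nat.pow_le_pow_left this 2)
      rw [hs]
      rcases Nat.even_or_odd' j with ⟨a, ha | ha⟩
      · rw [Even.neg_one_pow ⟨a, by omega⟩, one_mul]
        refine h1 s ?_ hsm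
        intro i
        have : 1 ≤ ((1 + j : ℤ) - 2 * ((i : ℕ) + 1 : ℤ)).natAbs := by omega
        exact Nat.one_le_iff_ne_zero.2 (Nat.mul_ne_zero (by have := hc1 i; omega)
          (pow_ne_zero _ (by omega)))
      · rw [Odd.neg_one_pow ⟨a, by omega⟩]
        have := h2 s ⟨⟨a, by omega⟩, ?_⟩ hsm
        · linarith
        · have e : ((1 + j : ℤ) - 2 * ((a : ℕ) + 1 : ℤ)).natAbs = 0 := by omega
          simp [s, e]
    rw [hgeval] at h0
    exact h0
  refine MvPolynomial.eq_zero_of_eval_zero_at_prod_finset Q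
    (fun i : Fin d => (Finset.Icc 1 d).image fun c : ℕ =>
      (c : ℝ) * (1 - 2 * ((i : ℕ) + 1 : ℝ)) ^ 2) ?_ ?_
  · intro i
    rw [Finset.card_image_of_injective]
    · rw [Nat.card_Icc]
      have := MvPolynomial.degreeOf_le_totalDegree Q i
      omega
    · intro a b hab
      have hne : (1 - 2 * ((i : ℕ) + 1 : ℝ)) ^ 2 ≠ 0 := by
        have : (0 : ℝ) ≤ (i : ℕ) := Nat.cast_nonneg _
        have : (1 - 2 * ((i : ℕ) + 1 : ℝ)) < 0 := by linarith
        exact pow_ne_zero _ this.ne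
      exact Nat.cast_injective (mul_right_cancel₀ hne hab)
  · intro x hx
    have hx' : ∀ i : Fin d, ∃ c : ℕ, (1 ≤ c ∧ c ≤ d) ∧ (c : ℝ) * (1 - 2 * ((i : ℕ) + 1 : ℝ)) ^ 2 = x i := by
      intro i
      obtain ⟨c, hc, hcx⟩ := Finset.mem_image.1 (hx i)
      exact ⟨c, Finset.mem_Icc.1 hc, hcx⟩
    choose c hc hcx using hx'
    have := key c (fun i => (hc i).1) (fun i => (hc i).2)
    rw [← this]
    congr 1
    congr 1
    funext i
    exact (hcx i).symm

end Pool.SR
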