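import Pool.Agent.Lib.SR.T3
import Pool.Agent.Lib.SR.T4

namespace Pool.SR

open Finset

private theorem T5_mem {d m : ℕ} {s : Fin d → ℕ} {T : Fin d → Finset (Fin m)}
    (hT : T ∈ choices m s) (i : Fin d) : (T i).card = s i := by
  unfold choices at hT
  rw [Fintype.mem_piFinset] at hT
  exact (mem_powersetCard.1 (hT i)).2

private theorem T5_prod_pos {d m : ℕ} (s : Fin d → ℕ) (hs : ∀ i, s i ≤ m) :
    (0 : ℝ) < ∏ i, (m.choose (s i) : ℝ) :=
  Finset.prod_pos (fun i _ => by exact_mod_cast Nat.choose_pos (hs i))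

private theorem T5_F_one {d m : ℕ} {s : Fin d → ℕ} (h1 : ∀ i, 1 ≤ s i)
    {T : Fin d → Finset (Fin m)} (hT : T ∈ choices m s) : F (pt T) = 1 := by
  unfold F
  rw [if_pos]
  intro i
  have hc := T5_mem hT i
  have hpos : 0 < (T i).card := by rw [hc]; exact h1 i
  obtain ⟨j, hj⟩ := Finset.card_pos.1 hpos
  exact ⟨j, by simp [pt, hj]⟩

private theorem T5_F_neg {d m : ℕ} {s : Fin d → ℕ} (h0 : ∃ i, s i = 0)
    {T : Fin d → Finset (Fin m)} (hT : T ∈ choices m s) : F (pt T) = -1 := by
  unfold F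
  rw [if_neg]
  intro h
  obtain ⟨i, hi⟩ := h0
  have hc := T5_mem hT i
  rw [hi, Finset.card_eq_zero] at hc
  obtain ⟨j, hj⟩ := h i
  simp [pt, hc] at hj

/-- T5. No nonzero polynomial of degree less than `d` weakly sign represents `F`. -/
theorem thr {d m : ℕ} (hd : 1 ≤ d) (hm : d * (2 * d + 1) ^ 2 ≤ m)
    (c : Finset (Fin d × Fin m) → ℝ) (hc : ∀ S, d ≤ S.card → c S = 0)
    (h : ∀ x, 0 ≤ F x * ev c x) : ∀ x, ev c x = 0 := by
  obtain ⟨Q, hQdeg, hQ⟩ := exists_Q hd c hc
  have hpos : ∀ s : Fin d → ℕ, (∀ i, 1 ≤ s i) → ∀ T ∈ choices m s, 0 ≤ ev c (pt T) := by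
    intro s h1 T hT
    have := h (pt T)
    rwa [T5_F_one h1 hT, one_mul] at this
  have hneg : ∀ s : Fin d → ℕ, (∃ i, s i = 0) → ∀ T ∈ choices m s, ev c (pt T) ≤ 0 := by
    intro s h0 T hT
    have := h (pt T)
    rw [T5_F_neg h0 hT] at this
    linarith
  have hQ0 : Q = 0 := by
    refine Q_zero hd hm Q hQdeg ?_ ?_
    · intro s h1 hs
      have hp := T5_prod_pos s hs
      have hsum : 0 ≤ ∑ T ∈ choices m s, ev c (pt T) :=
        Finset.sum_nonneg (hpos s h1)
      rw [← hQ s hs] at hsum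
      exact nonneg_of_mul_nonneg_right hsum hp
    · intro s h0 hs
      have hp := T5_prod_pos s hs
      have hsum : ∑ T ∈ choices m s, ev c (pt T) ≤ 0 :=
        Finset.sum_nonpos (hneg s h0)
      rw [← hQ s hs] at hsum
      by_contra hcon
      push Not at hcon
      have := mul_pos hp hcon
      linarith
  intro x
  let T : Fin d → Finset (Fin m) := fun i => univ.filter (fun j => x (i, j) = true)
  let s : Fin d → ℕ := fun i => (T i).card
  have hs : ∀ i, s i ≤ m := by
    intro i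
    calc (T i).card ≤ (univ : Finset (Fin m)).card := Finset.card_le_card (Finset.subset_univ _)
      _ = m := by simp
  have hT : T ∈ choices m s := by
    unfold choices
    rw [Fintype.mem_piFinset]
    intro i
    exact mem_powersetCard.2 ⟨Finset.subset_univ _, rfl⟩
  have hx : pt T = x := by
    funext e
    obtain ⟨i, j⟩ := e
    unfold pt
    simp only [T, mem_filter, mem_univ, true_and]
    cases x (i, j) <;> simp
  have hsum : ∑ T ∈ choices m s, ev c (pt T) = 0 := by
    rw [← hQ s hs, hQ0]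
    simp
  by_cases h0 : ∃ i, s i = 0
  · have hz := (Finset.sum_eq_zero_iff_of_nonpos (hneg s h0)).1 hsum T hT
    rwa [hx] at hz
  · have h1 : ∀ i, 1 ≤ s i := by
      intro i
      rcases Nat.eq_zero_or_pos (s i) with h | h
      · exact absurd ⟨i, h⟩ h0
      · exact h
    have hz := (Finset.sum_eq_zero_iff_of_nonneg (hpos s h1)).1 hsum T hT
    rwa [hx] at hz

end Pool.SR
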