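import Pool.Agent.Lib.SR.D1
import Pool.Agent.Lib.SR.T5

namespace Pool.SR

open Finset

private theorem d2_F_sq {d m : ℕ} (x : Fin d × Fin m → Bool) : F x * F x = 1 := by
  unfold F
  split_ifs <;> norm_num

private theorem d2_ev_add {ι : Type} [Fintype ι] [DecidableEq ι] (c c' : Finset ι → ℝ)
    (x : ι → Bool) : ev (c + c') x = ev c x + ev c' x := by
  unfold ev
  rw [← Finset.sum_add_distrib]
  refine Finset.sum_congr rfl fun S _ => ?_
  rw [Pi.add_apply, add_mul]

private theorem d2_ev_smul {ι : Type} [Fintype ι] [DecidableEq ι] (a : ℝ) (c : Finset ι → ℝ)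
    (x : ι → Bool) : ev (a • c) x = a * ev c x := by
  unfold ev
  rw [Finset.mul_sum]
  refine Finset.sum_congr rfl fun S _ => ?_
  rw [Pi.smul_apply, smul_eq_mul, mul_assoc]

private theorem d2_ev_single {ι : Type} [Fintype ι] [DecidableEq ι] (S : Finset ι)
    (x : ι → Bool) : ev (fun T => if T = S then (1 : ℝ) else 0) x = ∏ e ∈ S, bit (x e) := by
  unfold ev
  rw [Finset.sum_eq_single S]
  · beta_reduce
    rw [if_pos rfl, one_mul]
  · intro T _ hT
    beta_reduce
    rw [if_neg hT, zero_mul]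
  · intro h
    exact absurd (Finset.mem_univ S) h

/-- D2. The dual polynomial: the sign of `F` everywhere, orthogonal to degree less than `d`. -/
theorem dual {d m : ℕ} (hd : 1 ≤ d) (hm : d * (2 * d + 1) ^ 2 ≤ m) :
    ∃ ψ : (Fin d × Fin m → Bool) → ℝ, (∀ x, 0 < F x * ψ x) ∧
      ∀ S : Finset (Fin d × Fin m), S.card < d → ∑ x, ψ x * ∏ e ∈ S, bit (x e) = 0 := by
  classical
  let P : Submodule ℝ ((Fin d × Fin m → Bool) → ℝ) :=
    { carrier := {p | ∃ c : Finset (Fin d × Fin m) → ℝ, (∀ S, d ≤ S.card → c S = 0) ∧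
        ∀ x, p x = F x * ev c x}
      zero_mem' := by
        refine ⟨0, fun S _ => rfl, fun x => ?_⟩
        have h := d2_ev_smul (0 : ℝ) (0 : Finset (Fin d × Fin m) → ℝ) x
        rw [zero_smul, zero_mul] at h
        rw [h, mul_zero]
        rfl
      add_mem' := by
        rintro p q ⟨c, hc, hp⟩ ⟨c', hc', hq⟩
        refine ⟨c + c', fun S hS => ?_, fun x => ?_⟩
        · rw [Pi.add_apply, hc S hS, hc' S hS, add_zero]
        · rw [Pi.add_apply, hp x, hq x, d2_ev_add, mul_add]
      smul_mem' := by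
        rintro a p ⟨c, hc, hp⟩
        refine ⟨a • c, fun S hS => ?_, fun x => ?_⟩
        · rw [Pi.smul_apply, hc S hS, smul_zero]
        · rw [Pi.smul_apply, hp x, d2_ev_smul, smul_eq_mul]
          ring }
  have hP : ∀ p ∈ P, (∀ x, 0 ≤ p x) → p = 0 := by
    rintro p ⟨c, hc, hp⟩ h0
    have h1 := thr hd hm c hc fun x => by rw [← hp x]; exact h0 x
    funext x
    rw [hp x, h1 x, mul_zero]
    rfl
  obtain ⟨ψ, hψ, horth⟩ := stiemke P hP
  refine ⟨fun x => ψ x * F x, fun x => ?_, fun S hS => ?_⟩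
  · have h1 : F x * (ψ x * F x) = ψ x * (F x * F x) := by ring
    rw [h1, d2_F_sq, mul_one]
    exact hψ x
  · have h1 := horth (fun x => F x * ev (fun T => if T = S then (1 : ℝ) else 0) x)
      ⟨_, fun T hT => by
        rw [if_neg]
        rintro rfl
        omega, fun x => rfl⟩
    rw [← h1]
    refine Finset.sum_congr rfl fun x _ => ?_
    rw [d2_ev_single]
    ring

end Pool.SR
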