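import Mathlib

/-!
Sign rank of the k-clique matrix: common definitions.
-/

namespace Pool.SR

open Finset

/-- AND over the rows of the OR over the row: plus one if every row contains a one,
minus one otherwise. -/
noncomputable def F {d m : ℕ} (x : Fin d × Fin m → Bool) : ℝ :=
  if ∀ i, ∃ j, x (i, j) = true then 1 else -1

/-- A bit as a real number. -/
noncomputable def bit (b : Bool) : ℝ := if b then 1 else 0

/-- The value at `x` of the real multilinear polynomial with coefficients `c`. -/
noncomputable def ev {ι : Type} [Fintype ι] [DecidableEq ι] (c : Finset ι → ℝ) (x : ι → Bool) : ℝ :=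
  ∑ S : Finset ι, c S * ∏ e ∈ S, bit (x e)

/-- The parity character. -/
noncomputable def chi {ι : Type} (S : Finset ι) (x : ι → Bool) : ℝ :=
  ∏ e ∈ S, (if x e then (-1 : ℝ) else 1)

/-- The point of the cube given by one set for each row. -/
def pt {d m : ℕ} (T : Fin d → Finset (Fin m)) : Fin d × Fin m → Bool :=
  fun e => decide (e.2 ∈ T e.1)

/-- The part of `S` in row `i`. -/
def row {d m : ℕ} (S : Finset (Fin d × Fin m)) (i : Fin d) : Finset (Fin m) :=
  univ.filter (fun j => (i, j) ∈ S)

/-- All choices of sets of sizes `s i`, one for each row. -/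
def choices {d : ℕ} (m : ℕ) (s : Fin d → ℕ) : Finset (Fin d → Finset (Fin m)) :=
  Fintype.piFinset (fun i => powersetCard (s i) (univ : Finset (Fin m)))

/-- Inputs of Alice. -/
abbrev Ali (ι : Type) (b : ℕ) : Type := ι → Fin b → Bool

/-- Inputs of Bob. -/
abbrev Bob (ι : Type) (b : ℕ) : Type := (ι → Fin b) × (ι → Bool)

/-- The combined input. -/
def comb {ι : Type} {b : ℕ} (y : Ali ι b) (z : Bob ι b) : ι → Bool :=
  fun e => xor (y e (z.1 e)) (z.2 e)

/-- The pairs of vertices whose residues mod `k` differ by one. -/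
def side (n k : ℕ) : SimpleGraph (Fin n) where
  Adj v w := v ≠ w ∧ ((v.val + 1) % k = w.val % k ∨ (w.val + 1) % k = v.val % k)
  symm := ⟨fun v w h => ⟨h.1.symm, h.2.symm⟩⟩
  loopless := ⟨fun v h => h.1 rfl⟩

end Pool.SR
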