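import Pool.Agent.Lib.SR.Defs

/-!
Forster's lower bound for the sign rank, without compactness.
-/

set_option autoImplicit false

namespace Pool.SR

open Finset Matrix

noncomputable section

variable {r : ℕ}

private theorem qn_nonneg (v : Fin r → ℝ) : 0 ≤ v ⬝ᵥ v := by
  rw [dotProduct]
  exact sum_nonneg fun i _ => mul_self_nonneg _

private theorem qn_pos {v : Fin r → ℝ} (h : v ≠ 0) : 0 < v ⬝ᵥ v := by
  refine lt_of_le_of_ne (qn_nonneg v) fun h0 => h ?_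
  exact (dotProduct_self_eq_zero.1 h0.symm)

private theorem entry_le (v : Fin r → ℝ) (t : Fin r) : |v t| ≤ √(v ⬝ᵥ v) := by
  apply Real.abs_le_sqrt
  rw [dotProduct, sq]
  exact single_le_sum (f := fun i => v i * v i) (fun i _ => mul_self_nonneg _) (mem_univ t)

/-- a crude Hadamard inequality -/
private theorem det_le_rows (M : Matrix (Fin r) (Fin r) ℝ) :
    |M.det| ≤ (r.factorial : ℝ) * ∏ k, √(M k ⬝ᵥ M k) := by
  rw [det_apply]
  refine (abs_sum_le_sum_abs _ _).trans ?_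
  have h1 : ∀ σ : Equiv.Perm (Fin r),
      |Equiv.Perm.sign σ • ∏ i, M (σ i) i| ≤ ∏ k, √(M k ⬝ᵥ M k) := by
    intro σ
    have h2 : |Equiv.Perm.sign σ • ∏ i, M (σ i) i| = ∏ i, |M (σ i) i| := by
      rw [Units.smul_def, zsmul_eq_mul, abs_mul, abs_prod]
      rcases Int.units_eq_one_or (Equiv.Perm.sign σ) with h | h <;> simp [h]
    rw [h2, ← Equiv.prod_comp σ (fun k => √(M k ⬝ᵥ M k))]
    exact prod_le_prod (fun i _ => abs_nonneg _) fun i _ => entry_le _ _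
  refine (sum_le_sum fun σ _ => h1 σ).trans ?_
  rw [sum_const, card_univ, Fintype.card_perm, Fintype.card_fin, nsmul_eq_mul]

/-! ### general position -/

section gp
variable {N : ℕ} [NeZero N]
set_option linter.unusedSectionVars false

/-- the window starting at `i` -/
private def win (U : ZMod N → Fin r → ℝ) (i : ZMod N) : Matrix (Fin r) (Fin r) ℝ :=
  fun k => U (i + (k : ℕ))

private theorem win_vander (hr : r ≤ N) (i : ZMod N) :
    (win (fun x t => ((x.val : ℝ)) ^ (t : ℕ)) i : Matrix (Fin r) (Fin r) ℝ).det ≠ 0 := by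
  have h1 : (win (fun x t => ((x.val : ℝ)) ^ (t : ℕ)) i : Matrix (Fin r) (Fin r) ℝ) =
      vandermonde (fun k : Fin r => ((i + ((k : ℕ) : ZMod N)).val : ℝ)) := by
    ext k t
    rfl
  rw [h1, det_vandermonde_ne_zero_iff]
  intro k l hkl
  have h2 : (((i + ((k : ℕ) : ZMod N)).val : ℕ) : ℝ) = ((i + ((l : ℕ) : ZMod N)).val : ℕ) := hkl
  rw [Nat.cast_inj] at h2
  have h3 := ZMod.val_injective N h2
  have h4 : ((k : ℕ) : ZMod N) = ((l : ℕ) : ZMod N) := add_left_cancel h3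
  have h5 := congrArg ZMod.val h4
  rw [ZMod.val_natCast, ZMod.val_natCast, Nat.mod_eq_of_lt (by omega), Nat.mod_eq_of_lt (by omega)]
    at h5
  exact Fin.ext h5

open Polynomial in
private theorem gen_pos (hr : r ≤ N) (U : ZMod N → Fin r → ℝ) {ε : ℝ} (hε : 0 < ε) :
    ∃ θ : ℝ, 0 < θ ∧ θ < ε ∧
      ∀ i, (win (fun x t => U x t + θ * ((x.val : ℝ)) ^ (t : ℕ)) i).det ≠ 0 := by
  classical
  let V : ZMod N → Fin r → ℝ := fun x t => ((x.val : ℝ)) ^ (t : ℕ)
  let p : ZMod N → ℝ[X] := fun i =>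
    det ((X : ℝ[X]) • (win V i).map C + (win U i).map C)
  have hp : ∀ i, p i ≠ 0 := by
    intro i h0
    have h1 := coeff_det_X_add_C_card (win V i) (win U i)
    change coeff (p i) _ = _ at h1
    rw [h0, coeff_zero] at h1
    exact win_vander hr i h1.symm
  let P : ℝ[X] := ∏ i, p i
  have hP : P ≠ 0 := prod_ne_zero_iff.2 fun i _ => hp i
  have hfin : (P.rootSet ℝ).Finite := P.rootSet_finite ℝ
  have hinf : (Set.Ioo 0 ε).Infinite := Set.Ioo_infinite hε
  obtain ⟨θ, hθ, hθ2⟩ := hinf.exists_notMem_finite hfin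
  refine ⟨θ, hθ.1, hθ.2, fun i h0 => hθ2 ?_⟩
  rw [mem_rootSet]
  refine ⟨hP, ?_⟩
  rw [map_prod]
  refine prod_eq_zero (mem_univ i) ?_
  rw [coe_aeval_eq_eval]
  have h2 : eval θ (p i) = det ((win U i) + θ • (win V i)) := by
    change eval θ (det _) = _
    rw [← coe_evalRingHom, RingHom.map_det]
    congr 1
    ext k t
    change eval θ (X * C (win V i k t) + C (win U i k t)) = win U i k t + θ * win V i k t
    rw [eval_add, eval_mul, eval_X, eval_C, eval_C, add_comm]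
  rw [h2, ← h0]
  congr 1

private theorem win_ne {U : ZMod N → Fin r → ℝ} (hw : ∀ i, (win U i).det ≠ 0) (hr0 : 0 < r)
    (x : ZMod N) : U x ≠ 0 := by
  intro h0
  apply hw x
  refine det_eq_zero_of_row_eq_zero ⟨0, hr0⟩ fun t => ?_
  change U (x + ((0 : ℕ) : ZMod N)) t = 0
  rw [Nat.cast_zero, add_zero, h0]
  rfl

private theorem win_mul (U : ZMod N → Fin r → ℝ) (A : Matrix (Fin r) (Fin r) ℝ) (i : ZMod N) :
    (win (fun x => A *ᵥ U x) i).det = (win U i).det * A.det := by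
  have h1 : win (fun x => A *ᵥ U x) i = win U i * Aᵀ := by
    ext k t
    change ∑ s, A t s * U (i + ((k : ℕ) : ZMod N)) s = ∑ s, U (i + ((k : ℕ) : ZMod N)) s * A t s
    exact sum_congr rfl fun s _ => mul_comm _ _
  rw [h1, det_mul, det_transpose]

private theorem mulVec_ne {A : Matrix (Fin r) (Fin r) ℝ} (hA : A.det ≠ 0) {v : Fin r → ℝ}
    (hv : v ≠ 0) : A *ᵥ v ≠ 0 := by
  intro h0
  exact hA (exists_mulVec_eq_zero_iff.1 ⟨v, hv, h0⟩)

/-- the functional which is minimised -/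
private def Phi (U : ZMod N → Fin r → ℝ) (A : Matrix (Fin r) (Fin r) ℝ) : ℝ :=
  (1 / 2) * ∑ x, Real.log ((A *ᵥ U x) ⬝ᵥ (A *ᵥ U x)) - (N / r : ℝ) * Real.log |A.det|

private theorem Phi_ge {U : ZMod N → Fin r → ℝ} (hw : ∀ i, (win U i).det ≠ 0) (hr0 : 0 < r)
    {A : Matrix (Fin r) (Fin r) ℝ} (hA : A.det ≠ 0) :
    (∑ i, Real.log |(win U i).det| - N * Real.log (r.factorial : ℝ)) / r ≤ Phi U A := by
  set q : ZMod N → ℝ := fun x => (A *ᵥ U x) ⬝ᵥ (A *ᵥ U x) with hq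
  have hqp : ∀ x, 0 < q x := fun x => qn_pos (mulVec_ne hA (win_ne hw hr0 x))
  have hrf : (0 : ℝ) < (r.factorial : ℝ) := by exact_mod_cast r.factorial_pos
  have h1 : ∀ i, Real.log |(win U i).det| + Real.log |A.det| ≤
      Real.log (r.factorial : ℝ) + ∑ k : Fin r, (1 / 2) * Real.log (q (i + ((k : ℕ) : ZMod N))) := by
    intro i
    have h2 := det_le_rows (win (fun x => A *ᵥ U x) i)
    rw [win_mul, abs_mul] at h2
    have h3 : ∏ k, √(win (fun x => A *ᵥ U x) i k ⬝ᵥ win (fun x => A *ᵥ U x) i k) =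
        ∏ k : Fin r, √(q (i + ((k : ℕ) : ZMod N))) := rfl
    rw [h3] at h2
    have hp1 : 0 < |(win U i).det| := abs_pos.2 (hw i)
    have hp2 : 0 < |A.det| := abs_pos.2 hA
    have hsq : ∀ k : Fin r, 0 < √(q (i + ((k : ℕ) : ZMod N))) := fun k => Real.sqrt_pos.2 (hqp _)
    have h4 := Real.log_le_log (mul_pos hp1 hp2) h2
    rw [Real.log_mul hp1.ne' hp2.ne', Real.log_mul hrf.ne' (prod_pos fun k _ => hsq k).ne',
      Real.log_prod (fun k _ => (hsq k).ne')] at h4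
    refine h4.trans (le_of_eq ?_)
    congr 1
    refine sum_congr rfl fun k _ => ?_
    rw [Real.log_sqrt (hqp _).le]
    ring
  have h5 := sum_le_sum fun (i : ZMod N) (_ : i ∈ univ) => h1 i
  have hcard : (Fintype.card (ZMod N) : ℝ) = N := by rw [ZMod.card]
  rw [sum_add_distrib, sum_add_distrib, sum_const, sum_const, card_univ, nsmul_eq_mul,
    nsmul_eq_mul, hcard, sum_comm] at h5
  have h6 : ∑ k : Fin r, ∑ i : ZMod N, (1 / 2) * Real.log (q (i + ((k : ℕ) : ZMod N))) =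
      r * ((1 / 2) * ∑ x, Real.log (q x)) := by
    have h7 : ∀ k : Fin r, ∑ i : ZMod N, (1 / 2) * Real.log (q (i + ((k : ℕ) : ZMod N))) =
        (1 / 2) * ∑ x, Real.log (q x) := by
      intro k
      rw [← mul_sum]
      congr 1
      exact Equiv.sum_comp (Equiv.addRight (((k : ℕ) : ZMod N))) (fun x => Real.log (q x))
    rw [sum_congr rfl fun k _ => h7 k, sum_const, card_univ, Fintype.card_fin, nsmul_eq_mul]
  rw [h6] at h5
  have hr1 : (0 : ℝ) < r := by exact_mod_cast hr0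
  rw [div_le_iff₀ hr1, Phi, sub_mul]
  have h8 : (N / r : ℝ) * Real.log |A.det| * r = N * Real.log |A.det| := by
    field_simp
  rw [h8]
  have h9 : (∑ x, Real.log ((A *ᵥ U x) ⬝ᵥ (A *ᵥ U x))) = ∑ x, Real.log (q x) := rfl
  rw [h9]
  linarith

private theorem exists_near_min {U : ZMod N → Fin r → ℝ} (hw : ∀ i, (win U i).det ≠ 0)
    (hr0 : 0 < r) {δ : ℝ} (hδ : 0 < δ) :
    ∃ A : Matrix (Fin r) (Fin r) ℝ, A.det ≠ 0 ∧
      ∀ A' : Matrix (Fin r) (Fin r) ℝ, A'.det ≠ 0 → Phi U A < Phi U A' + δ := by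
  let S : Set ℝ := {y | ∃ A : Matrix (Fin r) (Fin r) ℝ, A.det ≠ 0 ∧ y = Phi U A}
  have hne : S.Nonempty := ⟨_, 1, by rw [det_one]; exact one_ne_zero, rfl⟩
  have hbd : BddBelow S := ⟨_, by rintro _ ⟨A, hA, rfl⟩; exact Phi_ge hw hr0 hA⟩
  obtain ⟨y, ⟨A, hA, rfl⟩, hy⟩ := Real.lt_sInf_add_pos hne hδ
  refine ⟨A, hA, fun A' hA' => hy.trans_le ?_⟩
  have := csInf_le hbd ⟨A', hA', rfl⟩
  linarith

/-- the key step -/
private theorem step {U : ZMod N → Fin r → ℝ} (hw : ∀ i, (win U i).det ≠ 0)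
    (hr0 : 0 < r) {A : Matrix (Fin r) (Fin r) ℝ} (hA : A.det ≠ 0)
    (hmin : ∀ A' : Matrix (Fin r) (Fin r) ℝ, A'.det ≠ 0 → Phi U A < Phi U A' + N / (32 * r))
    (e : Fin r → ℝ) (he : e ⬝ᵥ e = 1) :
    (N / (2 * r) : ℝ) ≤
      ∑ x, (e ⬝ᵥ (A *ᵥ U x)) ^ 2 / ((A *ᵥ U x) ⬝ᵥ (A *ᵥ U x)) := by
  by_contra hcon
  push Not at hcon
  set q : ZMod N → ℝ := fun x => (A *ᵥ U x) ⬝ᵥ (A *ᵥ U x) with hq
  have hqp : ∀ x, 0 < q x := fun x => qn_pos (mulVec_ne hA (win_ne hw hr0 x))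
  let R : Matrix (Fin r) (Fin r) ℝ := 1 + (1 / 4 : ℝ) • vecMulVec e e
  have hRv : ∀ v : Fin r → ℝ, R *ᵥ v = v + ((1 / 4) * (e ⬝ᵥ v)) • e := by
    intro v
    ext t
    simp only [R, add_mulVec, one_mulVec, smul_mulVec, Pi.add_apply, Pi.smul_apply, smul_eq_mul]
    congr 1
    rw [mulVec, dotProduct, mul_assoc]
    congr 1
    rw [dotProduct, sum_mul]
    refine sum_congr rfl fun s _ => ?_
    rw [vecMulVec_apply]
    ring
  have hRdet : R.det = 5 / 4 := by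
    have h1 : R = 1 + replicateCol Unit ((1 / 4 : ℝ) • e) * replicateRow Unit e := by
      ext a b
      simp [R, vecMulVec_apply, Matrix.mul_apply]
    rw [h1, det_one_add_replicateCol_mul_replicateRow, dotProduct_smul, he]
    norm_num
  have hqR : ∀ v : Fin r → ℝ, (R *ᵥ v) ⬝ᵥ (R *ᵥ v) = v ⬝ᵥ v + (9 / 16) * (e ⬝ᵥ v) ^ 2 := by
    intro v
    rw [hRv, add_dotProduct, dotProduct_add, dotProduct_add, smul_dotProduct, smul_dotProduct,
      dotProduct_smul, dotProduct_smul, he, dotProduct_comm v e]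
    simp only [smul_eq_mul]
    ring
  have hA' : (R * A).det ≠ 0 := by
    rw [det_mul, hRdet]
    exact mul_ne_zero (by norm_num) hA
  have h1 := hmin (R * A) hA'
  have hN : (0 : ℝ) < N := by exact_mod_cast Nat.pos_of_ne_zero (NeZero.ne N)
  have hr1 : (0 : ℝ) < r := by exact_mod_cast hr0
  have h2 : ∑ x, Real.log (((R * A) *ᵥ U x) ⬝ᵥ ((R * A) *ᵥ U x)) ≤
      ∑ x, Real.log (q x) + (9 / 16) * ∑ x, (e ⬝ᵥ (A *ᵥ U x)) ^ 2 / q x := by
    rw [mul_sum, ← sum_add_distrib]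
    refine sum_le_sum fun x _ => ?_
    rw [← mulVec_mulVec, hqR]
    have h3 : (A *ᵥ U x) ⬝ᵥ (A *ᵥ U x) + (9 / 16) * (e ⬝ᵥ (A *ᵥ U x)) ^ 2 =
        q x * (1 + (9 / 16) * ((e ⬝ᵥ (A *ᵥ U x)) ^ 2 / q x)) := by
      have := (hqp x).ne'
      change q x + _ = _
      field_simp
    have h4 : 0 ≤ (e ⬝ᵥ (A *ᵥ U x)) ^ 2 / q x := div_nonneg (sq_nonneg _) (hqp x).le
    rw [h3, Real.log_mul (hqp x).ne' (by positivity)]
    have h5 := Real.log_le_sub_one_of_pos
      (show 0 < 1 + (9 / 16) * ((e ⬝ᵥ (A *ᵥ U x)) ^ 2 / q x) by positivity)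
    linarith
  have h6 : Real.log |(R * A).det| = Real.log (5 / 4) + Real.log |A.det| := by
    rw [det_mul, hRdet, abs_mul, Real.log_mul (by norm_num) (abs_pos.2 hA).ne',
      abs_of_pos (by norm_num : (0 : ℝ) < 5 / 4)]
  have h7 : (1 : ℝ) / 5 ≤ Real.log (5 / 4) := by
    have := Real.one_sub_inv_le_log_of_pos (by norm_num : (0 : ℝ) < 5 / 4)
    norm_num at this
    linarith
  have hPA : Phi U A = (1 / 2) * ∑ x, Real.log (q x) - (N / r : ℝ) * Real.log |A.det| := rfl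
  have hPR : Phi U (R * A) = (1 / 2) * ∑ x, Real.log (((R * A) *ᵥ U x) ⬝ᵥ ((R * A) *ᵥ U x)) -
      (N / r : ℝ) * Real.log |(R * A).det| := rfl
  rw [hPA, hPR, h6] at h1
  have h8 : (N / r : ℝ) * (1 / 5) ≤ (N / r : ℝ) * Real.log (5 / 4) :=
    mul_le_mul_of_nonneg_left h7 (by positivity)
  have h9 : (N / (2 * r) : ℝ) = (N / r) / 2 := by field_simp
  have h10 : (N / (32 * r) : ℝ) = (N / r) / 32 := by field_simp
  have h11 : (0 : ℝ) < N / r := by positivity
  rw [h10] at h1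
  rw [h9] at hcon
  change ∑ x, (e ⬝ᵥ (A *ᵥ U x)) ^ 2 / q x < _ at hcon
  nlinarith

/-- the case of points in general position -/
private theorem forster_gp {Y : Type} [Fintype Y] [Nonempty Y] {U : ZMod N → Fin r → ℝ}
    (hw : ∀ i, (win U i).det ≠ 0) (hr0 : 0 < r) (M : ZMod N → Y → ℝ) (γ B : ℝ)
    (hγ : 0 ≤ γ) (hB0 : 0 ≤ B)
    (hM : ∀ x y, γ ≤ |M x y|) (hB : ∀ (a : ZMod N → ℝ) (c : Y → ℝ),
      ∑ x, ∑ y, a x * M x y * c y ≤ B * (√(∑ x, a x ^ 2) * √(∑ y, c y ^ 2)))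
    (w : Y → Fin r → ℝ) (hs : ∀ x y, 0 < M x y * (U x ⬝ᵥ w y)) :
    γ * √(N * Fintype.card Y) ≤ 2 * r * B := by
  have hN : (0 : ℝ) < N := by exact_mod_cast Nat.pos_of_ne_zero (NeZero.ne N)
  have hr1 : (0 : ℝ) < r := by exact_mod_cast hr0
  have hY : (0 : ℝ) < Fintype.card Y := by exact_mod_cast Fintype.card_pos
  obtain ⟨A, hA, hmin⟩ := exists_near_min hw hr0 (δ := N / (32 * r)) (by positivity)
  set q : ZMod N → ℝ := fun x => (A *ᵥ U x) ⬝ᵥ (A *ᵥ U x) with hq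
  have hqp : ∀ x, 0 < q x := fun x => qn_pos (mulVec_ne hA (win_ne hw hr0 x))
  -- normalised vectors
  let a : ZMod N → Fin r → ℝ := fun x => (√(q x))⁻¹ • (A *ᵥ U x)
  have ha1 : ∀ x, a x ⬝ᵥ a x = 1 := by
    intro x
    simp only [a, smul_dotProduct, dotProduct_smul, smul_eq_mul]
    rw [← mul_assoc, ← sq, inv_pow, Real.sq_sqrt (hqp x).le]
    exact inv_mul_cancel₀ (hqp x).ne'
  have hwne : ∀ y, w y ≠ 0 := by
    intro y h0
    have := hs 0 y
    rw [h0, dotProduct_zero, mul_zero] at this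
    exact lt_irrefl _ this
  have hAu : IsUnit A.det := hA.isUnit
  let z : Y → Fin r → ℝ := fun y => (A⁻¹)ᵀ *ᵥ w y
  have hz : ∀ x y, z y ⬝ᵥ (A *ᵥ U x) = U x ⬝ᵥ w y := by
    intro x y
    simp only [z]
    rw [dotProduct_comm, dotProduct_mulVec, vecMul_transpose, mulVec_mulVec,
      nonsing_inv_mul A hAu, one_mulVec]
  have hzne : ∀ y, z y ≠ 0 := by
    intro y h0
    have h1 := hz 0 y
    rw [h0, zero_dotProduct] at h1
    have := hs 0 y
    rw [← h1, mul_zero] at this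
    exact lt_irrefl _ this
  let e : Y → Fin r → ℝ := fun y => (√(z y ⬝ᵥ z y))⁻¹ • z y
  have he1 : ∀ y, e y ⬝ᵥ e y = 1 := by
    intro y
    have := qn_pos (hzne y)
    simp only [e, smul_dotProduct, dotProduct_smul, smul_eq_mul]
    rw [← mul_assoc, ← sq, inv_pow, Real.sq_sqrt this.le]
    exact inv_mul_cancel₀ this.ne'
  have hsgn : ∀ x y, 0 < M x y * (a x ⬝ᵥ e y) := by
    intro x y
    have h1 : a x ⬝ᵥ e y = (√(q x))⁻¹ * ((√(z y ⬝ᵥ z y))⁻¹ * (U x ⬝ᵥ w y)) := by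
      simp only [a, e, smul_dotProduct, dotProduct_smul, smul_eq_mul]
      rw [dotProduct_comm (A *ᵥ U x), hz]
      ring
    rw [h1]
    have h2 : 0 < (√(q x))⁻¹ := inv_pos.2 (Real.sqrt_pos.2 (hqp x))
    have h3 : 0 < (√(z y ⬝ᵥ z y))⁻¹ := inv_pos.2 (Real.sqrt_pos.2 (qn_pos (hzne y)))
    have h4 := hs x y
    have h5 : M x y * ((√(q x))⁻¹ * ((√(z y ⬝ᵥ z y))⁻¹ * (U x ⬝ᵥ w y))) =
        (√(q x))⁻¹ * ((√(z y ⬝ᵥ z y))⁻¹ * (M x y * (U x ⬝ᵥ w y))) := by ring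
    rw [h5]
    positivity
  have hle1 : ∀ x y, |a x ⬝ᵥ e y| ≤ 1 := by
    intro x y
    have h1 : (a x ⬝ᵥ e y) ^ 2 ≤ (a x ⬝ᵥ a x) * (e y ⬝ᵥ e y) := by
      have h2 := sum_mul_sq_le_sq_mul_sq (univ : Finset (Fin r)) (a x) (e y)
      simpa [dotProduct, sq] using h2
    rw [ha1, he1, one_mul] at h1
    exact (sq_le_one_iff_abs_le_one _).1 h1
  -- lower bound
  have hlow : ∀ y, γ * (N / (2 * r)) ≤ ∑ x, M x y * (a x ⬝ᵥ e y) := by
    intro y
    have h1 := step hw hr0 hA hmin (e y) (he1 y)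
    refine (mul_le_mul_of_nonneg_left h1 hγ).trans ?_
    rw [mul_sum]
    refine sum_le_sum fun x _ => ?_
    have h2 : (e y ⬝ᵥ (A *ᵥ U x)) ^ 2 / ((A *ᵥ U x) ⬝ᵥ (A *ᵥ U x)) = (a x ⬝ᵥ e y) ^ 2 := by
      simp only [a, smul_dotProduct, smul_eq_mul, mul_pow, inv_pow]
      rw [Real.sq_sqrt (hqp x).le, dotProduct_comm (A *ᵥ U x) (e y), div_eq_inv_mul]
    rw [h2]
    have h3 : M x y * (a x ⬝ᵥ e y) = |M x y| * |a x ⬝ᵥ e y| := by
      rw [← abs_mul, abs_of_pos (hsgn x y)]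
    rw [h3]
    have h4 : (a x ⬝ᵥ e y) ^ 2 ≤ |a x ⬝ᵥ e y| := by
      rw [← sq_abs, sq]
      exact mul_le_of_le_one_left (abs_nonneg _) (hle1 x y)
    exact mul_le_mul (hM x y) h4 (sq_nonneg _) (abs_nonneg _)
  -- upper bound
  have hup : ∑ y, ∑ x, M x y * (a x ⬝ᵥ e y) ≤ B * √(N * Fintype.card Y) := by
    have h1 : ∑ y, ∑ x, M x y * (a x ⬝ᵥ e y) =
        ∑ t, ∑ x, ∑ y, (a x t) * M x y * (e y t) := by
      rw [sum_comm]
      have h2 : ∀ x y, M x y * (a x ⬝ᵥ e y) = ∑ t, (a x t) * M x y * (e y t) := by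
        intro x y
        rw [dotProduct, mul_sum]
        exact sum_congr rfl fun t _ => by ring
      simp_rw [h2]
      rw [sum_comm]
      simp_rw [sum_comm (s := (univ : Finset (ZMod N))) (t := (univ : Finset (Fin r)))]
      rw [sum_comm]
      refine sum_congr rfl fun t _ => ?_
      rw [sum_comm]
    rw [h1]
    have h3 : ∀ t, ∑ x, ∑ y, (a x t) * M x y * (e y t) ≤
        B * (√(∑ x, a x t ^ 2) * √(∑ y, e y t ^ 2)) := fun t => hB _ _
    refine (sum_le_sum fun t _ => h3 t).trans ?_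
    rw [← mul_sum]
    refine mul_le_mul_of_nonneg_left ?_ hB0
    have h4 := Real.sum_sqrt_mul_sqrt_le (univ : Finset (Fin r)) (f := fun t => ∑ x, a x t ^ 2)
      (g := fun t => ∑ y, e y t ^ 2) (fun t => sum_nonneg fun _ _ => sq_nonneg _)
      (fun t => sum_nonneg fun _ _ => sq_nonneg _)
    refine h4.trans ?_
    have h5 : ∑ t, ∑ x, a x t ^ 2 = N := by
      rw [sum_comm]
      have : ∀ x, ∑ t, a x t ^ 2 = 1 := by
        intro x
        rw [← ha1 x, dotProduct]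
        exact sum_congr rfl fun t _ => sq _
      rw [sum_congr rfl fun x _ => this x, sum_const, card_univ, ZMod.card, nsmul_eq_mul, mul_one]
    have h6 : ∑ t, ∑ y, e y t ^ 2 = Fintype.card Y := by
      rw [sum_comm]
      have : ∀ y, ∑ t, e y t ^ 2 = 1 := by
        intro y
        rw [← he1 y, dotProduct]
        exact sum_congr rfl fun t _ => sq _
      rw [sum_congr rfl fun y _ => this y, sum_const, card_univ, nsmul_eq_mul, mul_one]
    rw [h5, h6, Real.sqrt_mul hN.le]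
  have h1 := sum_le_sum fun (y : Y) (_ : y ∈ univ) => hlow y
  rw [sum_const, card_univ, nsmul_eq_mul] at h1
  have h2 := h1.trans hup
  set s := √(N * Fintype.card Y : ℝ) with hs'
  have hspos : 0 < s := Real.sqrt_pos.2 (mul_pos hN hY)
  have hsq : s ^ 2 = N * Fintype.card Y := Real.sq_sqrt (mul_pos hN hY).le
  have h3 : (Fintype.card Y : ℝ) * (γ * (N / (2 * r))) = γ * s ^ 2 / (2 * r) := by
    rw [hsq]; field_simp
  rw [h3, div_le_iff₀ (by positivity)] at h2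
  have h4 : s * (γ * s) ≤ s * (2 * r * B) := by nlinarith
  exact le_of_mul_le_mul_left h4 hspos

end gp

/-- Fo5. Forster's bound. (`r > card X`: one row gives `γ √(card Y) ≤ B`.) Otherwise take
unit vectors `a x = A u_x / |A u_x|`, `c y = A^(-T) v_y / |A^(-T) v_y|`. -/
theorem forster {X Y : Type} [Fintype X] [Fintype Y] [Nonempty X] [Nonempty Y] {r : ℕ}
    (Ψ : X → Y → ℝ) (γ B : ℝ) (hγ : 0 < γ)
    (hB : ∀ (a : X → ℝ) (c : Y → ℝ),
      ∑ x, ∑ y, a x * Ψ x y * c y ≤ B * √(∑ x, a x ^ 2) * √(∑ y, c y ^ 2))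
    (hΨ : ∀ x y, γ ≤ |Ψ x y|)
    (u : X → Fin r → ℝ) (v : Y → Fin r → ℝ)
    (h : ∀ x y, 0 < Ψ x y * ∑ t, u x t * v y t) :
    γ * √((Fintype.card X : ℝ) * (Fintype.card Y : ℝ)) ≤ 2 * r * B := by
  classical
  obtain ⟨x0⟩ := ‹Nonempty X›
  obtain ⟨y0⟩ := ‹Nonempty Y›
  have : Nonempty Y := ⟨y0⟩
  have hX1 : 0 < Fintype.card X := Fintype.card_pos_iff.2 ⟨x0⟩
  have hr0 : 0 < r := by
    rcases Nat.eq_zero_or_pos r with rfl | hr
    · have := h x0 y0
      simp at this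
    · exact hr
  -- one row
  have hrow : γ * √(Fintype.card Y : ℝ) ≤ B := by
    have h1 := hB (fun x => if x = x0 then 1 else 0) (fun y => Ψ x0 y)
    have h2 : ∑ x, ∑ y, (if x = x0 then (1 : ℝ) else 0) * Ψ x y * Ψ x0 y = ∑ y, Ψ x0 y ^ 2 := by
      rw [sum_eq_single x0]
      · exact sum_congr rfl fun y _ => by rw [if_pos rfl]; ring
      · intro x _ hx
        refine sum_eq_zero fun y _ => ?_
        rw [if_neg hx]; ring
      · intro hx; exact absurd (mem_univ x0) hx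
    have h3 : ∑ x, (if x = x0 then (1 : ℝ) else 0) ^ 2 = 1 := by
      rw [sum_eq_single x0]
      · simp
      · intro x _ hx; simp [hx]
      · intro hx; exact absurd (mem_univ x0) hx
    rw [h2, h3, Real.sqrt_one, mul_one] at h1
    have hpos : 0 < ∑ y, Ψ x0 y ^ 2 := by
      refine sum_pos (fun y _ => ?_) univ_nonempty
      have := hΨ x0 y
      have h4 : Ψ x0 y ≠ 0 := by
        intro h5; rw [h5, abs_zero] at this; linarith
      positivity
    set S := ∑ y, Ψ x0 y ^ 2 with hS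
    have hsq : √S * √S = S := Real.mul_self_sqrt hpos.le
    have h5 : √S ≤ B := by
      have h6 : √S * √S ≤ B * √S := by rw [hsq]; exact h1
      exact le_of_mul_le_mul_right h6 (Real.sqrt_pos.2 hpos)
    refine le_trans ?_ h5
    have h7 : γ ^ 2 * Fintype.card Y ≤ S := by
      have h8 : ∀ y ∈ (univ : Finset Y), γ ^ 2 ≤ Ψ x0 y ^ 2 := by
        intro y _
        rw [← sq_abs (Ψ x0 y)]
        exact pow_le_pow_left₀ hγ.le (hΨ x0 y) 2
      have := card_nsmul_le_sum univ (fun y => Ψ x0 y ^ 2) (γ ^ 2) h8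
      rw [card_univ, nsmul_eq_mul, mul_comm] at this
      exact this
    calc γ * √(Fintype.card Y : ℝ) = √(γ ^ 2 * Fintype.card Y) := by
          rw [Real.sqrt_mul (sq_nonneg γ), Real.sqrt_sq hγ.le]
      _ ≤ √S := Real.sqrt_le_sqrt h7
  have hB0 : 0 ≤ B := le_trans (by positivity) hrow
  rcases Nat.lt_or_ge (Fintype.card X) r with hlt | hge
  · have hXr : (Fintype.card X : ℝ) ≤ r := by exact_mod_cast hlt.le
    have hX1' : (1 : ℝ) ≤ Fintype.card X := by exact_mod_cast hX1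
    have h1 : √(Fintype.card X : ℝ) ≤ r := by
      refine le_trans (Real.sqrt_le_self_iff.2 ?_) hXr
      exact Or.inr hX1'
    rw [Real.sqrt_mul (by positivity)]
    calc γ * (√(Fintype.card X : ℝ) * √(Fintype.card Y : ℝ))
        = √(Fintype.card X : ℝ) * (γ * √(Fintype.card Y : ℝ)) := by ring
      _ ≤ r * B := mul_le_mul h1 hrow (by positivity) (by positivity)
      _ ≤ 2 * r * B := by nlinarith [mul_nonneg (Nat.cast_nonneg (α := ℝ) r) hB0]
  · set N := Fintype.card X with hN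
    have : NeZero N := ⟨hX1.ne'⟩
    let σ : ZMod N ≃ X := Fintype.equivOfCardEq (ZMod.card N)
    let V : ZMod N → Fin r → ℝ := fun x t => ((x.val : ℝ)) ^ (t : ℕ)
    have hev : ∀ᶠ θ : ℝ in nhds 0, ∀ (i : ZMod N) (y : Y),
        0 < Ψ (σ i) y * ∑ t, (u (σ i) t + θ * V i t) * v y t := by
      rw [Filter.eventually_all]
      intro i
      rw [Filter.eventually_all]
      intro y
      have hc : Continuous fun θ : ℝ => Ψ (σ i) y * ∑ t, (u (σ i) t + θ * V i t) * v y t := by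
        fun_prop
      have h0 : 0 < (fun θ : ℝ => Ψ (σ i) y * ∑ t, (u (σ i) t + θ * V i t) * v y t) 0 := by
        simp only [zero_mul, add_zero]
        exact h _ _
      exact hc.continuousAt.eventually (lt_mem_nhds h0)
    rw [Metric.eventually_nhds_iff] at hev
    obtain ⟨ε, hε, hε2⟩ := hev
    obtain ⟨θ, hθ0, hθε, hgp⟩ := gen_pos (r := r) hge (fun i => u (σ i)) hε
    have hsgn := hε2 (y := θ) (by rw [Real.dist_eq, sub_zero, abs_of_pos hθ0]; exact hθε)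
    have key := forster_gp (U := fun x t => u (σ x) t + θ * ((x.val : ℝ)) ^ (t : ℕ)) hgp hr0
      (fun i y => Ψ (σ i) y) γ B hγ.le hB0 (fun i y => hΨ _ _) ?_ v (fun i y => hsgn i y)
    · exact key
    · intro a c
      have h1 := hB (fun x => a (σ.symm x)) c
      have h2 : ∑ x, ∑ y, a (σ.symm x) * Ψ x y * c y = ∑ i, ∑ y, a i * Ψ (σ i) y * c y := by
        rw [← Equiv.sum_comp σ]
        simp
      have h3 : ∑ x, a (σ.symm x) ^ 2 = ∑ i, a i ^ 2 := by
        rw [← Equiv.sum_comp σ]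
        simp
      rw [h2, h3] at h1
      rw [← mul_assoc]
      exact h1



end

end Pool.SR
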