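import Pool.Agent.Lib.SR.Defs

namespace Pool.SR

open Finset

/-- auxiliary: the vertex with class `i` and code `c` -/
private def G1P {n k N : ℕ} {C : Type} (e : C ≃ Fin N) (v : Fin n) (i : Fin k) (c : C) : Prop :=
  v.val = i.val + k * (e c).val

private lemma G1P_mod {n k N : ℕ} {C : Type} {e : C ≃ Fin N} {v : Fin n} {i : Fin k} {c : C}
    (h : G1P e v i c) : v.val % k = i.val := by
  rw [h, Nat.add_mul_mod_self_left, Nat.mod_eq_of_lt i.isLt]

private lemma G1P_inj {n k N : ℕ} {C : Type} {e : C ≃ Fin N} {v : Fin n} {i i' : Fin k} {c c' : C}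
    (h : G1P e v i c) (h' : G1P e v i' c') : i = i' ∧ c = c' := by
  have h1 : i = i' := Fin.ext (by rw [← G1P_mod h, ← G1P_mod h'])
  subst h1
  have hk : 0 < k := i.pos
  have h2 : k * (e c).val = k * (e c').val := by
    have := h.symm.trans h'
    omega
  exact ⟨rfl, e.injective (Fin.ext (Nat.eq_of_mul_eq_mul_left hk h2))⟩

private def G1cond {k m b : ℕ} (y : Ali (Fin k × Fin m) b) (z : Bob (Fin k × Fin m) b)
    (i : Fin k) (c : Fin m × Fin b × Bool) (i' : Fin k) : Prop :=
  ((i.val + 1) % k = i'.val → y (i, c.1) c.2.1 = c.2.2) ∧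
    ((i.val + 2) % k = i'.val → c.2.1 = z.1 (i, c.1) ∧ xor c.2.2 (z.2 (i, c.1)) = true)

private def G1graph {n k m b N : ℕ} (e : Fin m × Fin b × Bool ≃ Fin N)
    (y : Ali (Fin k × Fin m) b) (z : Bob (Fin k × Fin m) b) : SimpleGraph (Fin n) where
  Adj v w := ∃ i c i' c', G1P e v i c ∧ G1P e w i' c' ∧ i ≠ i' ∧ G1cond y z i c i' ∧
    G1cond y z i' c' i
  symm := ⟨fun _ _ ⟨i, c, i', c', h1, h2, h3, h4, h5⟩ => ⟨i', c', i, c, h2, h1, h3.symm, h5, h4⟩⟩
  loopless := ⟨fun _ ⟨_, _, _, _, h1, h2, h3, _⟩ => h3 (G1P_inj h1 h2).1⟩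

private lemma G1_ne {k : ℕ} (hk : 4 ≤ k) (a : ℕ) (ha : a < k) :
    (a + 1) % k ≠ a ∧ (a + 2) % k ≠ a ∧ (a + 1) % k ≠ (a + 2) % k ∧
      ((a + 1) % k + 2) % k ≠ a := by
  have h1 : (a + 1) % k = if a + 1 < k then a + 1 else a + 1 - k := by
    split_ifs with h
    · exact Nat.mod_eq_of_lt h
    · rw [Nat.mod_eq_sub_mod (by omega), Nat.mod_eq_of_lt (by omega)]
  have h2 : (a + 2) % k = if a + 2 < k then a + 2 else a + 2 - k := by
    split_ifs with h
    · exact Nat.mod_eq_of_lt h
    · rw [Nat.mod_eq_sub_mod (by omega), Nat.mod_eq_of_lt (by omega)]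
  have h3 : ((a + 1) % k + 2) % k = (a + 3) % k := by
    rw [Nat.mod_add_mod]
  have h4 : (a + 3) % k = if a + 3 < k then a + 3 else a + 3 - k := by
    split_ifs with h
    · exact Nat.mod_eq_of_lt h
    · rw [Nat.mod_eq_sub_mod (by omega), Nat.mod_eq_of_lt (by omega)]
  rw [h3, h1, h2, h4]
  split_ifs <;> omega

/-- G1. The graph reduction. Vertex `(i, j, s, β)` is the number `i + k * (index of (j, s, β))`.
Different classes `i, i'` are adjacent iff: `i' = i+1` (mod k) implies `y (i,j) s = β`;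
`i' = i+2` implies `s = z.1 (i,j)` and `xor β (z.2 (i,j))`; and the same with the roles of the
two vertices exchanged. Numbers that are not of this form are isolated. -/
theorem graph {n k m b : ℕ} (hk : 4 ≤ k) (hm : 1 ≤ m) (hb : 1 ≤ b) (hn : 2 * k * m * b ≤ n) :
    ∃ G : Ali (Fin k × Fin m) b → Bob (Fin k × Fin m) b → SimpleGraph (Fin n),
      (∀ y z, ¬ (G y z).CliqueFree k ↔ ∀ i, ∃ j, comb y z (i, j) = true) ∧
      (∀ y z z', G y z ⊓ side n k = G y z' ⊓ side n k) ∧
      (∀ y y' z, G y z ⊓ (side n k)ᶜ = G y' z ⊓ (side n k)ᶜ) := by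
  classical
  have hcard : Fintype.card (Fin m × Fin b × Bool) = 2 * m * b := by
    simp only [Fintype.card_prod, Fintype.card_fin, Fintype.card_bool]; ring
  let e : Fin m × Fin b × Bool ≃ Fin (2 * m * b) := Fintype.equivFinOfCardEq hcard
  refine ⟨fun y z => G1graph e y z, ?_, ?_, ?_⟩
  · intro y z
    constructor
    · intro hcl
      rw [SimpleGraph.CliqueFree] at hcl
      push Not at hcl
      obtain ⟨t, ht⟩ := hcl
      rw [SimpleGraph.isNClique_iff] at ht
      obtain ⟨hcl, htk⟩ := ht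
      have hadj : ∀ v ∈ t, ∀ w ∈ t, v ≠ w → (G1graph e y z : SimpleGraph (Fin n)).Adj v w :=
        fun v hv w hw hne => hcl hv hw hne
      let f : Fin n → Fin k := fun v => ⟨v.val % k, Nat.mod_lt _ (by omega)⟩
      have hfP : ∀ {v : Fin n} {i : Fin k} {c}, G1P e v i c → f v = i := fun h =>
        Fin.ext (G1P_mod h)
      have hinj : Set.InjOn f t := by
        intro v hv w hw hvw
        by_contra hne
        obtain ⟨i, c, i', c', h1, h2, h3, -, -⟩ := hadj v hv w hw hne
        exact h3 (by rw [← hfP h1, ← hfP h2, hvw])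
      have hsurj : t.image f = Finset.univ := by
        apply Finset.eq_univ_of_card
        rw [Finset.card_image_of_injOn hinj, htk, Fintype.card_fin]
      have hget : ∀ i : Fin k, ∃ v ∈ t, f v = i := by
        intro i
        have : i ∈ t.image f := by rw [hsurj]; exact Finset.mem_univ i
        simpa using this
      intro i
      have hkp : 0 < k := by omega
      obtain ⟨v, hv, hvi⟩ := hget i
      obtain ⟨v1, hv1, hvi1⟩ := hget ⟨(i.val + 1) % k, Nat.mod_lt _ hkp⟩
      obtain ⟨v2, hv2, hvi2⟩ := hget ⟨(i.val + 2) % k, Nat.mod_lt _ hkp⟩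
      obtain ⟨hn1, hn2, -, -⟩ := G1_ne hk i.val i.isLt
      have hne1 : v ≠ v1 := by
        rintro rfl
        rw [hvi] at hvi1
        exact hn1 (congrArg Fin.val hvi1).symm
      have hne2 : v ≠ v2 := by
        rintro rfl
        rw [hvi] at hvi2
        exact hn2 (congrArg Fin.val hvi2).symm
      obtain ⟨a, c, a', c', h1, h2, -, h4, -⟩ := hadj v hv v1 hv1 hne1
      obtain ⟨a2, c2, a2', c2', h1', h2', -, h4', -⟩ := hadj v hv v2 hv2 hne2
      obtain ⟨ha, hc⟩ := G1P_inj h1 h1'
      subst ha hc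
      have hai : a = i := by rw [← hfP h1, hvi]
      subst hai
      have ha' : (a.val + 1) % k = a'.val := by rw [← hfP h2, hvi1]
      have ha2' : (a.val + 2) % k = a2'.val := by rw [← hfP h2', hvi2]
      have e1 := h4.1 ha'
      obtain ⟨e2, e3⟩ := h4'.2 ha2'
      refine ⟨c.1, ?_⟩
      unfold comb
      rw [← e2, e1]
      exact e3
    · intro h
      choose j hj using h
      rw [SimpleGraph.CliqueFree]
      push Not
      have hlt : ∀ (i : Fin k) (c : Fin m × Fin b × Bool), i.val + k * (e c).val < n := by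
        intro i c
        have h1 : (e c).val + 1 ≤ 2 * m * b := (e c).isLt
        have h2 : k * ((e c).val + 1) ≤ k * (2 * m * b) := Nat.mul_le_mul_left k h1
        have h3 : k * (2 * m * b) = 2 * k * m * b := by ring
        have h4 := i.isLt
        rw [h3] at h2
        have h5 : k * ((e c).val + 1) = k * (e c).val + k := by ring
        omega
      let c : Fin k → Fin m × Fin b × Bool := fun i =>
        (j i, z.1 (i, j i), y (i, j i) (z.1 (i, j i)))
      let v : Fin k → Fin n := fun i => ⟨i.val + k * (e (c i)).val, hlt i (c i)⟩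
      have hP : ∀ i, G1P e (v i) i (c i) := fun i => rfl
      have hcond : ∀ i i', G1cond y z i (c i) i' := by
        intro i i'
        refine ⟨fun _ => rfl, fun _ => ⟨rfl, ?_⟩⟩
        have := hj i
        unfold comb at this
        exact this
      refine ⟨Finset.univ.image v, ?_⟩
      rw [SimpleGraph.isNClique_iff]
      constructor
      · intro x hx x' hx' hne
        simp only [Finset.coe_image, Finset.coe_univ, Set.image_univ, Set.mem_range] at hx hx'
        obtain ⟨i, rfl⟩ := hx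
        obtain ⟨i', rfl⟩ := hx'
        exact ⟨i, c i, i', c i', hP i, hP i', fun h => hne (by rw [h]), hcond i i', hcond i' i⟩
      · rw [Finset.card_image_of_injective, Finset.card_univ, Fintype.card_fin]
        intro i i' hii
        have h1 := hP i
        rw [hii] at h1
        exact (G1P_inj h1 (hP i')).1
  · intro y z z'
    have key : ∀ z z' : Bob (Fin k × Fin m) b, ∀ v w : Fin n,
        (G1graph e y z : SimpleGraph (Fin n)).Adj v w → (side n k).Adj v w →
        (G1graph e y z' : SimpleGraph (Fin n)).Adj v w := by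
      rintro z z' v w ⟨i, c, i', c', h1, h2, h3, h4, h5⟩ ⟨-, hs⟩
      have hv := G1P_mod h1
      have hw := G1P_mod h2
      have e1 : (v.val + 1) % k = (i.val + 1) % k := by rw [← hv, Nat.mod_add_mod]
      have e2 : (w.val + 1) % k = (i'.val + 1) % k := by rw [← hw, Nat.mod_add_mod]
      rw [e1, e2, hv, hw] at hs
      obtain ⟨hn1, hn2, hn3, hn4⟩ := G1_ne hk i.val i.isLt
      obtain ⟨hm1, hm2, hm3, hm4⟩ := G1_ne hk i'.val i'.isLt
      refine ⟨i, c, i', c', h1, h2, h3, ⟨h4.1, fun h => ?_⟩, ⟨h5.1, fun h => ?_⟩⟩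
      · exfalso
        rcases hs with hs | hs
        · exact hn3 (hs.trans h.symm)
        · apply hm4
          rw [hs, h]
      · exfalso
        rcases hs with hs | hs
        · apply hn4
          rw [hs, h]
        · exact hm3 (hs.trans h.symm)
    ext v w
    simp only [SimpleGraph.inf_adj]
    exact ⟨fun h => ⟨key z z' v w h.1 h.2, h.2⟩, fun h => ⟨key z' z v w h.1 h.2, h.2⟩⟩
  · intro y y' z
    have key : ∀ y y' : Ali (Fin k × Fin m) b, ∀ v w : Fin n,
        (G1graph e y z : SimpleGraph (Fin n)).Adj v w → (side n k)ᶜ.Adj v w →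
        (G1graph e y' z : SimpleGraph (Fin n)).Adj v w := by
      rintro y y' v w ⟨i, c, i', c', h1, h2, h3, h4, h5⟩ hs
      rw [SimpleGraph.compl_adj] at hs
      obtain ⟨hne, hs⟩ := hs
      have hv := G1P_mod h1
      have hw := G1P_mod h2
      refine ⟨i, c, i', c', h1, h2, h3, ⟨fun h => ?_, h4.2⟩, ⟨fun h => ?_, h5.2⟩⟩
      · exfalso
        apply hs
        refine ⟨hne, Or.inl ?_⟩
        rw [← Nat.mod_add_mod, hv, hw, h]
      · exfalso
        apply hs
        refine ⟨hne, Or.inr ?_⟩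
        rw [← Nat.mod_add_mod, hv, hw, h]
    ext v w
    simp only [SimpleGraph.inf_adj]
    exact ⟨fun h => ⟨key y y' v w h.1 h.2, h.2⟩, fun h => ⟨key y' y v w h.1 h.2, h.2⟩⟩

end Pool.SR
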