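import Pool.Agent.Lib.SR.Defs

namespace Pool.SR

open Finset

/-- The two checks. -/
def okA {d m b : ℕ} (y : Ali (Fin d × Fin m) b) (t : (Fin d × Fin m) × Fin b × Bool) : Prop :=
  y t.1 t.2.1 = t.2.2

def okB {d m b : ℕ} (z : Bob (Fin d × Fin m) b) (t : (Fin d × Fin m) × Fin b × Bool) : Prop :=
  z.1 t.1 = t.2.1 ∧ xor t.2.2 (z.2 t.1) = true

/-- half of the adjacency relation -/
def rel {n d m b : ℕ} (a b' : Fin n) (emb : (Fin d × Fin m) × Fin b × Bool → Fin n)
    (y : Ali (Fin d × Fin m) b) (z : Bob (Fin d × Fin m) b) (v w : Fin n) : Prop :=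
  (v = a ∧ w = b') ∨ (∃ t, v = a ∧ w = emb t ∧ okA y t) ∨ (∃ t, v = b' ∧ w = emb t ∧ okB z t) ∨
    (∃ t t', v = emb t ∧ w = emb t' ∧ t.1.1 ≠ t'.1.1)

/-- the graph of the two inputs -/
def gr {n d m b : ℕ} (a b' : Fin n) (emb : (Fin d × Fin m) × Fin b × Bool → Fin n)
    (y : Ali (Fin d × Fin m) b) (z : Bob (Fin d × Fin m) b) : SimpleGraph (Fin n) :=
  SimpleGraph.fromRel (rel a b' emb y z)

section

variable {n d m b : ℕ} {a b' : Fin n} {emb : (Fin d × Fin m) × Fin b × Bool → Fin n}

theorem gr_inf_A (A : SimpleGraph (Fin n)) (hB : ∀ t, Aᶜ.Adj b' (emb t))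
    (y : Ali (Fin d × Fin m) b) (z z' : Bob (Fin d × Fin m) b) :
    gr a b' emb y z ⊓ A ≤ gr a b' emb y z' ⊓ A := by
  intro v w h
  obtain ⟨h1, h2⟩ := h
  refine ⟨?_, h2⟩
  rw [gr, SimpleGraph.fromRel_adj] at h1 ⊢
  have hno : ∀ t, ¬ A.Adj b' (emb t) := fun t => by
    have := hB t
    rw [SimpleGraph.compl_adj] at this
    exact this.2
  refine ⟨h1.1, ?_⟩
  rcases h1.2 with h3 | h3
  · left
    rcases h3 with h3 | h3 | h3 | h3
    · exact Or.inl h3
    · exact Or.inr (Or.inl h3)
    · obtain ⟨t, rfl, rfl, -⟩ := h3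
      exact absurd h2 (hno t)
    · exact Or.inr (Or.inr (Or.inr h3))
  · right
    rcases h3 with h3 | h3 | h3 | h3
    · exact Or.inl h3
    · exact Or.inr (Or.inl h3)
    · obtain ⟨t, rfl, rfl, -⟩ := h3
      exact absurd h2.symm (hno t)
    · exact Or.inr (Or.inr (Or.inr h3))

theorem gr_inf_Ac (A : SimpleGraph (Fin n)) (hA : ∀ t, A.Adj a (emb t))
    (y y' : Ali (Fin d × Fin m) b) (z : Bob (Fin d × Fin m) b) :
    gr a b' emb y z ⊓ Aᶜ ≤ gr a b' emb y' z ⊓ Aᶜ := by
  intro v w h
  obtain ⟨h1, h2⟩ := h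
  refine ⟨?_, h2⟩
  rw [gr, SimpleGraph.fromRel_adj] at h1 ⊢
  rw [SimpleGraph.compl_adj] at h2
  refine ⟨h1.1, ?_⟩
  rcases h1.2 with h3 | h3
  · left
    rcases h3 with h3 | h3 | h3 | h3
    · exact Or.inl h3
    · obtain ⟨t, rfl, rfl, -⟩ := h3
      exact absurd (hA t) h2.2
    · exact Or.inr (Or.inr (Or.inl h3))
    · exact Or.inr (Or.inr (Or.inr h3))
  · right
    rcases h3 with h3 | h3 | h3 | h3
    · exact Or.inl h3
    · obtain ⟨t, rfl, rfl, -⟩ := h3
      exact absurd (hA t).symm h2.2
    · exact Or.inr (Or.inr (Or.inl h3))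
    · exact Or.inr (Or.inr (Or.inr h3))

/-- the colour of a vertex -/
noncomputable def col (a b' : Fin n) (emb : (Fin d × Fin m) × Fin b × Bool → Fin n) (v : Fin n) :
    Option (Option (Fin d)) := by
  classical
  exact if v = a then none else if v = b' then some none else
    if h : ∃ t, v = emb t then some (some (Classical.choose h).1.1) else none

theorem col_a : col a b' emb a = none := by simp [col]

theorem col_b (hab : a ≠ b') : col a b' emb b' = some none := by simp [col, hab.symm]

theorem col_emb (hinj : Function.Injective emb) (hae : ∀ t, a ≠ emb t) (hbe : ∀ t, b' ≠ emb t)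
    (t : (Fin d × Fin m) × Fin b × Bool) : col a b' emb (emb t) = some (some t.1.1) := by
  classical
  have h1 : emb t ≠ a := (hae t).symm
  have h2 : emb t ≠ b' := (hbe t).symm
  have h3 : ∃ t', emb t = emb t' := ⟨t, rfl⟩
  have h4 : Classical.choose h3 = t := (hinj (Classical.choose_spec h3)).symm
  rw [col, if_neg h1, if_neg h2, dif_pos h3, h4]

/-- adjacent vertices: explicit forms -/
theorem gr_adj_ab (hab : a ≠ b') (y : Ali (Fin d × Fin m) b) (z : Bob (Fin d × Fin m) b) :
    (gr a b' emb y z).Adj a b' := by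
  rw [gr, SimpleGraph.fromRel_adj]
  exact ⟨hab, Or.inl (Or.inl ⟨rfl, rfl⟩)⟩

theorem gr_adj_a (hinj : Function.Injective emb) (hab : a ≠ b')
    (hae : ∀ t, a ≠ emb t) (hbe : ∀ t, b' ≠ emb t)
    (y : Ali (Fin d × Fin m) b) (z : Bob (Fin d × Fin m) b)
    (t : (Fin d × Fin m) × Fin b × Bool) : (gr a b' emb y z).Adj a (emb t) ↔ okA y t := by
  rw [gr, SimpleGraph.fromRel_adj]
  constructor
  · rintro ⟨-, h | h⟩
    · rcases h with h | h | h | h
      · exact absurd h.2.symm (hbe t)
      · obtain ⟨t', -, h2, h3⟩ := h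
        rwa [hinj h2]
      · obtain ⟨t', h1, -, -⟩ := h
        exact absurd h1 hab
      · obtain ⟨t', t'', h1, -, -⟩ := h
        exact absurd h1 (hae t')
    · rcases h with h | h | h | h
      · exact absurd h.1.symm (hae t)
      · obtain ⟨t', h1, -, -⟩ := h
        exact absurd h1.symm (hae t)
      · obtain ⟨t', h1, -, -⟩ := h
        exact absurd h1.symm (hbe t)
      · obtain ⟨t', t'', -, h2, -⟩ := h
        exact absurd h2 (hae t'')
  · intro h
    exact ⟨hae t, Or.inl (Or.inr (Or.inl ⟨t, rfl, rfl, h⟩))⟩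

theorem gr_adj_b (hinj : Function.Injective emb) (hab : a ≠ b')
    (hae : ∀ t, a ≠ emb t) (hbe : ∀ t, b' ≠ emb t)
    (y : Ali (Fin d × Fin m) b) (z : Bob (Fin d × Fin m) b)
    (t : (Fin d × Fin m) × Fin b × Bool) : (gr a b' emb y z).Adj b' (emb t) ↔ okB z t := by
  rw [gr, SimpleGraph.fromRel_adj]
  constructor
  · rintro ⟨-, h | h⟩
    · rcases h with h | h | h | h
      · exact absurd h.1.symm hab
      · obtain ⟨t', h1, -, -⟩ := h
        exact absurd h1.symm hab
      · obtain ⟨t', -, h2, h3⟩ := h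
        rwa [hinj h2]
      · obtain ⟨t', t'', h1, -, -⟩ := h
        exact absurd h1 (hbe t')
    · rcases h with h | h | h | h
      · exact absurd h.1.symm (hae t)
      · obtain ⟨t', h1, -, -⟩ := h
        exact absurd h1.symm (hae t)
      · obtain ⟨t', h1, -, -⟩ := h
        exact absurd h1.symm (hbe t)
      · obtain ⟨t', t'', -, h2, -⟩ := h
        exact absurd h2 (hbe t'')
  · intro h
    exact ⟨hbe t, Or.inl (Or.inr (Or.inr (Or.inl ⟨t, rfl, rfl, h⟩)))⟩

theorem gr_adj_emb (hinj : Function.Injective emb)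
    (y : Ali (Fin d × Fin m) b) (z : Bob (Fin d × Fin m) b)
    (t t' : (Fin d × Fin m) × Fin b × Bool) (h : t.1.1 ≠ t'.1.1) :
    (gr a b' emb y z).Adj (emb t) (emb t') := by
  rw [gr, SimpleGraph.fromRel_adj]
  refine ⟨fun h' => h (by rw [hinj h']), Or.inl (Or.inr (Or.inr (Or.inr ⟨t, t', rfl, rfl, h⟩)))⟩

/-- adjacent vertices have different colours -/
theorem col_ne (hinj : Function.Injective emb) (hab : a ≠ b')
    (hae : ∀ t, a ≠ emb t) (hbe : ∀ t, b' ≠ emb t)
    (y : Ali (Fin d × Fin m) b) (z : Bob (Fin d × Fin m) b) {v w : Fin n}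
    (h : (gr a b' emb y z).Adj v w) : col a b' emb v ≠ col a b' emb w := by
  have key : ∀ v w, rel a b' emb y z v w → col a b' emb v ≠ col a b' emb w := by
    intro v w h
    rcases h with ⟨rfl, rfl⟩ | ⟨t, rfl, rfl, -⟩ | ⟨t, rfl, rfl, -⟩ | ⟨t, t', rfl, rfl, h⟩
    · rw [col_a, col_b hab]
      simp
    · rw [col_a, col_emb hinj hae hbe]
      simp
    · rw [col_b hab, col_emb hinj hae hbe]
      simp
    · rw [col_emb hinj hae hbe, col_emb hinj hae hbe]
      simpa using h
  rw [gr, SimpleGraph.fromRel_adj] at h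
  rcases h.2 with h | h
  · exact key v w h
  · exact (key w v h).symm

/-- a vertex with a neighbour is an anchor or in the range of the embedding -/
theorem of_adj (y : Ali (Fin d × Fin m) b) (z : Bob (Fin d × Fin m) b) {v w : Fin n}
    (h : (gr a b' emb y z).Adj v w) : v = a ∨ v = b' ∨ ∃ t, v = emb t := by
  rw [gr, SimpleGraph.fromRel_adj] at h
  rcases h.2 with h | h
  · rcases h with ⟨h1, -⟩ | ⟨t, h1, -, -⟩ | ⟨t, h1, -, -⟩ | ⟨t, t', h1, -, -⟩
    · exact Or.inl h1
    · exact Or.inl h1
    · exact Or.inr (Or.inl h1)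
    · exact Or.inr (Or.inr ⟨t, h1⟩)
  · rcases h with ⟨-, h1⟩ | ⟨t, -, h1, -⟩ | ⟨t, -, h1, -⟩ | ⟨t, t', -, h1, -⟩
    · exact Or.inr (Or.inl h1)
    · exact Or.inr (Or.inr ⟨t, h1⟩)
    · exact Or.inr (Or.inr ⟨t, h1⟩)
    · exact Or.inr (Or.inr ⟨t', h1⟩)

theorem gr_clique (hinj : Function.Injective emb) (hab : a ≠ b')
    (hae : ∀ t, a ≠ emb t) (hbe : ∀ t, b' ≠ emb t)
    (y : Ali (Fin d × Fin m) b) (z : Bob (Fin d × Fin m) b) :
    ¬ (gr a b' emb y z).CliqueFree (d + 2) ↔ ∀ i, ∃ j, comb y z (i, j) = true := by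
  classical
  constructor
  · intro h
    rw [SimpleGraph.CliqueFree] at h
    push Not at h
    obtain ⟨S, hS⟩ := h
    have hcl := hS.isClique
    have hcard := hS.card_eq
    -- the colour map is injective on `S`
    have hinjS : Set.InjOn (col a b' emb) (S : Set (Fin n)) := by
      intro v hv w hw hvw
      by_contra hne
      exact col_ne hinj hab hae hbe y z (hcl hv hw hne) hvw
    have hsurj : S.image (col a b' emb) = univ := by
      apply Finset.eq_univ_of_card
      rw [Finset.card_image_of_injOn hinjS, hcard]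
      simp
    have hmem : ∀ v ∈ S, v = a ∨ v = b' ∨ ∃ t, v = emb t := by
      intro v hv
      have : ∃ w ∈ S, w ≠ v := by
        have h2 : 1 < S.card := by omega
        exact Finset.exists_mem_ne h2 v
      obtain ⟨w, hw, hwv⟩ := this
      exact of_adj y z (hcl hv hw hwv.symm)
    have ha : a ∈ S := by
      have : (none : Option (Option (Fin d))) ∈ S.image (col a b' emb) := by
        rw [hsurj]
        exact mem_univ _
      obtain ⟨v, hv, hvc⟩ := Finset.mem_image.1 this
      rcases hmem v hv with h1 | h1 | ⟨t, h1⟩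
      · rwa [h1] at hv
      · rw [h1, col_b hab] at hvc
        simp at hvc
      · rw [h1, col_emb hinj hae hbe] at hvc
        simp at hvc
    have hb : b' ∈ S := by
      have : (some none : Option (Option (Fin d))) ∈ S.image (col a b' emb) := by
        rw [hsurj]
        exact mem_univ _
      obtain ⟨v, hv, hvc⟩ := Finset.mem_image.1 this
      rcases hmem v hv with h1 | h1 | ⟨t, h1⟩
      · rw [h1, col_a] at hvc
        simp at hvc
      · rwa [h1] at hv
      · rw [h1, col_emb hinj hae hbe] at hvc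
        simp at hvc
    intro i
    have : (some (some i) : Option (Option (Fin d))) ∈ S.image (col a b' emb) := by
      rw [hsurj]
      exact mem_univ _
    obtain ⟨v, hv, hvc⟩ := Finset.mem_image.1 this
    rcases hmem v hv with h1 | h1 | ⟨t, h1⟩
    · rw [h1, col_a] at hvc
      simp at hvc
    · rw [h1, col_b hab] at hvc
      simp at hvc
    · rw [h1, col_emb hinj hae hbe] at hvc
      simp only [Option.some.injEq] at hvc
      subst h1
      have hA : okA y t := (gr_adj_a hinj hab hae hbe y z t).1 (hcl ha hv (hae t))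
      have hB : okB z t := (gr_adj_b hinj hab hae hbe y z t).1 (hcl hb hv (hbe t))
      refine ⟨t.1.2, ?_⟩
      have e1 : (i, t.1.2) = t.1 := by
        rw [← hvc]
      rw [e1, comb, hB.1]
      rw [okA] at hA
      rw [hA]
      exact hB.2
  · intro h
    choose j hj using h
    let t : Fin d → (Fin d × Fin m) × Fin b × Bool := fun i =>
      ((i, j i), z.1 (i, j i), y (i, j i) (z.1 (i, j i)))
    have hA : ∀ i, okA y (t i) := fun i => rfl
    have hB : ∀ i, okB z (t i) := fun i => ⟨rfl, hj i⟩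
    let g : Option (Option (Fin d)) → Fin n := fun o => match o with
      | none => a
      | some none => b'
      | some (some i) => emb (t i)
    have hadj : ∀ o o', o ≠ o' → (gr a b' emb y z).Adj (g o) (g o') := by
      intro o o' hne
      rcases o with _ | _ | i <;> rcases o' with _ | _ | i'
      · exact absurd rfl hne
      · exact gr_adj_ab hab y z
      · exact (gr_adj_a hinj hab hae hbe y z _).2 (hA i')
      · exact (gr_adj_ab hab y z).symm
      · exact absurd rfl hne
      · exact (gr_adj_b hinj hab hae hbe y z _).2 (hB i')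
      · exact ((gr_adj_a hinj hab hae hbe y z _).2 (hA i)).symm
      · exact ((gr_adj_b hinj hab hae hbe y z _).2 (hB i)).symm
      · apply gr_adj_emb hinj
        intro h
        apply hne
        have : i = i' := h
        rw [this]
    have hginj : Function.Injective g := by
      intro o o' h
      by_contra hne
      have := hadj o o' hne
      rw [h] at this
      exact (gr a b' emb y z).loopless.irrefl _ this
    intro hfree
    apply hfree (univ.map ⟨g, hginj⟩)
    refine ⟨?_, ?_⟩
    · intro v hv w hw hne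
      simp only [coe_map, Function.Embedding.coeFn_mk, coe_univ, Set.image_univ,
        Set.mem_range] at hv hw
      obtain ⟨o, rfl⟩ := hv
      obtain ⟨o', rfl⟩ := hw
      apply hadj
      intro h
      exact hne (by rw [h])
    · simp

end

end Pool.SR
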