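import Pool.Agent.Lib.SR.Defs

namespace Pool.SR

open Finset

/-- the sign of a bit -/
theorem P2_sgn_xor (p q : Bool) :
    (if xor p q then (-1 : ℝ) else 1) = (if p then (-1 : ℝ) else 1) * (if q then (-1 : ℝ) else 1) := by
  cases p <;> cases q <;> norm_num

theorem P2_chi_comb {ι : Type} [Fintype ι] [DecidableEq ι] {b : ℕ} (S : Finset ι) (y : Ali ι b)
    (z : Bob ι b) : chi S (comb y z)
      = (∏ e ∈ S, (if y e (z.1 e) then (-1 : ℝ) else 1)) * chi S z.2 := by
  rw [chi, chi, ← Finset.prod_mul_distrib]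
  apply Finset.prod_congr rfl
  intro e _
  exact P2_sgn_xor _ _

/-- the sum over all `y` of a product of two characters -/
theorem P2_sum_y {ι : Type} [Fintype ι] [DecidableEq ι] {b : ℕ} (S : Finset ι) (s s' : ι → Fin b) :
    ∑ y : Ali ι b, (∏ e ∈ S, (if y e (s e) then (-1 : ℝ) else 1))
        * (∏ e ∈ S, (if y e (s' e) then (-1 : ℝ) else 1))
      = if ∀ e ∈ S, s e = s' e then (2 : ℝ) ^ (b * Fintype.card ι) else 0 := by
  split_ifs with h
  · have : ∀ y : Ali ι b, (∏ e ∈ S, (if y e (s e) then (-1 : ℝ) else 1))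
        * (∏ e ∈ S, (if y e (s' e) then (-1 : ℝ) else 1)) = 1 := by
      intro y
      rw [← Finset.prod_mul_distrib]
      apply Finset.prod_eq_one
      intro e he
      rw [h e he]
      cases y e (s' e) <;> norm_num
    simp_rw [this]
    rw [Finset.sum_const, Finset.card_univ]
    simp [Fintype.card_pi, pow_mul]
  · push_neg at h
    obtain ⟨e0, he0, hne⟩ := h
    -- flip the bit `y e0 (s e0)`
    let fl : Ali ι b → Ali ι b := fun y => Function.update y e0
      (Function.update (y e0) (s e0) (!(y e0 (s e0))))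
    have hinv : Function.Involutive fl := by
      intro y
      funext e i
      by_cases he : e = e0
      · subst he
        by_cases hi : i = s e
        · subst hi
          simp [fl]
        · simp [fl, hi]
      · simp [fl, he]
    have hsum : ∑ y : Ali ι b, (∏ e ∈ S, (if y e (s e) then (-1 : ℝ) else 1))
        * (∏ e ∈ S, (if y e (s' e) then (-1 : ℝ) else 1))
        = ∑ y : Ali ι b, (∏ e ∈ S, (if fl y e (s e) then (-1 : ℝ) else 1))
        * (∏ e ∈ S, (if fl y e (s' e) then (-1 : ℝ) else 1)) :=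
      (Equiv.sum_comp (Function.Involutive.toPerm fl hinv) _).symm
    have h1 : ∀ y : Ali ι b, (∏ e ∈ S, (if fl y e (s e) then (-1 : ℝ) else 1))
        = - ∏ e ∈ S, (if y e (s e) then (-1 : ℝ) else 1) := by
      intro y
      rw [← Finset.mul_prod_erase S _ he0, ← Finset.mul_prod_erase S _ he0]
      have : ∏ e ∈ S.erase e0, (if fl y e (s e) then (-1 : ℝ) else 1)
          = ∏ e ∈ S.erase e0, (if y e (s e) then (-1 : ℝ) else 1) := by
        apply Finset.prod_congr rfl
        intro e he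
        have hne' : e ≠ e0 := Finset.ne_of_mem_erase he
        simp [fl, hne']
      rw [this]
      have h2 : fl y e0 (s e0) = !(y e0 (s e0)) := by simp [fl]
      rw [h2]
      cases y e0 (s e0) <;> simp
    have h2 : ∀ y : Ali ι b, (∏ e ∈ S, (if fl y e (s' e) then (-1 : ℝ) else 1))
        = ∏ e ∈ S, (if y e (s' e) then (-1 : ℝ) else 1) := by
      intro y
      apply Finset.prod_congr rfl
      intro e _
      by_cases he : e = e0
      · subst he
        have : fl y e (s' e) = y e (s' e) := by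
          simp [fl, Function.update_of_ne (Ne.symm hne)]
        rw [this]
      · have : fl y e (s' e) = y e (s' e) := by
          simp [fl, he]
        rw [this]
    simp_rw [h1, h2] at hsum
    have h3 : ∑ y : Ali ι b, -(∏ e ∈ S, (if y e (s e) then (-1 : ℝ) else 1))
        * (∏ e ∈ S, (if y e (s' e) then (-1 : ℝ) else 1))
        = - ∑ y : Ali ι b, (∏ e ∈ S, (if y e (s e) then (-1 : ℝ) else 1))
        * (∏ e ∈ S, (if y e (s' e) then (-1 : ℝ) else 1)) := by
      rw [← Finset.sum_neg_distrib]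
      apply Finset.sum_congr rfl
      intro y _
      ring
    rw [h3] at hsum
    linarith

theorem P2_count {ι : Type} [Fintype ι] [DecidableEq ι] {b : ℕ} (S : Finset ι) (s : ι → Fin b) :
    ((univ.filter (fun z' : Bob ι b => ∀ e ∈ S, s e = z'.1 e)).card : ℝ)
      = (2 : ℝ) ^ (Fintype.card ι) * (b : ℝ) ^ (Fintype.card ι - S.card) := by
  have h1 : univ.filter (fun z' : Bob ι b => ∀ e ∈ S, s e = z'.1 e)
      = (Fintype.piFinset (fun e => if e ∈ S then {s e} else (univ : Finset (Fin b))))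
        ×ˢ (univ : Finset (ι → Bool)) := by
    ext z
    simp only [mem_filter, mem_univ, true_and, mem_product, Fintype.mem_piFinset, and_true]
    constructor
    · intro h e
      by_cases he : e ∈ S
      · simp [he, h e he]
      · simp [he]
    · intro h e he
      have := h e
      simp only [he, if_true, mem_singleton] at this
      exact this.symm
  rw [h1, Finset.card_product, Fintype.card_piFinset]
  have h2 : ∀ e : ι, (if e ∈ S then ({s e} : Finset (Fin b)) else univ).card
      = if e ∈ S then 1 else b := by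
    intro e
    split_ifs <;> simp
  simp_rw [h2]
  rw [Finset.prod_ite]
  simp only [Finset.prod_const_one, one_mul, Finset.prod_const]
  have h3 : (univ.filter (fun e => e ∉ S)).card = Fintype.card ι - S.card := by
    rw [← Finset.card_compl]
    congr 1
    ext e
    simp
  rw [h3, Finset.card_univ, Fintype.card_pi]
  push_cast
  simp
  ring

/-- P2. Norm of one character in the pattern matrix: Cauchy-Schwarz over `y`, then
`sum_y chi chi' = 2^(b card) [z.1 = z'.1 on S] chi_S(z.2) chi_S(z'.2)`. -/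
theorem norm_chi {ι : Type} [Fintype ι] [DecidableEq ι] (b : ℕ) (S : Finset ι)
    (a : Ali ι b → ℝ) (c : Bob ι b → ℝ) :
    (∑ y, ∑ z, a y * chi S (comb y z) * c z) ^ 2
      ≤ (2 : ℝ) ^ (b * Fintype.card ι)
        * ((2 : ℝ) ^ (Fintype.card ι) * (b : ℝ) ^ (Fintype.card ι - S.card))
        * (∑ y, a y ^ 2) * (∑ z, c z ^ 2) := by
  have h1 : ∑ y, ∑ z, a y * chi S (comb y z) * c z
      = ∑ y, a y * ∑ z, chi S (comb y z) * c z := by
    apply Finset.sum_congr rfl
    intro y _
    rw [Finset.mul_sum]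
    apply Finset.sum_congr rfl
    intro z _
    ring
  have hcs : (∑ y, a y * ∑ z, chi S (comb y z) * c z) ^ 2
      ≤ (∑ y, a y ^ 2) * ∑ y : Ali ι b, (∑ z, chi S (comb y z) * c z) ^ 2 :=
    Finset.sum_mul_sq_le_sq_mul_sq _ _ _
  have hchi : ∀ x : ι → Bool, chi S x ^ 2 = 1 := by
    intro x
    rw [chi, ← Finset.prod_pow]
    apply Finset.prod_eq_one
    intro e _
    cases x e <;> norm_num
  have h2 : ∑ y : Ali ι b, (∑ z, chi S (comb y z) * c z) ^ 2
      = (2 : ℝ) ^ (b * Fintype.card ι) * ∑ z : Bob ι b, ∑ z' : Bob ι b,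
        (if ∀ e ∈ S, z.1 e = z'.1 e then (chi S z.2 * c z) * (chi S z'.2 * c z') else 0) := by
    have : ∀ y : Ali ι b, (∑ z, chi S (comb y z) * c z) ^ 2
        = ∑ z : Bob ι b, ∑ z' : Bob ι b, ((chi S z.2 * c z) * (chi S z'.2 * c z'))
          * ((∏ e ∈ S, (if y e (z.1 e) then (-1 : ℝ) else 1))
            * (∏ e ∈ S, (if y e (z'.1 e) then (-1 : ℝ) else 1))) := by
      intro y
      rw [sq, Finset.sum_mul_sum]
      apply Finset.sum_congr rfl
      intro z _
      apply Finset.sum_congr rfl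
      intro z' _
      rw [P2_chi_comb, P2_chi_comb]
      ring
    simp_rw [this]
    rw [Finset.sum_comm, Finset.mul_sum]
    apply Finset.sum_congr rfl
    intro z _
    rw [Finset.sum_comm, Finset.mul_sum]
    apply Finset.sum_congr rfl
    intro z' _
    rw [← Finset.mul_sum, P2_sum_y]
    split_ifs <;> ring
  have h3 : ∑ z : Bob ι b, ∑ z' : Bob ι b,
        (if ∀ e ∈ S, z.1 e = z'.1 e then (chi S z.2 * c z) * (chi S z'.2 * c z') else 0)
      ≤ ((2 : ℝ) ^ (Fintype.card ι) * (b : ℝ) ^ (Fintype.card ι - S.card)) * ∑ z, c z ^ 2 := by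
    have hb : ∀ z z' : Bob ι b,
        (if ∀ e ∈ S, z.1 e = z'.1 e then (chi S z.2 * c z) * (chi S z'.2 * c z') else 0)
        ≤ (if ∀ e ∈ S, z.1 e = z'.1 e then c z ^ 2 / 2 else 0)
          + (if ∀ e ∈ S, z'.1 e = z.1 e then c z' ^ 2 / 2 else 0) := by
      intro z z'
      have hsymm : (∀ e ∈ S, z'.1 e = z.1 e) ↔ (∀ e ∈ S, z.1 e = z'.1 e) :=
        ⟨fun h e he => (h e he).symm, fun h e he => (h e he).symm⟩
      by_cases h : ∀ e ∈ S, z.1 e = z'.1 e
      · rw [if_pos h, if_pos h, if_pos (hsymm.2 h)]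
        have e1 := hchi z.2
        have e2 := hchi z'.2
        have : (chi S z.2 * c z - chi S z'.2 * c z') ^ 2
            = c z ^ 2 + c z' ^ 2 - 2 * ((chi S z.2 * c z) * (chi S z'.2 * c z')) := by
          have : (chi S z.2 * c z - chi S z'.2 * c z') ^ 2
            = chi S z.2 ^ 2 * c z ^ 2 + chi S z'.2 ^ 2 * c z' ^ 2
              - 2 * ((chi S z.2 * c z) * (chi S z'.2 * c z')) := by ring
          rw [this, e1, e2]
          ring
        nlinarith [sq_nonneg (chi S z.2 * c z - chi S z'.2 * c z')]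
      · rw [if_neg h, if_neg h, if_neg (fun h' => h (hsymm.1 h'))]
        simp
    have hcount : ∀ z : Bob ι b, ∑ z' : Bob ι b, (if ∀ e ∈ S, z.1 e = z'.1 e then c z ^ 2 / 2 else 0)
        = ((2 : ℝ) ^ (Fintype.card ι) * (b : ℝ) ^ (Fintype.card ι - S.card)) * (c z ^ 2 / 2) := by
      intro z
      rw [← Finset.sum_filter, Finset.sum_const, nsmul_eq_mul, P2_count]
    calc ∑ z : Bob ι b, ∑ z' : Bob ι b,
        (if ∀ e ∈ S, z.1 e = z'.1 e then (chi S z.2 * c z) * (chi S z'.2 * c z') else 0)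
        ≤ ∑ z : Bob ι b, ∑ z' : Bob ι b, ((if ∀ e ∈ S, z.1 e = z'.1 e then c z ^ 2 / 2 else 0)
          + (if ∀ e ∈ S, z'.1 e = z.1 e then c z' ^ 2 / 2 else 0)) :=
          Finset.sum_le_sum (fun z _ => Finset.sum_le_sum (fun z' _ => hb z z'))
      _ = ∑ z : Bob ι b, ∑ z' : Bob ι b, (if ∀ e ∈ S, z.1 e = z'.1 e then c z ^ 2 / 2 else 0)
          + ∑ z : Bob ι b, ∑ z' : Bob ι b,
            (if ∀ e ∈ S, z'.1 e = z.1 e then c z' ^ 2 / 2 else 0) := by
          rw [← Finset.sum_add_distrib]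
          apply Finset.sum_congr rfl
          intro z _
          rw [Finset.sum_add_distrib]
      _ = ∑ z : Bob ι b, ∑ z' : Bob ι b, (if ∀ e ∈ S, z.1 e = z'.1 e then c z ^ 2 / 2 else 0)
          + ∑ z : Bob ι b, ∑ z' : Bob ι b,
            (if ∀ e ∈ S, z.1 e = z'.1 e then c z ^ 2 / 2 else 0) := by
          congr 1
          rw [Finset.sum_comm]
      _ = ((2 : ℝ) ^ (Fintype.card ι) * (b : ℝ) ^ (Fintype.card ι - S.card)) * ∑ z, c z ^ 2 := by
          simp_rw [hcount]
          rw [← Finset.mul_sum, ← Finset.sum_div]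
          ring
  rw [h1]
  have ha : 0 ≤ ∑ y, a y ^ 2 := Finset.sum_nonneg (fun y _ => sq_nonneg _)
  calc (∑ y, a y * ∑ z, chi S (comb y z) * c z) ^ 2
      ≤ (∑ y, a y ^ 2) * ∑ y : Ali ι b, (∑ z, chi S (comb y z) * c z) ^ 2 := hcs
    _ ≤ (∑ y, a y ^ 2) * ((2 : ℝ) ^ (b * Fintype.card ι)
        * (((2 : ℝ) ^ (Fintype.card ι) * (b : ℝ) ^ (Fintype.card ι - S.card)) * ∑ z, c z ^ 2)) := by
        rw [h2]
        apply mul_le_mul_of_nonneg_left _ ha
        apply mul_le_mul_of_nonneg_left h3 (by positivity)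
    _ = _ := by ring

end Pool.SR
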