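import Pool.Agent.Lib.SR.P1
import Pool.Agent.Lib.SR.P2

namespace Pool.SR

open Finset

theorem P3_cards {ι : Type} [Fintype ι] [DecidableEq ι] (b : ℕ) :
    (Fintype.card (Ali ι b) : ℝ) * (Fintype.card (Bob ι b) : ℝ)
      = (2 : ℝ) ^ (b * Fintype.card ι) * ((2 : ℝ) ^ (Fintype.card ι) * (b : ℝ) ^ (Fintype.card ι)) := by
  have h1 : (Fintype.card (Ali ι b) : ℝ) = (2 : ℝ) ^ (b * Fintype.card ι) := by
    simp [Ali, Fintype.card_pi, pow_mul]
  have h2 : (Fintype.card (Bob ι b) : ℝ)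
      = (2 : ℝ) ^ (Fintype.card ι) * (b : ℝ) ^ (Fintype.card ι) := by
    simp [Bob, Fintype.card_prod, Fintype.card_pi]
    ring
  rw [h1, h2]

/-- P3. Norm of the pattern matrix of a function orthogonal to low degree. -/
theorem norm_pattern {ι : Type} [Fintype ι] [DecidableEq ι] (ψ : (ι → Bool) → ℝ) (d : ℕ)
    (h : ∀ S : Finset ι, S.card < d → ∑ x, ψ x * ∏ e ∈ S, bit (x e) = 0) :
    ∃ K : ℝ, 0 < K ∧ ∀ b : ℕ, 1 ≤ b → ∀ (a : Ali ι b → ℝ) (c : Bob ι b → ℝ),
      ∑ y, ∑ z, a y * ψ (comb y z) * c z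
        ≤ K * √((Fintype.card (Ali ι b) : ℝ) * (Fintype.card (Bob ι b) : ℝ) / (b : ℝ) ^ d)
          * √(∑ y, a y ^ 2) * √(∑ z, c z ^ 2) := by
  set w : Finset ι → ℝ := fun S => (∑ y, ψ y * chi S y) / 2 ^ (Fintype.card ι) with hw
  have hw0 : ∀ S : Finset ι, S.card < d → w S = 0 := by
    intro S hS
    rw [hw]
    simp only
    rw [chi_zero ψ d h S hS, zero_div]
  refine ⟨∑ S : Finset ι, |w S| + 1, by positivity, ?_⟩
  intro b hb a c
  set R := √((Fintype.card (Ali ι b) : ℝ) * (Fintype.card (Bob ι b) : ℝ) / (b : ℝ) ^ d)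
          * √(∑ y, a y ^ 2) * √(∑ z, c z ^ 2) with hR
  have hR0 : 0 ≤ R := by positivity
  have hb' : (1 : ℝ) ≤ (b : ℝ) := by exact_mod_cast hb
  have hI : ∀ S : Finset ι, d ≤ S.card → |∑ y, ∑ z, a y * chi S (comb y z) * c z| ≤ R := by
    intro S hS
    have hn := norm_chi b S a c
    have hA : 0 ≤ ∑ y, a y ^ 2 := Finset.sum_nonneg (fun y _ => sq_nonneg _)
    have hC : 0 ≤ ∑ z, c z ^ 2 := Finset.sum_nonneg (fun y _ => sq_nonneg _)
    have hR2 : R ^ 2 = ((Fintype.card (Ali ι b) : ℝ) * (Fintype.card (Bob ι b) : ℝ) / (b : ℝ) ^ d)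
        * (∑ y, a y ^ 2) * (∑ z, c z ^ 2) := by
      rw [hR, mul_pow, mul_pow, Real.sq_sqrt (by positivity), Real.sq_sqrt hA, Real.sq_sqrt hC]
    have hle : (2 : ℝ) ^ (b * Fintype.card ι)
        * ((2 : ℝ) ^ (Fintype.card ι) * (b : ℝ) ^ (Fintype.card ι - S.card))
        ≤ (Fintype.card (Ali ι b) : ℝ) * (Fintype.card (Bob ι b) : ℝ) / (b : ℝ) ^ d := by
      rw [P3_cards, le_div_iff₀ (by positivity)]
      have hS' : S.card ≤ Fintype.card ι := Finset.card_le_univ S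
      have : (b : ℝ) ^ (Fintype.card ι - S.card) * (b : ℝ) ^ d ≤ (b : ℝ) ^ (Fintype.card ι) := by
        rw [← pow_add]
        apply pow_le_pow_right₀ hb'
        omega
      calc (2 : ℝ) ^ (b * Fintype.card ι)
        * ((2 : ℝ) ^ (Fintype.card ι) * (b : ℝ) ^ (Fintype.card ι - S.card)) * (b : ℝ) ^ d
          = (2 : ℝ) ^ (b * Fintype.card ι) * ((2 : ℝ) ^ (Fintype.card ι)
            * ((b : ℝ) ^ (Fintype.card ι - S.card) * (b : ℝ) ^ d)) := by ring
        _ ≤ _ := by gcongr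
    have h2 : (∑ y, ∑ z, a y * chi S (comb y z) * c z) ^ 2 ≤ R ^ 2 := by
      rw [hR2]
      refine hn.trans ?_
      gcongr
    exact abs_le_of_sq_le_sq h2 hR0
  have hexp : ∑ y, ∑ z, a y * ψ (comb y z) * c z
      = ∑ S : Finset ι, w S * ∑ y, ∑ z, a y * chi S (comb y z) * c z := by
    have : ∀ (y : Ali ι b) (z : Bob ι b), a y * ψ (comb y z) * c z
        = ∑ S : Finset ι, w S * (a y * chi S (comb y z) * c z) := by
      intro y z
      rw [fourier ψ (comb y z), Finset.mul_sum, Finset.sum_mul]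
      apply Finset.sum_congr rfl
      intro S _
      rw [hw]
      ring
    simp_rw [this]
    have h1 : ∀ y : Ali ι b, ∑ z : Bob ι b, ∑ S : Finset ι, w S * (a y * chi S (comb y z) * c z)
        = ∑ S : Finset ι, w S * ∑ z : Bob ι b, (a y * chi S (comb y z) * c z) := by
      intro y
      rw [Finset.sum_comm]
      apply Finset.sum_congr rfl
      intro S _
      rw [Finset.mul_sum]
    simp_rw [h1]
    rw [Finset.sum_comm]
    apply Finset.sum_congr rfl
    intro S _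
    rw [Finset.mul_sum]
  rw [hexp]
  have hterm : ∀ S ∈ (univ : Finset (Finset ι)),
      w S * ∑ y, ∑ z, a y * chi S (comb y z) * c z ≤ |w S| * R := by
    intro S _
    by_cases hS : S.card < d
    · rw [hw0 S hS]
      simp
    · push Not at hS
      calc w S * ∑ y, ∑ z, a y * chi S (comb y z) * c z
          ≤ |w S * ∑ y, ∑ z, a y * chi S (comb y z) * c z| := le_abs_self _
        _ = |w S| * |∑ y, ∑ z, a y * chi S (comb y z) * c z| := abs_mul _ _
        _ ≤ |w S| * R := mul_le_mul_of_nonneg_left (hI S hS) (abs_nonneg _)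
  calc ∑ S : Finset ι, w S * ∑ y, ∑ z, a y * chi S (comb y z) * c z
      ≤ ∑ S : Finset ι, |w S| * R := Finset.sum_le_sum hterm
    _ = (∑ S : Finset ι, |w S|) * R := by rw [Finset.sum_mul]
    _ ≤ (∑ S : Finset ι, |w S| + 1) * R := by
        apply mul_le_mul_of_nonneg_right _ hR0
        linarith
    _ = _ := by rw [hR]; ring

end Pool.SR
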