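import Pool.Agent.Lib.SR.D2
import Pool.Agent.Lib.SR.P3
import Pool.Agent.Lib.SR.Fo5

namespace Pool.SR

open Finset

theorem M1_F_sq {d m : ℕ} (x : Fin d × Fin m → Bool) : F x * F x = 1 := by
  unfold F
  split_ifs <;> norm_num

/-- M1. Sign rank of the pattern matrix of the AND of ORs. -/
theorem signrank_pattern (d : ℕ) (hd : 1 ≤ d) :
    ∃ γ : ℝ, 0 < γ ∧ ∃ m : ℕ, 1 ≤ m ∧ ∀ b : ℕ, 1 ≤ b → ∀ (r : ℕ)
      (u : Ali (Fin d × Fin m) b → Fin r → ℝ) (v : Bob (Fin d × Fin m) b → Fin r → ℝ),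
      (∀ y z, 0 < F (comb y z) * ∑ t, u y t * v z t) → γ * √((b : ℝ) ^ d) ≤ r := by
  set m : ℕ := d * (2 * d + 1) ^ 2 with hm
  have hm1 : 1 ≤ m := by
    rw [hm]
    exact Nat.succ_le_of_lt (Nat.mul_pos hd (by positivity))
  obtain ⟨ψ, hψ, hort⟩ := dual (d := d) (m := m) hd le_rfl
  obtain ⟨K, hK, hKb⟩ := norm_pattern ψ d hort
  obtain ⟨x0, -, hx0⟩ := Finset.exists_min_image (univ : Finset (Fin d × Fin m → Bool))
    (fun x => |ψ x|) ⟨fun _ => false, mem_univ _⟩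
  have hγ : 0 < |ψ x0| := by
    rw [abs_pos]
    intro h
    have := hψ x0
    rw [h, mul_zero] at this
    exact lt_irrefl _ this
  refine ⟨|ψ x0| / (2 * K), by positivity, m, hm1, ?_⟩
  intro b hb r u v h
  haveI : Nonempty (Fin b) := ⟨⟨0, hb⟩⟩
  haveI : Nonempty (Ali (Fin d × Fin m) b) := ⟨fun _ _ => false⟩
  haveI : Nonempty (Bob (Fin d × Fin m) b) := ⟨(fun _ => Classical.arbitrary _, fun _ => false)⟩
  set XY : ℝ := (Fintype.card (Ali (Fin d × Fin m) b) : ℝ)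
    * (Fintype.card (Bob (Fin d × Fin m) b) : ℝ) with hXY
  have hXY0 : 0 < XY := by
    rw [hXY]
    have h1 : 0 < Fintype.card (Ali (Fin d × Fin m) b) := Fintype.card_pos
    have h2 : 0 < Fintype.card (Bob (Fin d × Fin m) b) := Fintype.card_pos
    positivity
  have hb0 : (0 : ℝ) < (b : ℝ) ^ d := by positivity
  have key := forster (fun y z => ψ (comb y z)) |ψ x0| (K * √(XY / (b : ℝ) ^ d)) hγ
    (fun a c => by
      have := hKb b hb a c
      simpa [hXY] using this)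
    (fun y z => hx0 _ (mem_univ _)) u v
    (fun y z => by
      have h1 := h y z
      have h2 := hψ (comb y z)
      have h3 := mul_pos h2 h1
      have h4 : F (comb y z) * ψ (comb y z) * (F (comb y z) * ∑ t, u y t * v z t)
          = (F (comb y z) * F (comb y z)) * (ψ (comb y z) * ∑ t, u y t * v z t) := by ring
      rw [h4, M1_F_sq, one_mul] at h3
      exact h3)
  rw [← hXY, Real.sqrt_div' _ hb0.le] at key
  have hs : 0 < √XY := Real.sqrt_pos.2 hXY0
  have hsb : 0 < √((b : ℝ) ^ d) := Real.sqrt_pos.2 hb0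
  have key2 : |ψ x0| * √((b : ℝ) ^ d) ≤ 2 * r * K := by
    have h1 : 2 * (r : ℝ) * (K * (√XY / √((b : ℝ) ^ d)))
        = (2 * r * K / √((b : ℝ) ^ d)) * √XY := by
      field_simp
    rw [h1] at key
    have h2 := le_of_mul_le_mul_right key hs
    rwa [le_div_iff₀ hsb] at h2
  rw [div_mul_eq_mul_div, div_le_iff₀ (by positivity)]
  linarith

end Pool.SR
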