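import Pool.Agent.Lib.SR.M1
import Pool.Agent.Lib.SR.G1

namespace Pool.SR

open Finset

/-- Main. Sign rank of k-clique. -/
theorem main (k : ℕ) (hk : 4 ≤ k) :
    ∃ c : ℝ, 0 < c ∧ ∀ n : ℕ, ∃ A : SimpleGraph (Fin n),
      ∀ (r : ℕ) (p q : Fin r → SimpleGraph (Fin n) → ℝ),
        (∀ G : SimpleGraph (Fin n),
          (¬ G.CliqueFree k → 0 < ∑ t, p t (G ⊓ A) * q t (G ⊓ Aᶜ)) ∧
          (G.CliqueFree k → ∑ t, p t (G ⊓ A) * q t (G ⊓ Aᶜ) < 0)) →
        c * (n : ℝ) ^ ((k : ℝ) / 2) ≤ r := by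
  obtain ⟨γ, hγ, m, hm, hmain⟩ := signrank_pattern k (by omega)
  set M : ℝ := 4 * k * m with hM
  have hk0 : (0 : ℝ) < k := by exact_mod_cast (by omega : 0 < k)
  have hm0 : (0 : ℝ) < m := by exact_mod_cast (by omega : 0 < m)
  have hM0 : 0 < M := by positivity
  have hMk : 0 < M ^ ((k : ℝ) / 2) := Real.rpow_pos_of_pos hM0 _
  refine ⟨min γ 1 / M ^ ((k : ℝ) / 2), by positivity, ?_⟩
  intro n
  refine ⟨side n k, ?_⟩
  intro r p q hpq
  have hr : 1 ≤ r := by
    rcases Nat.eq_zero_or_pos r with h0 | h0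
    · exfalso
      subst h0
      have h1 := hpq ⊥
      by_cases hc : (⊥ : SimpleGraph (Fin n)).CliqueFree k
      · have := h1.2 hc
        simp at this
      · have := h1.1 hc
        simp at this
    · exact h0
  have hr' : (1 : ℝ) ≤ r := by exact_mod_cast hr
  have hstep : min γ 1 / M ^ ((k : ℝ) / 2) * (n : ℝ) ^ ((k : ℝ) / 2)
      = min γ 1 * ((n : ℝ) / M) ^ ((k : ℝ) / 2) := by
    rw [Real.div_rpow (by positivity) hM0.le]
    ring
  rw [hstep]
  by_cases hn : 2 * k * m ≤ n
  · -- the block length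
    set b : ℕ := n / (2 * k * m) with hb
    have hkm : 0 < 2 * k * m := by
      have : 0 < k := by omega
      have : 0 < m := by omega
      positivity
    have hb1 : 1 ≤ b := (Nat.one_le_div_iff hkm).2 hn
    have hbn : 2 * k * m * b ≤ n := Nat.mul_div_le n _
    have hbn2 : (n : ℝ) / M ≤ b := by
      rw [div_le_iff₀ hM0, hM]
      have h1 : n < 2 * k * m * (b + 1) := by
        rw [hb]
        exact Nat.lt_mul_div_succ n hkm
      have h2 : 2 * k * m * (b + 1) ≤ b * (4 * k * m) := by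
        have h3 : b + 1 ≤ 2 * b := by omega
        calc 2 * k * m * (b + 1) ≤ 2 * k * m * (2 * b) := Nat.mul_le_mul_left _ h3
          _ = b * (4 * k * m) := by ring
      have h4 : n ≤ b * (4 * k * m) := by omega
      exact_mod_cast h4
    obtain ⟨G, hG1, hG2, hG3⟩ := graph (n := n) (k := k) (m := m) (b := b) hk hm hb1 hbn
    haveI : Nonempty (Fin b) := ⟨⟨0, hb1⟩⟩
    let y0 : Ali (Fin k × Fin m) b := fun _ _ => false
    let z0 : Bob (Fin k × Fin m) b := (fun _ => Classical.arbitrary _, fun _ => false)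
    have key := hmain b hb1 r (fun y t => p t (G y z0 ⊓ side n k))
      (fun z t => q t (G y0 z ⊓ (side n k)ᶜ)) (by
        intro y z
        have e1 : ∀ t, p t (G y z0 ⊓ side n k) * q t (G y0 z ⊓ (side n k)ᶜ)
            = p t (G y z ⊓ side n k) * q t (G y z ⊓ (side n k)ᶜ) := by
          intro t
          rw [hG2 y z0 z, hG3 y0 y z]
        simp_rw [e1]
        by_cases hc : (G y z).CliqueFree k
        · have h1 := (hpq (G y z)).2 hc
          have h2 : ¬ ∀ i, ∃ j, comb y z (i, j) = true := fun h => (hG1 y z).2 h hc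
          rw [F, if_neg h2]
          linarith
        · have h1 := (hpq (G y z)).1 hc
          have h2 := (hG1 y z).1 hc
          rw [F, if_pos h2]
          linarith)
    have h5 : ((n : ℝ) / M) ^ ((k : ℝ) / 2) ≤ √((b : ℝ) ^ k) := by
      have h6 : √((b : ℝ) ^ k) = (b : ℝ) ^ ((k : ℝ) / 2) := by
        rw [Real.sqrt_eq_rpow, ← Real.rpow_natCast, ← Real.rpow_mul (by positivity)]
        congr 1
        ring
      rw [h6]
      exact Real.rpow_le_rpow (by positivity) hbn2 (by positivity)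
    calc min γ 1 * ((n : ℝ) / M) ^ ((k : ℝ) / 2) ≤ γ * √((b : ℝ) ^ k) := by
          apply mul_le_mul (min_le_left _ _) h5 (by positivity) hγ.le
      _ ≤ r := key
  · push Not at hn
    have h7 : (n : ℝ) / M ≤ 1 := by
      rw [div_le_one hM0, hM]
      have : n ≤ 4 * k * m := by nlinarith
      exact_mod_cast this
    have h8 : ((n : ℝ) / M) ^ ((k : ℝ) / 2) ≤ 1 :=
      Real.rpow_le_one (by positivity) h7 (by positivity)
    calc min γ 1 * ((n : ℝ) / M) ^ ((k : ℝ) / 2) ≤ 1 * 1 := by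
          apply mul_le_mul (min_le_right _ _) h8 (by positivity) (by norm_num)
      _ ≤ r := by linarith

end Pool.SR
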