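import Pool.Agent.Lib.SR.M1
import Pool.Agent.Lib.SR.C1
import Pool.Agent.Lib.SR.G2

namespace Pool.SR

open Finset

/-- Main2. Sign rank of k-clique, for every balanced partition of the pairs. -/
theorem main2 (k : ℕ) (hk : 3 ≤ k) (δ : ℝ) (hδ : 0 < δ) :
    ∃ c : ℝ, 0 < c ∧ ∀ (n : ℕ) (A : SimpleGraph (Fin n)),
      δ * (n : ℝ) ^ 2 ≤ (A.edgeSet.ncard : ℝ) → δ * (n : ℝ) ^ 2 ≤ (Aᶜ.edgeSet.ncard : ℝ) →
      ∀ (r : ℕ) (p q : Fin r → SimpleGraph (Fin n) → ℝ),
        (∀ G : SimpleGraph (Fin n),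
          (¬ G.CliqueFree k → 0 < ∑ t, p t (G ⊓ A) * q t (G ⊓ Aᶜ)) ∧
          (G.CliqueFree k → ∑ t, p t (G ⊓ A) * q t (G ⊓ Aᶜ) < 0)) →
        c * (n : ℝ) ^ (((k : ℝ) - 2) / 2) ≤ r := by
  obtain ⟨d, rfl⟩ : ∃ d, k = d + 2 := ⟨k - 2, by omega⟩
  have hd : 1 ≤ d := by omega
  have hexp : ((((d + 2 : ℕ) : ℝ)) - 2) / 2 = (d : ℝ) / 2 := by
    push_cast
    ring
  rw [hexp]
  obtain ⟨γ, hγ, m, hm, hmain⟩ := signrank_pattern d hd
  set M : ℝ := 4 * d * m / δ ^ 2 with hM
  have hd0 : (0 : ℝ) < d := by exact_mod_cast (by omega : 0 < d)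
  have hm0 : (0 : ℝ) < m := by exact_mod_cast (by omega : 0 < m)
  have hM0 : 0 < M := by positivity
  have hMk : 0 < M ^ ((d : ℝ) / 2) := Real.rpow_pos_of_pos hM0 _
  refine ⟨min γ 1 / M ^ ((d : ℝ) / 2), by positivity, ?_⟩
  intro n A hA1 hA2 r p q hpq
  have hr : 1 ≤ r := by
    rcases Nat.eq_zero_or_pos r with h0 | h0
    · exfalso
      subst h0
      have h1 := hpq ⊥
      by_cases hc : (⊥ : SimpleGraph (Fin n)).CliqueFree (d + 2)
      · have := h1.2 hc
        simp at this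
      · have := h1.1 hc
        simp at this
    · exact h0
  have hr' : (1 : ℝ) ≤ r := by exact_mod_cast hr
  have hstep : min γ 1 / M ^ ((d : ℝ) / 2) * (n : ℝ) ^ ((d : ℝ) / 2)
      = min γ 1 * ((n : ℝ) / M) ^ ((d : ℝ) / 2) := by
    rw [Real.div_rpow (by positivity) hM0.le]
    ring
  rw [hstep]
  have hsmall : (n : ℝ) / M ≤ 1 → min γ 1 * ((n : ℝ) / M) ^ ((d : ℝ) / 2) ≤ r := by
    intro h7
    have h8 : ((n : ℝ) / M) ^ ((d : ℝ) / 2) ≤ 1 :=
      Real.rpow_le_one (by positivity) h7 (by positivity)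
    calc min γ 1 * ((n : ℝ) / M) ^ ((d : ℝ) / 2) ≤ 1 * 1 := by
          apply mul_le_mul (min_le_right _ _) h8 (by positivity) (by norm_num)
      _ ≤ r := by linarith
  rcases Nat.eq_zero_or_pos n with hn0 | hn0
  · apply hsmall
    subst hn0
    simp
  obtain ⟨a, b', hV⟩ := anchors A δ hδ hn0 hA1 hA2
  set V : Set (Fin n) := {v : Fin n | A.Adj a v ∧ Aᶜ.Adj b' v} with hVdef
  have hdm : 0 < 2 * d * m := by
    have : 0 < m := by omega
    positivity
  by_cases hn : 2 * d * m ≤ V.ncard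
  · set b : ℕ := V.ncard / (2 * d * m) with hb
    have hb1 : 1 ≤ b := (Nat.one_le_div_iff hdm).2 hn
    have hbn : 2 * d * m * b ≤ V.ncard := Nat.mul_div_le _ _
    have hbn2 : (n : ℝ) / M ≤ b := by
      have h1 : V.ncard < 2 * d * m * (b + 1) := by
        rw [hb]
        exact Nat.lt_mul_div_succ _ hdm
      have h2 : 2 * d * m * (b + 1) ≤ b * (4 * d * m) := by
        have h3 : b + 1 ≤ 2 * b := by omega
        calc 2 * d * m * (b + 1) ≤ 2 * d * m * (2 * b) := Nat.mul_le_mul_left _ h3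
          _ = b * (4 * d * m) := by ring
      have h4 : V.ncard ≤ b * (4 * d * m) := by omega
      have h5 : (V.ncard : ℝ) ≤ b * (4 * d * m) := by exact_mod_cast h4
      rw [div_le_iff₀ hM0, hM, mul_div_assoc', le_div_iff₀ (by positivity)]
      linarith
    -- the embedding into `V`
    have hcard : Fintype.card ((Fin d × Fin m) × Fin b × Bool) ≤ Nat.card V := by
      rw [Nat.card_coe_set_eq]
      simp only [Fintype.card_prod, Fintype.card_fin, Fintype.card_bool]
      calc d * m * (b * 2) = 2 * d * m * b := by ring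
        _ ≤ V.ncard := hbn
    haveI : Fintype V := Fintype.ofFinite V
    rw [Nat.card_eq_fintype_card] at hcard
    obtain ⟨e⟩ := Function.Embedding.nonempty_of_card_le hcard
    let emb : (Fin d × Fin m) × Fin b × Bool → Fin n := fun t => (e t : Fin n)
    have hinj : Function.Injective emb := fun s t h => e.injective (Subtype.ext h)
    have hAe : ∀ t, A.Adj a (emb t) := fun t => (e t).2.1
    have hBe : ∀ t, Aᶜ.Adj b' (emb t) := fun t => (e t).2.2
    have hae : ∀ t, a ≠ emb t := fun t => (hAe t).ne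
    have hbe : ∀ t, b' ≠ emb t := fun t => (hBe t).ne
    haveI : Nonempty (Fin b) := ⟨⟨0, hb1⟩⟩
    have hab : a ≠ b' := by
      intro h
      let t0 : (Fin d × Fin m) × Fin b × Bool :=
        ((⟨0, by omega⟩, ⟨0, by omega⟩), ⟨0, hb1⟩, false)
      have h1 := hAe t0
      have h2 := hBe t0
      rw [SimpleGraph.compl_adj, ← h] at h2
      exact h2.2 h1
    let y0 : Ali (Fin d × Fin m) b := fun _ _ => false
    let z0 : Bob (Fin d × Fin m) b := (fun _ => Classical.arbitrary _, fun _ => false)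
    have key := hmain b hb1 r (fun y t => p t (gr a b' emb y z0 ⊓ A))
      (fun z t => q t (gr a b' emb y0 z ⊓ Aᶜ)) (by
        intro y z
        have f1 : gr a b' emb y z0 ⊓ A = gr a b' emb y z ⊓ A :=
          le_antisymm (gr_inf_A A hBe y z0 z) (gr_inf_A A hBe y z z0)
        have f2 : gr a b' emb y0 z ⊓ Aᶜ = gr a b' emb y z ⊓ Aᶜ :=
          le_antisymm (gr_inf_Ac A hAe y0 y z) (gr_inf_Ac A hAe y y0 z)
        simp_rw [f1, f2]
        have hcl := gr_clique (emb := emb) hinj hab hae hbe y z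
        by_cases hc : (gr a b' emb y z).CliqueFree (d + 2)
        · have h1 := (hpq (gr a b' emb y z)).2 hc
          have h2 : ¬ ∀ i, ∃ j, comb y z (i, j) = true := fun h => hcl.2 h hc
          rw [F, if_neg h2]
          linarith
        · have h1 := (hpq (gr a b' emb y z)).1 hc
          have h2 := hcl.1 hc
          rw [F, if_pos h2]
          linarith)
    have h5 : ((n : ℝ) / M) ^ ((d : ℝ) / 2) ≤ √((b : ℝ) ^ d) := by
      have h6 : √((b : ℝ) ^ d) = (b : ℝ) ^ ((d : ℝ) / 2) := by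
        rw [Real.sqrt_eq_rpow, ← Real.rpow_natCast, ← Real.rpow_mul (by positivity)]
        congr 1
        ring
      rw [h6]
      exact Real.rpow_le_rpow (by positivity) hbn2 (by positivity)
    calc min γ 1 * ((n : ℝ) / M) ^ ((d : ℝ) / 2) ≤ γ * √((b : ℝ) ^ d) := by
          apply mul_le_mul (min_le_left _ _) h5 (by positivity) hγ.le
      _ ≤ r := key
  · push Not at hn
    apply hsmall
    rw [div_le_one hM0, hM, le_div_iff₀ (by positivity)]
    have h1 : (V.ncard : ℝ) ≤ 4 * d * m := by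
      have : V.ncard ≤ 4 * d * m := by nlinarith
      exact_mod_cast this
    linarith

end Pool.SR
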