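import Pool.Agent.Lib.SR.Main2

namespace Pool.SR

open Finset

/-- Main3. Weak (one-sided strict) form: threshold representations of k-clique by sums of products. -/
theorem main3 (k : ℕ) (hk : 3 ≤ k) (δ : ℝ) (hδ : 0 < δ) :
    ∃ c : ℝ, 0 < c ∧ ∀ (n : ℕ) (A : SimpleGraph (Fin n)), k ≤ n →
      δ * (n : ℝ) ^ 2 ≤ (A.edgeSet.ncard : ℝ) → δ * (n : ℝ) ^ 2 ≤ (Aᶜ.edgeSet.ncard : ℝ) →
      ∀ (r : ℕ) (p q : Fin r → SimpleGraph (Fin n) → ℝ),
        (∀ G : SimpleGraph (Fin n),
          ¬ G.CliqueFree k ↔ 0 < ∑ t, p t (G ⊓ A) * q t (G ⊓ Aᶜ)) →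
        c * (n : ℝ) ^ (((k : ℝ) - 2) / 2) ≤ r := by
  classical
  obtain ⟨c, hc, hmain⟩ := main2 k hk δ hδ
  refine ⟨c / 2, by positivity, ?_⟩
  intro n A hkn hA1 hA2 r p q hpq
  -- the complete graph has a clique
  have htop : ¬ (⊤ : SimpleGraph (Fin n)).CliqueFree k := by
    intro h
    have h1 : (⊤ : SimpleGraph (Fin n)).CliqueFree (Fintype.card (Fin n)) :=
      h.mono (by simpa using hkn)
    exact SimpleGraph.IsContained.not_cliqueFree_card
      (SimpleGraph.IsContained.refl (⊤ : SimpleGraph (Fin n))) h1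
  have hr : 1 ≤ r := by
    rcases Nat.eq_zero_or_pos r with h0 | h0
    · exfalso
      subst h0
      have := (hpq ⊤).1 htop
      simp at this
    · exact h0
  have hr' : (1 : ℝ) ≤ r := by exact_mod_cast hr
  -- the smallest positive value
  set val : SimpleGraph (Fin n) → ℝ := fun G => ∑ t, p t (G ⊓ A) * q t (G ⊓ Aᶜ) with hval
  obtain ⟨G0, hG0, hmin⟩ := Finset.exists_min_image
    (univ.filter (fun G : SimpleGraph (Fin n) => ¬ G.CliqueFree k)) val
    ⟨⊤, by simpa using htop⟩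
  have hpos : 0 < val G0 := by
    have := (Finset.mem_filter.1 hG0).2
    exact (hpq G0).1 this
  have key := hmain n A hA1 hA2 (r + 1)
    (fun t G => Fin.lastCases (motive := fun _ => ℝ) (-(val G0 / 2)) (fun t' => p t' G) t)
    (fun t G => Fin.lastCases (motive := fun _ => ℝ) 1 (fun t' => q t' G) t) (by
      intro G
      simp only [Fin.sum_univ_castSucc, Fin.lastCases_castSucc, Fin.lastCases_last, mul_one]
      constructor
      · intro h
        have h1 := hmin G (by simpa using h)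
        have : val G = ∑ t, p t (G ⊓ A) * q t (G ⊓ Aᶜ) := rfl
        linarith
      · intro h
        have h1 : ¬ 0 < ∑ t, p t (G ⊓ A) * q t (G ⊓ Aᶜ) := fun h2 => (hpq G).2 h2 h
        linarith)
  push_cast at key
  linarith

end Pool.SR
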