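import Pool.Agent.Lib.SR.Defs

namespace Pool.SR

open Finset

theorem P1_kernel {ι : Type} [Fintype ι] [DecidableEq ι] (x y : ι → Bool) :
    ∑ S : Finset ι, chi S y * chi S x = if y = x then (2 : ℝ) ^ (Fintype.card ι) else 0 := by
  have h1 : ∀ S : Finset ι, chi S y * chi S x
      = ∏ e ∈ S, ((if y e then (-1 : ℝ) else 1) * (if x e then (-1 : ℝ) else 1)) := by
    intro S
    rw [chi, chi, ← Finset.prod_mul_distrib]
  simp_rw [h1]
  rw [← Finset.powerset_univ, ← Finset.prod_one_add]
  split_ifs with h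
  · subst h
    rw [Finset.prod_congr rfl (g := fun _ => (2 : ℝ))]
    · rw [Finset.prod_const, Finset.card_univ]
    · intro e _
      cases y e <;> norm_num
  · have : ∃ e, y e ≠ x e := by
      by_contra hc
      push_neg at hc
      exact h (funext hc)
    obtain ⟨e, he⟩ := this
    apply Finset.prod_eq_zero (Finset.mem_univ e)
    cases hy : y e <;> cases hx : x e <;> simp_all

/-- P1a. Fourier inversion on the cube. -/
theorem fourier {ι : Type} [Fintype ι] [DecidableEq ι] (ψ : (ι → Bool) → ℝ) (x : ι → Bool) :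
    ψ x = ∑ S : Finset ι, ((∑ y, ψ y * chi S y) / 2 ^ (Fintype.card ι)) * chi S x := by
  have h2 : (2 : ℝ) ^ (Fintype.card ι) ≠ 0 := pow_ne_zero _ two_ne_zero
  have : ∑ S : Finset ι, ((∑ y, ψ y * chi S y) / 2 ^ (Fintype.card ι)) * chi S x
      = (∑ y, ψ y * ∑ S : Finset ι, chi S y * chi S x) / 2 ^ (Fintype.card ι) := by
    rw [Finset.sum_div]
    simp_rw [Finset.mul_sum, div_mul_eq_mul_div]
    rw [← Finset.sum_div, ← Finset.sum_div]
    congr 1
    rw [Finset.sum_comm]
    apply Finset.sum_congr rfl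
    intro S _
    rw [Finset.sum_mul]
    apply Finset.sum_congr rfl
    intro y _
    ring
  rw [this]
  simp_rw [P1_kernel]
  simp [h2]

/-- P1b. Orthogonality to monomials gives orthogonality to characters. -/
theorem chi_zero {ι : Type} [Fintype ι] [DecidableEq ι] (ψ : (ι → Bool) → ℝ) (d : ℕ)
    (h : ∀ S : Finset ι, S.card < d → ∑ x, ψ x * ∏ e ∈ S, bit (x e) = 0) :
    ∀ S : Finset ι, S.card < d → ∑ x, ψ x * chi S x = 0 := by
  intro S hS
  have h1 : ∀ x : ι → Bool, chi S x = ∑ T ∈ S.powerset, (-2 : ℝ) ^ T.card * ∏ e ∈ T, bit (x e) := by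
    intro x
    have : ∀ T ∈ S.powerset, (-2 : ℝ) ^ T.card * ∏ e ∈ T, bit (x e) = ∏ e ∈ T, (-2 * bit (x e)) := by
      intro T _
      rw [Finset.prod_mul_distrib, Finset.prod_const]
    rw [Finset.sum_congr rfl this, ← Finset.prod_one_add, chi]
    apply Finset.prod_congr rfl
    intro e _
    cases x e <;> simp [bit] <;> norm_num
  simp_rw [h1, Finset.mul_sum]
  rw [Finset.sum_comm]
  apply Finset.sum_eq_zero
  intro T hT
  have hT' : T.card < d := lt_of_le_of_lt (Finset.card_le_card (Finset.mem_powerset.1 hT)) hS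
  have := h T hT'
  calc ∑ x, ψ x * ((-2 : ℝ) ^ T.card * ∏ e ∈ T, bit (x e))
      = (-2 : ℝ) ^ T.card * ∑ x, ψ x * ∏ e ∈ T, bit (x e) := by
        rw [Finset.mul_sum]
        apply Finset.sum_congr rfl
        intro x _
        ring
    _ = 0 := by rw [this, mul_zero]

end Pool.SR
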