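import Pool.Agent.Lib.SR.M1

/-!
Sign rank of Set Cover: the combinatorial core of the reduction from the AND of ORs.

There are `d` blocks of `2 h` elements. Alice has the sets `S j l (y (i, j) l)` in block `i`, Bob
the complements of the sets `S j (z.1 (i, j)) (! z.2 (i, j))`. All sets `S` have `h` elements and
contain the element `o`.
-/

set_option autoImplicit false

namespace Pool.SR

open Finset

/-- A cover of one block by sets with `h` elements has at least two members, and if it has only two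
they are complementary. -/
theorem sc_block {h : ℕ} (hh : 1 ≤ h) {α β : Type} (I : Finset α) (J : Finset β)
    (A : α → Finset (Fin (2 * h))) (B : β → Finset (Fin (2 * h))) (o : Fin (2 * h))
    (hA : ∀ a, (A a).card = h) (hB : ∀ b, (B b).card = h) (hoA : ∀ a, o ∈ A a)
    (hoB : ∀ b, o ∈ B b)
    (hcov : ∀ x, (∃ a ∈ I, x ∈ A a) ∨ (∃ b ∈ J, x ∉ B b)) :
    2 ≤ I.card + J.card ∧
      (I.card + J.card = 2 → ∃ a ∈ I, ∃ b ∈ J, A a = B b) := by
  classical
  obtain ⟨a0, ha0⟩ : ∃ a, a ∈ I := by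
    rcases hcov o with ⟨a, ha, -⟩ | ⟨b, -, hb⟩
    · exact ⟨a, ha⟩
    · exact absurd (hoB b) hb
  have hI : 1 ≤ I.card := Finset.card_pos.2 ⟨a0, ha0⟩
  have hcard : Fintype.card (Fin (2 * h)) = 2 * h := Fintype.card_fin _
  -- all elements
  have huniv : (univ : Finset (Fin (2 * h))) ⊆ I.biUnion A ∪ J.biUnion (fun b => (B b)ᶜ) := by
    intro x _
    rw [mem_union, mem_biUnion, mem_biUnion]
    rcases hcov x with ⟨a, ha, hx⟩ | ⟨b, hb, hx⟩
    · exact Or.inl ⟨a, ha, hx⟩
    · exact Or.inr ⟨b, hb, mem_compl.2 hx⟩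
  have h2h : 2 * h ≤ (I.biUnion A ∪ J.biUnion (fun b => (B b)ᶜ)).card := by
    have := card_le_card huniv
    rwa [card_univ, hcard] at this
  have hAI : (I.biUnion A).card ≤ I.card * h := card_biUnion_le_card_mul _ _ _ fun a _ => (hA a).le
  have hBJ : (J.biUnion (fun b => (B b)ᶜ)).card ≤ J.card * h :=
    card_biUnion_le_card_mul _ _ _ fun b _ => by
      rw [card_compl, hcard, hB b]
      omega
  have hsum : 2 * h ≤ (I.card + J.card) * h := by
    calc 2 * h ≤ _ := h2h
      _ ≤ (I.biUnion A).card + (J.biUnion (fun b => (B b)ᶜ)).card := card_union_le _ _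
      _ ≤ I.card * h + J.card * h := add_le_add hAI hBJ
      _ = (I.card + J.card) * h := by ring
  have h2 : 2 ≤ I.card + J.card := by
    by_contra hc
    have : (I.card + J.card) * h ≤ 1 * h := Nat.mul_le_mul_right _ (by omega)
    omega
  refine ⟨h2, fun he => ?_⟩
  rcases Nat.eq_zero_or_pos J.card with hJ | hJ
  · -- two sets of Alice contain the same element
    exfalso
    have hJe : J = ∅ := card_eq_zero.1 hJ
    have hI2 : I.card = 2 := by omega
    obtain ⟨a, a', -, rfl⟩ := card_eq_two.1 hI2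
    subst hJe
    rw [biUnion_empty, union_empty, biUnion_insert, singleton_biUnion] at h2h
    have h3 := card_union_add_card_inter (A a) (A a')
    have h4 : 1 ≤ (A a ∩ A a').card := card_pos.2 ⟨o, mem_inter.2 ⟨hoA a, hoA a'⟩⟩
    rw [hA a, hA a'] at h3
    omega
  · have hI1 : I.card = 1 := by omega
    have hJ1 : J.card = 1 := by omega
    obtain ⟨a, rfl⟩ := card_eq_one.1 hI1
    obtain ⟨b, rfl⟩ := card_eq_one.1 hJ1
    refine ⟨a, mem_singleton_self a, b, mem_singleton_self b, ?_⟩
    symm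
    refine eq_of_subset_of_card_le (fun x hx => ?_) (by rw [hA a, hB b])
    rcases hcov x with ⟨a', ha', hx'⟩ | ⟨b', hb', hx'⟩
    · rwa [mem_singleton.1 ha'] at hx'
    · rw [mem_singleton.1 hb'] at hx'
      exact absurd hx hx'

/-- The core of the reduction. -/
theorem sc_core {d m b h : ℕ} (hh : 1 ≤ h) (S : Fin m → Fin b → Bool → Finset (Fin (2 * h)))
    (o : Fin (2 * h)) (hS : ∀ j l β, (S j l β).card = h) (ho : ∀ j l β, o ∈ S j l β)
    (hinj : ∀ j l β j' l' β', S j l β = S j' l' β' → j = j' ∧ l = l' ∧ β = β')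
    (y : Ali (Fin d × Fin m) b) (z : Bob (Fin d × Fin m) b) :
    (∃ (I : Finset (Fin d × Fin m × Fin b)) (J : Finset (Fin d × Fin m)),
      I.card + J.card ≤ 2 * d ∧ ∀ (i : Fin d) (x : Fin (2 * h)),
        (∃ e ∈ I, e.1 = i ∧ x ∈ S e.2.1 e.2.2 (y (i, e.2.1) e.2.2)) ∨
        (∃ e ∈ J, e.1 = i ∧ x ∉ S e.2 (z.1 (i, e.2)) (!z.2 (i, e.2)))) ↔
      ∀ i, ∃ j, comb y z (i, j) = true := by
  classical
  constructor
  · rintro ⟨I, J, hIJ, hcov⟩
    -- the parts of the cover in the blocks
    have hblock : ∀ i : Fin d, 2 ≤ (I.filter (fun e => e.1 = i)).card +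
        (J.filter (fun e => e.1 = i)).card ∧
        ((I.filter (fun e => e.1 = i)).card + (J.filter (fun e => e.1 = i)).card = 2 →
          ∃ e ∈ I.filter (fun e => e.1 = i), ∃ e' ∈ J.filter (fun e => e.1 = i),
            S e.2.1 e.2.2 (y (i, e.2.1) e.2.2) = S e'.2 (z.1 (i, e'.2)) (!z.2 (i, e'.2))) := by
      intro i
      refine sc_block hh _ _ (fun e : Fin d × Fin m × Fin b => S e.2.1 e.2.2 (y (i, e.2.1) e.2.2))
        (fun e : Fin d × Fin m => S e.2 (z.1 (i, e.2)) (!z.2 (i, e.2))) o (fun e => hS _ _ _)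
        (fun e => hS _ _ _) (fun e => ho _ _ _) (fun e => ho _ _ _) fun x => ?_
      rcases hcov i x with ⟨e, he, hi, hx⟩ | ⟨e, he, hi, hx⟩
      · exact Or.inl ⟨e, mem_filter.2 ⟨he, hi⟩, hx⟩
      · exact Or.inr ⟨e, mem_filter.2 ⟨he, hi⟩, hx⟩
    have hI : ∑ i : Fin d, (I.filter (fun e => e.1 = i)).card = I.card :=
      (card_eq_sum_card_fiberwise (f := fun e : Fin d × Fin m × Fin b => e.1)
        (fun _ _ => mem_univ _)).symm
    have hJ : ∑ i : Fin d, (J.filter (fun e => e.1 = i)).card = J.card :=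
      (card_eq_sum_card_fiberwise (f := fun e : Fin d × Fin m => e.1)
        (fun _ _ => mem_univ _)).symm
    have htot : ∑ i : Fin d, ((I.filter (fun e => e.1 = i)).card +
        (J.filter (fun e => e.1 = i)).card) ≤ ∑ i : Fin d, 2 := by
      rw [sum_add_distrib, hI, hJ, sum_const, card_univ, Fintype.card_fin, smul_eq_mul]
      omega
    intro i
    have heq := (sum_eq_sum_iff_of_le (fun i _ => (hblock i).1)).1
      (le_antisymm (sum_le_sum fun i _ => (hblock i).1) htot) i (mem_univ i)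
    obtain ⟨e, -, e', -, hee⟩ := (hblock i).2 heq.symm
    obtain ⟨h1, h2, h3⟩ := hinj _ _ _ _ _ _ hee
    refine ⟨e'.2, ?_⟩
    rw [h1, h2] at h3
    change xor (y (i, e'.2) (z.1 (i, e'.2))) (z.2 (i, e'.2)) = true
    rw [h3]
    cases z.2 (i, e'.2) <;> rfl
  · intro hall
    choose f hf using hall
    refine ⟨univ.image (fun i : Fin d => (i, f i, z.1 (i, f i))),
      univ.image (fun i : Fin d => (i, f i)), ?_, ?_⟩
    · have h1 : (univ.image (fun i : Fin d => (i, f i, z.1 (i, f i)))).card ≤ d :=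
        card_image_le.trans (by rw [card_univ, Fintype.card_fin])
      have h2 : (univ.image (fun i : Fin d => (i, f i))).card ≤ d :=
        card_image_le.trans (by rw [card_univ, Fintype.card_fin])
      omega
    · intro i x
      have h1 : y (i, f i) (z.1 (i, f i)) = !z.2 (i, f i) := by
        have := hf i
        unfold comb at this
        revert this
        cases y (i, f i) (z.1 (i, f i)) <;> cases z.2 (i, f i) <;> simp
      by_cases hx : x ∈ S (f i) (z.1 (i, f i)) (y (i, f i) (z.1 (i, f i)))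
      · exact Or.inl ⟨(i, f i, z.1 (i, f i)), mem_image.2 ⟨i, mem_univ _, rfl⟩, rfl, hx⟩
      · rw [h1] at hx
        exact Or.inr ⟨(i, f i), mem_image.2 ⟨i, mem_univ _, rfl⟩, rfl, hx⟩

end Pool.SR
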