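import Pool.Agent.Lib.SR.SC1

/-!
Sign rank of Set Cover: the instances, with a universe of `n` elements and `M` sets on both sides.
-/

set_option autoImplicit false

namespace Pool.SR

open Finset

/-- At most `k` of the sets `a i` and `b j` cover the universe. -/
def Cover {n M : ℕ} (k : ℕ) (a b : Fin M → Finset (Fin n)) : Prop :=
  ∃ I J : Finset (Fin M), I.card + J.card ≤ k ∧ ∀ x, (∃ i ∈ I, x ∈ a i) ∨ ∃ j ∈ J, x ∈ b j

open Classical in
/-- The sets of Alice. -/
noncomputable def scA {d m b h : ℕ} (n M : ℕ) (S : Fin m → Fin b → Bool → Finset (Fin (2 * h)))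
    (α : Fin d × Fin m × Fin b ↪ Fin M) (y : Ali (Fin d × Fin m) b) :
    Fin M → Finset (Fin n) :=
  fun t => univ.filter fun x => ∃ e, α e = t ∧ ((x.val / (2 * h) = e.1.val ∧
    ∃ hx : x.val % (2 * h) < 2 * h, (⟨x.val % (2 * h), hx⟩ : Fin (2 * h)) ∈
      S e.2.1 e.2.2 (y (e.1, e.2.1) e.2.2)) ∨ d ≤ x.val / (2 * h))

open Classical in
/-- The sets of Bob. -/
noncomputable def scB {d m b h : ℕ} (n M : ℕ) (S : Fin m → Fin b → Bool → Finset (Fin (2 * h)))
    (α' : Fin d × Fin m ↪ Fin M) (z : Bob (Fin d × Fin m) b) :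
    Fin M → Finset (Fin n) :=
  fun t => univ.filter fun x => ∃ e, α' e = t ∧ x.val / (2 * h) = e.1.val ∧
    ∃ hx : x.val % (2 * h) < 2 * h, (⟨x.val % (2 * h), hx⟩ : Fin (2 * h)) ∉
      S e.2 (z.1 e) (!z.2 e)

theorem sc_cover {d m b h n M : ℕ} (hd : 1 ≤ d) (hh : 1 ≤ h) (hn : 2 * d * h ≤ n)
    (S : Fin m → Fin b → Bool → Finset (Fin (2 * h)))
    (o : Fin (2 * h)) (hS : ∀ j l β, (S j l β).card = h) (ho : ∀ j l β, o ∈ S j l β)
    (hinj : ∀ j l β j' l' β', S j l β = S j' l' β' → j = j' ∧ l = l' ∧ β = β')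
    (α : Fin d × Fin m × Fin b ↪ Fin M) (α' : Fin d × Fin m ↪ Fin M)
    (y : Ali (Fin d × Fin m) b) (z : Bob (Fin d × Fin m) b) :
    Cover (2 * d) (scA n M S α y) (scB n M S α' z) ↔ ∀ i, ∃ j, comb y z (i, j) = true := by
  classical
  rw [← sc_core hh S o hS ho hinj y z]
  have h2h : 0 < 2 * h := by omega
  constructor
  · rintro ⟨I', J', hIJ, hcov⟩
    refine ⟨I'.preimage α α.injective.injOn, J'.preimage α' α'.injective.injOn, ?_, ?_⟩
    · have h1 : (I'.preimage α α.injective.injOn).card ≤ I'.card := by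
        rw [← card_map α]
        refine card_le_card fun t ht => ?_
        obtain ⟨e, he, rfl⟩ := mem_map.1 ht
        exact mem_preimage.1 he
      have h2 : (J'.preimage α' α'.injective.injOn).card ≤ J'.card := by
        rw [← card_map α']
        refine card_le_card fun t ht => ?_
        obtain ⟨e, he, rfl⟩ := mem_map.1 ht
        exact mem_preimage.1 he
      omega
    · intro i x
      have hX : i.val * (2 * h) + x.val < n := by
        have h1 : (i.val + 1) * (2 * h) ≤ d * (2 * h) := Nat.mul_le_mul_right _ i.2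
        have h2 : (i.val + 1) * (2 * h) = i.val * (2 * h) + 2 * h := by ring
        have h3 : d * (2 * h) = 2 * d * h := by ring
        have := x.2
        omega
      have hdiv : (i.val * (2 * h) + x.val) / (2 * h) = i.val := by
        rw [mul_comm, Nat.mul_add_div h2h, Nat.div_eq_of_lt x.2, add_zero]
      have hmod : (i.val * (2 * h) + x.val) % (2 * h) = x.val := by
        rw [mul_comm, Nat.mul_add_mod, Nat.mod_eq_of_lt x.2]
      rcases hcov ⟨i.val * (2 * h) + x.val, hX⟩ with ⟨t, ht, hx⟩ | ⟨t, ht, hx⟩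
      · left
        unfold scA at hx
        rw [mem_filter] at hx
        obtain ⟨-, e, rfl, ⟨h1, h2, h3⟩ | h1⟩ := hx
        · simp only [hdiv, hmod] at h1 h3
          have he : e.1 = i := Fin.ext h1.symm
          refine ⟨e, mem_preimage.2 ht, he, ?_⟩
          rw [← he]
          exact h3
        · simp only [hdiv] at h1
          have := i.2
          omega
      · right
        unfold scB at hx
        rw [mem_filter] at hx
        obtain ⟨-, e, rfl, h1, h2, h3⟩ := hx
        simp only [hdiv, hmod] at h1 h3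
        have he : e.1 = i := Fin.ext h1.symm
        refine ⟨e, mem_preimage.2 ht, he, ?_⟩
        rw [← he]
        exact h3
  · rintro ⟨I, J, hIJ, hcov⟩
    refine ⟨I.map α, J.map α', by rw [card_map, card_map]; exact hIJ, ?_⟩
    intro X
    by_cases hX : X.val / (2 * h) < d
    · have hx : X.val % (2 * h) < 2 * h := Nat.mod_lt _ h2h
      rcases hcov ⟨X.val / (2 * h), hX⟩ ⟨X.val % (2 * h), hx⟩ with ⟨e, he, hi, h1⟩ | ⟨e, he, hi, h1⟩
      · left
        refine ⟨α e, mem_map_of_mem α he, ?_⟩
        unfold scA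
        rw [mem_filter]
        refine ⟨mem_univ _, e, rfl, Or.inl ⟨?_, hx, ?_⟩⟩
        · rw [hi]
        · rw [hi]
          exact h1
      · right
        refine ⟨α' e, mem_map_of_mem α' he, ?_⟩
        unfold scB
        rw [mem_filter]
        refine ⟨mem_univ _, e, rfl, ?_, hx, ?_⟩
        · rw [hi]
        · rw [← hi] at h1
          exact h1
    · left
      rcases hcov ⟨0, hd⟩ o with ⟨e, he, -, -⟩ | ⟨e, -, -, h1⟩
      · refine ⟨α e, mem_map_of_mem α he, ?_⟩
        unfold scA
        rw [mem_filter]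
        exact ⟨mem_univ _, e, rfl, Or.inr (not_lt.1 hX)⟩
      · exact absurd (ho _ _ _) h1

/-- the number of the `h`-subsets of a set with `2 h` elements that contain a given element -/
theorem sc_count {h : ℕ} (o : Fin (2 * h)) :
    2 * ((powersetCard h (univ : Finset (Fin (2 * h)))).filter (fun S => o ∈ S)).card =
      (2 * h).choose h := by
  classical
  have h1 : ((powersetCard h (univ : Finset (Fin (2 * h)))).filter (fun S => o ∈ S)).card =
      ((powersetCard h (univ : Finset (Fin (2 * h)))).filter (fun S => ¬ o ∈ S)).card := by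
    refine card_bij (fun S _ => Sᶜ) ?_ ?_ ?_
    · intro S hS
      rw [mem_filter, mem_powersetCard] at hS ⊢
      refine ⟨⟨subset_univ _, ?_⟩, by simpa using hS.2⟩
      rw [card_compl, hS.1.2, Fintype.card_fin]
      omega
    · intro S _ S' _ he
      exact compl_injective he
    · intro S hS
      rw [mem_filter, mem_powersetCard] at hS
      refine ⟨Sᶜ, ?_, compl_compl _⟩
      rw [mem_filter, mem_powersetCard]
      refine ⟨⟨subset_univ _, ?_⟩, by simpa using hS.2⟩
      rw [card_compl, hS.1.2, Fintype.card_fin]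
      omega
  have h2 := card_filter_add_card_filter_not (s := powersetCard h (univ : Finset (Fin (2 * h))))
    (fun S => o ∈ S)
  rw [card_powersetCard, card_univ, Fintype.card_fin] at h2
  omega

/-- Enough different sets. -/
theorem sc_sets {m b h : ℕ} (hh : 1 ≤ h) (hmb : 4 * (m * b) ≤ (2 * h).choose h) :
    ∃ (o : Fin (2 * h)) (S : Fin m → Fin b → Bool → Finset (Fin (2 * h))),
      (∀ j l β, (S j l β).card = h) ∧ (∀ j l β, o ∈ S j l β) ∧
      ∀ j l β j' l' β', S j l β = S j' l' β' → j = j' ∧ l = l' ∧ β = β' := by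
  classical
  let o : Fin (2 * h) := ⟨0, by omega⟩
  set P := (powersetCard h (univ : Finset (Fin (2 * h)))).filter (fun S => o ∈ S) with hP
  have h1 : Fintype.card (Fin m × Fin b × Bool) ≤ Fintype.card P := by
    have h2 := sc_count o
    rw [← hP] at h2
    rw [Fintype.card_prod, Fintype.card_prod, Fintype.card_fin, Fintype.card_fin,
      Fintype.card_bool, Fintype.card_coe]
    have h3 : m * (b * 2) = 2 * (m * b) := by ring
    omega
  obtain ⟨f⟩ := Function.Embedding.nonempty_of_card_le h1
  have hf : ∀ e, (f e : Finset (Fin (2 * h))).card = h ∧ o ∈ (f e : Finset (Fin (2 * h))) := by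
    intro e
    have h0 := mem_filter.1 (f e).2
    exact ⟨(mem_powersetCard.1 h0.1).2, h0.2⟩
  refine ⟨o, fun j l β => f (j, l, β), fun j l β => (hf _).1, fun j l β => (hf _).2, ?_⟩
  intro j l β j' l' β' he
  have h2 := f.injective (Subtype.ext he)
  simp only [Prod.mk.injEq] at h2
  exact h2

end Pool.SR
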