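import Pool.Agent.Lib.SR.SC2

/-!
Sign rank of Set Cover: the lower bound.
-/

set_option autoImplicit false

namespace Pool.SR

open Finset

/-- Sign representations of Set Cover have at least `c M ^ (d / 2)` terms. -/
theorem sc_lower (d : ℕ) (hd : 1 ≤ d) :
    ∃ c : ℝ, 0 < c ∧ ∀ (n h M : ℕ), 2 * d * h ≤ n → M ≤ (2 * h).choose h →
      ∀ (r : ℕ) (p q : Fin r → (Fin M → Finset (Fin n)) → ℝ),
        (∀ a b, Cover (2 * d) a b ↔ 0 < ∑ t, p t a * q t b) →
        c * (M : ℝ) ^ ((d : ℝ) / 2) ≤ r := by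
  classical
  obtain ⟨γ, hγ, m, hm, hmain⟩ := signrank_pattern d hd
  have hd0 : (0 : ℝ) < d := by exact_mod_cast hd
  have hm0 : (0 : ℝ) < m := by exact_mod_cast hm
  set L : ℝ := 8 * d * m with hL
  have hL0 : 0 < L := by positivity
  have hLd : 0 < L ^ ((d : ℝ) / 2) := Real.rpow_pos_of_pos hL0 _
  refine ⟨min (γ / 2) 1 / L ^ ((d : ℝ) / 2), by positivity, ?_⟩
  intro n h M hn hM r p q hpq
  rcases Nat.eq_zero_or_pos M with hM0 | hM0
  · subst hM0
    rw [Nat.cast_zero, Real.zero_rpow (by positivity), mul_zero]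
    exact Nat.cast_nonneg r
  -- an instance with a cover
  have hcov1 : Cover (2 * d) (fun _ : Fin M => (univ : Finset (Fin n))) (fun _ => univ) := by
    refine ⟨{⟨0, hM0⟩}, ∅, ?_, fun x => Or.inl ⟨⟨0, hM0⟩, mem_singleton_self _, mem_univ _⟩⟩
    rw [card_singleton, card_empty]
    omega
  have hr : 1 ≤ r := by
    rcases Nat.eq_zero_or_pos r with h0 | h0
    · exfalso
      subst h0
      have := (hpq _ _).1 hcov1
      simp at this
    · exact h0
  have hr' : (1 : ℝ) ≤ r := by exact_mod_cast hr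
  have hstep : min (γ / 2) 1 / L ^ ((d : ℝ) / 2) * (M : ℝ) ^ ((d : ℝ) / 2)
      = min (γ / 2) 1 * ((M : ℝ) / L) ^ ((d : ℝ) / 2) := by
    rw [Real.div_rpow (by positivity) hL0.le]
    ring
  rw [hstep]
  have hdm : 0 < 4 * (d * m) := by
    have : 0 < d * m := Nat.mul_pos hd hm
    omega
  by_cases hbig : 4 * (d * m) ≤ M
  · -- the block length
    set b : ℕ := M / (4 * (d * m)) with hb
    have hb1 : 1 ≤ b := (Nat.one_le_div_iff hdm).2 hbig
    have hbM : 4 * (d * m) * b ≤ M := Nat.mul_div_le M _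
    have hbM2 : (M : ℝ) / L ≤ b := by
      rw [div_le_iff₀ hL0, hL]
      have h1 : M < 4 * (d * m) * (b + 1) := by
        rw [hb]
        exact Nat.lt_mul_div_succ M hdm
      have h2 : 4 * (d * m) * (b + 1) ≤ b * (8 * d * m) := by
        calc 4 * (d * m) * (b + 1) ≤ 4 * (d * m) * (2 * b) := Nat.mul_le_mul_left _ (by omega)
          _ = b * (8 * d * m) := by ring
      have h4 : M ≤ b * (8 * d * m) := by omega
      exact_mod_cast h4
    have hh : 1 ≤ h := by
      rcases Nat.eq_zero_or_pos h with h0 | h0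
      · subst h0
        simp only [mul_zero, Nat.choose_self] at hM
        omega
      · exact h0
    have hdmb : m * b ≤ d * m * b := by
      rw [mul_assoc]
      exact Nat.le_mul_of_pos_left _ hd
    have hmb : 4 * (m * b) ≤ (2 * h).choose h := by
      have h1 : 4 * (d * m) * b = 4 * (d * m * b) := by ring
      omega
    obtain ⟨o, S, hS, ho, hinj⟩ := sc_sets hh hmb
    -- the places of the sets
    have hα : Fintype.card (Fin d × Fin m × Fin b) ≤ Fintype.card (Fin M) := by
      rw [Fintype.card_prod, Fintype.card_prod, Fintype.card_fin, Fintype.card_fin,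
        Fintype.card_fin, Fintype.card_fin]
      have h1 : 4 * (d * m) * b = 4 * (d * (m * b)) := by ring
      omega
    have hα' : Fintype.card (Fin d × Fin m) ≤ Fintype.card (Fin M) := by
      rw [Fintype.card_prod, Fintype.card_fin, Fintype.card_fin, Fintype.card_fin]
      omega
    obtain ⟨α⟩ := Function.Embedding.nonempty_of_card_le hα
    obtain ⟨α'⟩ := Function.Embedding.nonempty_of_card_le hα'
    -- the smallest positive value
    set val : (Fin M → Finset (Fin n)) × (Fin M → Finset (Fin n)) → ℝ :=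
      fun ab => ∑ t, p t ab.1 * q t ab.2 with hval
    obtain ⟨ab, hab, hmin⟩ := Finset.exists_min_image
      (univ.filter (fun ab : (Fin M → Finset (Fin n)) × (Fin M → Finset (Fin n)) =>
        Cover (2 * d) ab.1 ab.2)) val
      ⟨(fun _ => univ, fun _ => univ), mem_filter.2 ⟨mem_univ _, hcov1⟩⟩
    have hpos : 0 < val ab := (hpq ab.1 ab.2).1 (mem_filter.1 hab).2
    have key := hmain b hb1 (r + 1)
      (fun y t => Fin.lastCases (motive := fun _ => ℝ) (-(val ab / 2))
        (fun t' => p t' (scA n M S α y)) t)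
      (fun z t => Fin.lastCases (motive := fun _ => ℝ) 1
        (fun t' => q t' (scB n M S α' z)) t) (by
        intro y z
        simp only [Fin.sum_univ_castSucc, Fin.lastCases_castSucc, Fin.lastCases_last, mul_one]
        have hc := sc_cover hd hh hn S o hS ho hinj α α' y z
        by_cases hF : ∀ i, ∃ j, comb y z (i, j) = true
        · have h1 := hc.2 hF
          have h2 := hmin (scA n M S α y, scB n M S α' z) (mem_filter.2 ⟨mem_univ _, h1⟩)
          have h3 : val (scA n M S α y, scB n M S α' z) =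
            ∑ t, p t (scA n M S α y) * q t (scB n M S α' z) := rfl
          rw [F, if_pos hF]
          linarith
        · have h1 : ¬ 0 < ∑ t, p t (scA n M S α y) * q t (scB n M S α' z) :=
            fun h2 => hF (hc.1 ((hpq _ _).2 h2))
          rw [F, if_neg hF]
          linarith)
    push_cast at key
    have h5 : ((M : ℝ) / L) ^ ((d : ℝ) / 2) ≤ √((b : ℝ) ^ d) := by
      have h6 : √((b : ℝ) ^ d) = (b : ℝ) ^ ((d : ℝ) / 2) := by
        rw [Real.sqrt_eq_rpow, ← Real.rpow_natCast, ← Real.rpow_mul (by positivity)]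
        congr 1
        ring
      rw [h6]
      exact Real.rpow_le_rpow (by positivity) hbM2 (by positivity)
    calc min (γ / 2) 1 * ((M : ℝ) / L) ^ ((d : ℝ) / 2) ≤ γ / 2 * √((b : ℝ) ^ d) := by
          apply mul_le_mul (min_le_left _ _) h5 (by positivity) (by positivity)
      _ ≤ r := by linarith
  · push Not at hbig
    have h7 : (M : ℝ) / L ≤ 1 := by
      rw [div_le_one hL0, hL]
      have : M ≤ 8 * d * m := by
        have h1 : 8 * d * m = 2 * (4 * (d * m)) := by ring
        omega
      exact_mod_cast this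
    have h8 : ((M : ℝ) / L) ^ ((d : ℝ) / 2) ≤ 1 :=
      Real.rpow_le_one (by positivity) h7 (by positivity)
    calc min (γ / 2) 1 * ((M : ℝ) / L) ^ ((d : ℝ) / 2) ≤ 1 * 1 := by
          apply mul_le_mul (min_le_right _ _) h8 (by positivity) (by norm_num)
      _ ≤ r := by linarith

/-- The upper bound: `2 ^ n * (k + 1)` products are enough. -/
theorem sc_upper (n M k : ℕ) :
    ∃ (p q : Fin (2 ^ n * (k + 1)) → (Fin M → Finset (Fin n)) → ℝ),
      ∀ a b, Cover k a b ↔ 0 < ∑ t, p t a * q t b := by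
  classical
  have hc : Fintype.card (Finset (Fin n) × Fin (k + 1)) = 2 ^ n * (k + 1) := by
    rw [Fintype.card_prod, Fintype.card_finset, Fintype.card_fin, Fintype.card_fin]
  let e : Fin (2 ^ n * (k + 1)) ≃ Finset (Fin n) × Fin (k + 1) := (Fintype.equivFinOfCardEq hc).symm
  -- whether at most `l` sets cover `X`
  let P : Finset (Fin n) → ℕ → (Fin M → Finset (Fin n)) → Prop := fun X l a =>
    ∃ I : Finset (Fin M), I.card ≤ l ∧ ∀ x ∈ X, ∃ i ∈ I, x ∈ a i
  let p : Fin (2 ^ n * (k + 1)) → (Fin M → Finset (Fin n)) → ℝ := fun t a =>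
    if P (e t).1 (e t).2 a then 1 else 0
  let q : Fin (2 ^ n * (k + 1)) → (Fin M → Finset (Fin n)) → ℝ := fun t b =>
    if P (e t).1ᶜ (k - (e t).2) b then 1 else 0
  have hp : ∀ t a, 0 ≤ p t a := fun t a => by
    simp only [p]
    split_ifs <;> norm_num
  have hq : ∀ t b, 0 ≤ q t b := fun t b => by
    simp only [q]
    split_ifs <;> norm_num
  refine ⟨p, q, fun a b => ?_⟩
  constructor
  · rintro ⟨I, J, hIJ, hcov⟩
    let X : Finset (Fin n) := univ.filter fun x => ∃ i ∈ I, x ∈ a i
    let t := e.symm (X, ⟨I.card, by omega⟩)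
    have ht : e t = (X, ⟨I.card, by omega⟩) := e.apply_symm_apply _
    refine lt_of_lt_of_le ?_ (single_le_sum (f := fun t => p t a * q t b)
      (fun t _ => mul_nonneg (hp t a) (hq t b)) (mem_univ t))
    have h1 : P (e t).1 (e t).2 a := by
      rw [ht]
      exact ⟨I, le_rfl, fun x hx => (mem_filter.1 hx).2⟩
    have h2 : P (e t).1ᶜ (k - (e t).2) b := by
      rw [ht]
      refine ⟨J, by simp only; omega, fun x hx => ?_⟩
      rcases hcov x with h | h
      · exact absurd (mem_filter.2 ⟨mem_univ x, h⟩) (mem_compl.1 hx)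
      · exact h
    simp only [p, q, if_pos h1, if_pos h2]
    norm_num
  · intro hpos
    obtain ⟨t, -, ht⟩ := exists_lt_of_sum_lt (f := fun _ => (0 : ℝ)) (s := univ)
      (g := fun t => p t a * q t b) (by simpa using hpos)
    have h1 : P (e t).1 (e t).2 a := by
      by_contra h
      simp only [p, if_neg h, zero_mul, lt_self_iff_false] at ht
    have h2 : P (e t).1ᶜ (k - (e t).2) b := by
      by_contra h
      simp only [q, if_neg h, mul_zero, lt_self_iff_false] at ht
    obtain ⟨I, hI, hI'⟩ := h1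
    obtain ⟨J, hJ, hJ'⟩ := h2
    refine ⟨I, J, ?_, fun x => ?_⟩
    · have := (e t).2.2
      omega
    · by_cases hx : x ∈ (e t).1
      · exact Or.inl (hI' x hx)
      · exact Or.inr (hJ' x (mem_compl.2 hx))

end Pool.SR
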