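import Pool.Agent.Lib.SR.SC3

/-!
Sign rank of Set Cover: the base of the exponential lower bound.
-/

set_option autoImplicit false

namespace Pool.SR

open Finset Filter

private theorem sc_log (A B κ : ℝ) (hκ : 0 < κ) (hA : 0 ≤ A) :
    ∃ h₀ : ℕ, ∀ h : ℕ, h₀ ≤ h → A * Real.log (h + 1) + B ≤ κ * h := by
  have h1 : ∀ᶠ x : ℝ in atTop, ‖Real.log x‖ ≤ κ / (4 * (A + 1)) * ‖x‖ :=
    Real.isLittleO_log_id_atTop.def (by positivity)
  have h2 : ∀ᶠ x : ℝ in atTop, B + κ ≤ κ / 2 * x :=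
    (tendsto_id.const_mul_atTop (by positivity : 0 < κ / 2)).eventually_ge_atTop _
  have h3 : Tendsto (fun h : ℕ => (h : ℝ) + 1) atTop atTop :=
    tendsto_atTop_add_const_right _ _ tendsto_natCast_atTop_atTop
  obtain ⟨h₀, hh⟩ := eventually_atTop.1 (h3.eventually (h1.and h2))
  refine ⟨h₀, fun h hge => ?_⟩
  obtain ⟨e1, e2⟩ := hh h hge
  have hpos : (0 : ℝ) ≤ h := Nat.cast_nonneg h
  rw [Real.norm_eq_abs, Real.norm_eq_abs, abs_of_nonneg (by positivity : (0 : ℝ) ≤ (h : ℝ) + 1)] at e1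
  have e3 : Real.log (h + 1) ≤ κ / (4 * (A + 1)) * ((h : ℝ) + 1) := (le_abs_self _).trans e1
  have e4 : A * Real.log (h + 1) ≤ κ / 4 * ((h : ℝ) + 1) := by
    calc A * Real.log (h + 1) ≤ A * (κ / (4 * (A + 1)) * ((h : ℝ) + 1)) :=
          mul_le_mul_of_nonneg_left e3 hA
      _ = (A / (A + 1)) * (κ / 4 * ((h : ℝ) + 1)) := by field_simp
      _ ≤ 1 * (κ / 4 * ((h : ℝ) + 1)) := by
          refine mul_le_mul_of_nonneg_right ?_ (by positivity)
          rw [div_le_one (by positivity)]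
          linarith
      _ = κ / 4 * ((h : ℝ) + 1) := one_mul _
  nlinarith

/-- Base: for every `β < √2` and every exponent `c'` Set Cover with `2 d` sets, `d` large, has no
sign representation with fewer than `β ^ n * (n * M) ^ c'` products. -/
theorem sc_base (β : ℝ) (hβ0 : 0 ≤ β) (hβ : β < √2) (c' : ℕ) :
    ∃ d₀ : ℕ, ∀ d ≥ d₀, ∃ n₀ : ℕ, ∀ n ≥ n₀, ∀ (r : ℕ)
      (p q : Fin r → (Fin ((2 * (n / (2 * d))).choose (n / (2 * d))) → Finset (Fin n)) → ℝ),
      (∀ a b, Cover (2 * d) a b ↔ 0 < ∑ t, p t a * q t b) →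
      β ^ n * ((n : ℝ) * ((2 * (n / (2 * d))).choose (n / (2 * d)) : ℕ)) ^ c' ≤ r := by
  -- the logarithm of the base
  set β' : ℝ := max β 1 with hβ'
  have hβ'1 : 1 ≤ β' := le_max_right _ _
  have hβ'2 : β' < √2 := by
    rw [hβ', max_lt_iff]
    refine ⟨hβ, ?_⟩
    rw [Real.lt_sqrt (by norm_num)]
    norm_num
  set lam : ℝ := Real.log β' with hlam
  have hlam0 : 0 ≤ lam := Real.log_nonneg hβ'1
  have hlam2 : 2 * lam < Real.log 2 := by
    have h1 := Real.log_lt_log (by linarith) hβ'2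
    rw [Real.log_sqrt (by norm_num)] at h1
    linarith
  have hl2 : 0 < Real.log 2 := Real.log_pos (by norm_num)
  set δ : ℝ := Real.log 2 - 2 * lam with hδ
  have hδ0 : 0 < δ := by linarith
  obtain ⟨d₁, hd₁⟩ := exists_nat_gt (2 * c' * Real.log 2 / δ)
  refine ⟨max d₁ (2 * c' + 1), fun d hd => ?_⟩
  have hdd1 : d₁ ≤ d := (le_max_left _ _).trans hd
  have hdd2 : 2 * c' + 1 ≤ d := (le_max_right _ _).trans hd
  have hd1 : 1 ≤ d := by omega
  obtain ⟨c, hc, hmain⟩ := sc_lower d hd1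
  have hd0 : (0 : ℝ) < d := by exact_mod_cast hd1
  -- the coefficient of `h`
  set κ : ℝ := (d - 2 * c') * Real.log 2 - 2 * d * lam with hκ
  have hκ0 : 0 < κ := by
    have h1 : 2 * c' * Real.log 2 / δ < d := hd₁.trans_le (by exact_mod_cast hdd1)
    rw [div_lt_iff₀ hδ0] at h1
    rw [hκ]
    have h2 : (d : ℝ) * δ = d * Real.log 2 - 2 * d * lam := by rw [hδ]; ring
    linarith
  have hdc : (0 : ℝ) ≤ (d : ℝ) / 2 - c' := by
    have : (2 * c' + 1 : ℝ) ≤ d := by exact_mod_cast hdd2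
    linarith
  obtain ⟨h₀, hh₀⟩ := sc_log ((d : ℝ) / 2 - c' + c')
    (((d : ℝ) / 2 - c') * Real.log 2 + c' * Real.log (2 * d) + 2 * d * lam - Real.log c) κ hκ0
    (by positivity)
  refine ⟨2 * d * (h₀ + 1), fun n hn r p q hpq => ?_⟩
  have key := hmain n (n / (2 * d)) _ (Nat.mul_div_le n _) le_rfl r p q hpq
  clear hpq
  clear p q
  set h : ℕ := n / (2 * d) with hh
  have h2d : 0 < 2 * d := by omega
  have hhge : h₀ + 1 ≤ h := by
    rw [hh, Nat.le_div_iff_mul_le h2d, mul_comm]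
    exact hn
  have hh1 : 1 ≤ h := by omega
  have hn1 : 2 * d * h ≤ n := Nat.mul_div_le n _
  have hn2 : n < 2 * d * (h + 1) := Nat.lt_mul_div_succ n h2d
  have hn0 : 0 < n := by
    have : 0 < 2 * d * h := Nat.mul_pos h2d hh1
    omega
  set M : ℕ := (2 * h).choose h with hM
  have hMc : M = h.centralBinom := rfl
  have hM0 : 0 < M := Nat.choose_pos (by omega)
  have hMpos : (0 : ℝ) < M := by exact_mod_cast hM0
  have hnpos : (0 : ℝ) < n := by exact_mod_cast hn0
  have hhpos : (0 : ℝ) < h := by exact_mod_cast hh1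
  refine le_trans ?_ key
  have hbase : β ^ n * ((n : ℝ) * (M : ℝ)) ^ c' ≤ β' ^ n * ((n : ℝ) * (M : ℝ)) ^ c' :=
    mul_le_mul_of_nonneg_right (pow_le_pow_left₀ hβ0 (le_max_left _ _) n) (by positivity)
  refine hbase.trans ?_
  have hβ'pos : 0 < β' := by linarith
  rw [← Real.log_le_log_iff (by positivity) (by positivity), Real.log_mul (by positivity)
    (by positivity), Real.log_mul (by positivity) (by positivity), Real.log_pow, Real.log_pow,
    Real.log_rpow hMpos, Real.log_mul (by positivity) (by positivity)]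
  -- the lower bound of the central binomial coefficient
  have hcb : (h : ℝ) * (2 * Real.log 2) - Real.log 2 - Real.log (h + 1) ≤ Real.log M := by
    have h1 := Nat.four_pow_le_two_mul_self_mul_centralBinom h (by omega)
    rw [← hMc] at h1
    have h2 : (4 : ℝ) ^ h ≤ 2 * h * M := by exact_mod_cast h1
    have h3 := Real.log_le_log (by positivity) h2
    rw [Real.log_pow, Real.log_mul (by positivity) (by positivity),
      Real.log_mul (by positivity) (by positivity)] at h3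
    have h4 : Real.log 4 = 2 * Real.log 2 := by
      rw [show (4 : ℝ) = 2 ^ 2 by norm_num, Real.log_pow]
      norm_num
    have h5 : Real.log h ≤ Real.log (h + 1) := Real.log_le_log hhpos (by linarith)
    rw [h4] at h3
    linarith
  have hn3 : (n : ℝ) ≤ 2 * d * (h + 1) := by exact_mod_cast hn2.le
  have hlogn : Real.log n ≤ Real.log (2 * d) + Real.log (h + 1) := by
    rw [← Real.log_mul (by positivity) (by positivity)]
    exact Real.log_le_log hnpos hn3
  have h6 := hh₀ h (by omega)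
  have h7 : (n : ℝ) * lam ≤ 2 * d * (h + 1) * lam := mul_le_mul_of_nonneg_right hn3 hlam0
  have h8 : ((d : ℝ) / 2 - c') * ((h : ℝ) * (2 * Real.log 2) - Real.log 2 - Real.log (h + 1)) ≤
      ((d : ℝ) / 2 - c') * Real.log M := mul_le_mul_of_nonneg_left hcb hdc
  have h9 : (c' : ℝ) * Real.log n ≤ c' * (Real.log (2 * d) + Real.log (h + 1)) :=
    mul_le_mul_of_nonneg_left hlogn (Nat.cast_nonneg _)
  rw [← hlam]
  rw [hκ] at h6
  nlinarith

end Pool.SR
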