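import Pool.Agent.Lib.SR.SC4

/-!
Sign rank of Set Cover: any number of sets.
-/

set_option autoImplicit false

namespace Pool.SR

open Finset

/-- Adding empty sets. -/
noncomputable def scExt {n M₀ M : ℕ} (a : Fin M₀ → Finset (Fin n)) : Fin M → Finset (Fin n) :=
  fun t => if ht : t.val < M₀ then a ⟨t.val, ht⟩ else ∅

theorem sc_ext {n M₀ M k : ℕ} (h : M₀ ≤ M) (a b : Fin M₀ → Finset (Fin n)) :
    Cover k (scExt (M := M) a) (scExt (M := M) b) ↔ Cover k a b := by
  classical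
  let ι : Fin M₀ ↪ Fin M := Fin.castLEEmb h
  have hι : ∀ (c : Fin M₀ → Finset (Fin n)) (i : Fin M₀), scExt (M := M) c (ι i) = c i := by
    intro c i
    unfold scExt
    rw [dif_pos (show (ι i).val < M₀ from i.2)]
    rfl
  have hmem : ∀ (c : Fin M₀ → Finset (Fin n)) (t : Fin M) (x : Fin n), x ∈ scExt (M := M) c t →
      ∃ i, ι i = t ∧ x ∈ c i := by
    intro c t x hx
    unfold scExt at hx
    split_ifs at hx with ht
    · exact ⟨⟨t.val, ht⟩, rfl, hx⟩
    · exact absurd hx (notMem_empty x)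
  have hcard : ∀ I : Finset (Fin M), (I.preimage ι ι.injective.injOn).card ≤ I.card := by
    intro I
    rw [← card_map ι]
    refine card_le_card fun t ht => ?_
    obtain ⟨e, he, rfl⟩ := mem_map.1 ht
    exact mem_preimage.1 he
  constructor
  · rintro ⟨I, J, hIJ, hcov⟩
    refine ⟨I.preimage ι ι.injective.injOn, J.preimage ι ι.injective.injOn, ?_, fun x => ?_⟩
    · have h1 := hcard I
      have h2 := hcard J
      omega
    · rcases hcov x with ⟨t, ht, hx⟩ | ⟨t, ht, hx⟩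
      · obtain ⟨i, rfl, hi⟩ := hmem a t x hx
        exact Or.inl ⟨i, mem_preimage.2 ht, hi⟩
      · obtain ⟨i, rfl, hi⟩ := hmem b t x hx
        exact Or.inr ⟨i, mem_preimage.2 ht, hi⟩
  · rintro ⟨I, J, hIJ, hcov⟩
    refine ⟨I.map ι, J.map ι, by rw [card_map, card_map]; exact hIJ, fun x => ?_⟩
    rcases hcov x with ⟨i, hi, hx⟩ | ⟨i, hi, hx⟩
    · exact Or.inl ⟨ι i, mem_map_of_mem ι hi, by rw [hι]; exact hx⟩
    · exact Or.inr ⟨ι i, mem_map_of_mem ι hi, by rw [hι]; exact hx⟩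

/-- Sign representations of Set Cover, any number of sets. -/
theorem sc_lower_min (d : ℕ) (hd : 1 ≤ d) :
    ∃ c : ℝ, 0 < c ∧ ∀ (n h M : ℕ), 2 * d * h ≤ n →
      ∀ (r : ℕ) (p q : Fin r → (Fin M → Finset (Fin n)) → ℝ),
        (∀ a b, Cover (2 * d) a b ↔ 0 < ∑ t, p t a * q t b) →
        c * ((min M ((2 * h).choose h) : ℕ) : ℝ) ^ ((d : ℝ) / 2) ≤ r := by
  obtain ⟨c, hc, hmain⟩ := sc_lower d hd
  refine ⟨c, hc, fun n h M hn r p q hpq => ?_⟩
  refine hmain n h (min M ((2 * h).choose h)) hn (min_le_right _ _) r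
    (fun t a => p t (scExt a)) (fun t b => q t (scExt b)) fun a b => ?_
  rw [← hpq, sc_ext (min_le_left _ _)]

end Pool.SR
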