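import Pool.Agent.Lib.SR.Defs

namespace Pool.SR

open Finset

/-- T1. A polynomial of degree less than `n` which weakly alternates at `1, 2, ..., n+1`
vanishes at `1` (forward difference: Polynomial.fwdDiff_iter_eq_zero_of_degree_lt and
fwdDiff_iter_eq_sum_shift). -/
theorem alt_zero (g : Polynomial ℝ) (n : ℕ) (hg : g.natDegree < n)
    (h : ∀ j : ℕ, j ≤ n → 0 ≤ (-1 : ℝ) ^ j * g.eval (1 + (j : ℝ))) : g.eval 1 = 0 := by
  have h0 := congr_fun (Polynomial.fwdDiff_iter_eq_zero_of_degree_lt hg) (1 : ℝ)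
  rw [fwdDiff_iter_eq_sum_shift] at h0
  have h1 : ∑ k ∈ range (n + 1), (n.choose k : ℝ) * ((-1 : ℝ) ^ k * g.eval (1 + (k : ℝ))) = 0 := by
    have h2 : ∑ k ∈ range (n + 1), (n.choose k : ℝ) * ((-1 : ℝ) ^ k * g.eval (1 + (k : ℝ)))
        = (-1 : ℝ) ^ n * ∑ k ∈ range (n + 1),
          ((-1 : ℤ) ^ (n - k) * n.choose k) • (g.eval (1 + k • (1 : ℝ))) := by
      rw [Finset.mul_sum]
      refine Finset.sum_congr rfl fun k hk => ?_
      have hk' : k ≤ n := Nat.lt_succ_iff.mp (Finset.mem_range.mp hk)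
      obtain ⟨m, rfl⟩ := Nat.exists_eq_add_of_le hk'
      have e : (-1 : ℝ) ^ (k + m) * (-1 : ℝ) ^ m = (-1 : ℝ) ^ k := by
        rw [pow_add, mul_assoc, ← mul_pow]
        norm_num
      simp only [Nat.add_sub_cancel_left, zsmul_eq_mul, nsmul_eq_mul, mul_one]
      push_cast
      rw [← e]
      ring
    rw [h2, h0]
    simp
  have h3 := (Finset.sum_eq_zero_iff_of_nonneg (fun k hk => mul_nonneg (Nat.cast_nonneg _)
    (h k (Nat.lt_succ_iff.mp (Finset.mem_range.mp hk))))).mp h1 0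
      (Finset.mem_range.mpr (Nat.succ_pos n))
  simpa using h3

end Pool.SR
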