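import Pool.Agent.Lib.SR.Defs

namespace Pool.SR

open Finset

private theorem T2_card {m s : ℕ} (S : Finset (Fin m)) (h : S.card ≤ s) :
    (((powersetCard s (univ : Finset (Fin m))).filter (fun T => S ⊆ T)).card : ℕ)
      = (m - S.card).choose (s - S.card) := by
  have hc : (univ \ S : Finset (Fin m)).card = m - S.card := by
    rw [card_sdiff_of_subset (subset_univ S)]; simp
  rw [← hc, ← card_powersetCard]
  refine card_nbij' (fun T => T \ S) (fun U => U ∪ S) ?_ ?_ ?_ ?_
  · intro T hT
    simp only [coe_filter, mem_powersetCard, Set.mem_ofPred_eq, subset_univ, true_and] at hT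
    simp only [mem_coe, mem_powersetCard]
    refine ⟨?_, ?_⟩
    · intro x hx
      simp only [mem_sdiff, mem_univ, true_and] at hx ⊢
      exact hx.2
    · rw [card_sdiff_of_subset hT.2, hT.1]
  · intro U hU
    simp only [mem_coe, mem_powersetCard] at hU
    simp only [coe_filter, mem_powersetCard, Set.mem_ofPred_eq, subset_univ, true_and]
    have hd : Disjoint U S := by
      rw [disjoint_left]
      intro x hx
      have := hU.1 hx
      simp only [mem_sdiff, mem_univ, true_and] at this
      exact this
    refine ⟨?_, subset_union_right⟩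
    rw [card_union_of_disjoint hd, hU.2]
    omega
  · intro T hT
    simp only [coe_filter, mem_powersetCard, Set.mem_ofPred_eq, subset_univ, true_and] at hT
    exact sdiff_union_of_subset hT.2
  · intro U hU
    simp only [mem_coe, mem_powersetCard] at hU
    have hd : Disjoint U S := by
      rw [disjoint_left]
      intro x hx
      have := hU.1 hx
      simp only [mem_sdiff, mem_univ, true_and] at this
      exact this
    exact union_sdiff_cancel_right hd

/-- T2a. The number of `s`-subsets containing a given set. -/
theorem card_supersets {m s : ℕ} (hs : s ≤ m) (S : Finset (Fin m)) :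
    ((((powersetCard s (univ : Finset (Fin m))).filter (fun T => S ⊆ T)).card : ℕ) : ℝ)
      * (m.choose S.card : ℝ) = (m.choose s : ℝ) * (s.choose S.card : ℝ) := by
  by_cases h : S.card ≤ s
  · rw [T2_card S h]
    have := Nat.choose_mul (n := m) (k := s) (s := S.card) h
    rw [← Nat.cast_mul, ← Nat.cast_mul, this, Nat.mul_comm]
  · have h1 : s.choose S.card = 0 := Nat.choose_eq_zero_of_lt (by omega)
    have h2 : ((powersetCard s (univ : Finset (Fin m))).filter (fun T => S ⊆ T)) = ∅ := by
      rw [filter_eq_empty_iff]
      intro T hT hST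
      rw [mem_powersetCard] at hT
      have := card_le_card hST
      omega
    rw [h1, h2]; simp

/-- T2b. Sum of a monomial over all choices of sets of sizes `s i`. -/
theorem sum_monomial {d m : ℕ} (S : Finset (Fin d × Fin m)) (s : Fin d → ℕ) (hs : ∀ i, s i ≤ m) :
    ∑ T ∈ choices m s, ∏ e ∈ S, bit (pt T e)
      = ∏ i, ((m.choose (s i) : ℝ) * ((s i).choose (row S i).card : ℝ)
          / (m.choose (row S i).card : ℝ)) := by
  have h1 : ∀ T : Fin d → Finset (Fin m), ∏ e ∈ S, bit (pt T e)
      = ∏ i, (∏ j ∈ row S i, bit (decide (j ∈ T i))) := by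
    intro T
    have : ∀ i, ∏ j ∈ row S i, bit (decide (j ∈ T i))
        = ∏ j, if (i, j) ∈ S then bit (pt T (i, j)) else 1 := by
      intro i
      rw [row, prod_filter]
      rfl
    simp only [this]
    rw [← Fintype.prod_prod_type' (f := fun i j => if (i, j) ∈ S then bit (pt T (i, j)) else 1)]
    rw [← prod_filter]
    apply prod_congr _ (fun _ _ => rfl)
    ext e; simp
  simp only [h1]
  rw [choices, ← prod_univ_sum (t := fun i => powersetCard (s i) (univ : Finset (Fin m)))
    (f := fun i U => ∏ j ∈ row S i, bit (decide (j ∈ U)))]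
  apply prod_congr rfl
  intro i _
  have h2 : ∀ U : Finset (Fin m), ∏ j ∈ row S i, bit (decide (j ∈ U))
      = if row S i ⊆ U then 1 else 0 := by
    intro U
    split_ifs with h
    · apply prod_eq_one
      intro j hj
      simp [bit, h hj]
    · rw [not_subset] at h
      obtain ⟨j, hj, hjU⟩ := h
      apply prod_eq_zero hj
      simp [bit, hjU]
  simp only [h2]
  rw [sum_ite, sum_const_zero, add_zero, sum_const, nsmul_eq_mul, mul_one]
  have h3 := card_supersets (hs i) (row S i)
  have h4 : (0 : ℝ) < (m.choose (row S i).card : ℝ) := by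
    have : (row S i).card ≤ m := by
      have := card_le_univ (row S i)
      simpa using this
    exact_mod_cast Nat.choose_pos this
  rw [eq_div_iff h4.ne', h3]

end Pool.SR
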