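import Pool.Agent.Lib.SR.T2

namespace Pool.SR

open Finset

private theorem T3_card {d m : ℕ} (S : Finset (Fin d × Fin m)) :
    ∑ i, (row S i).card = S.card := by
  classical
  have h1 : S.card = ∑ e : Fin d × Fin m, if e ∈ S then 1 else 0 := by
    simp
  rw [h1, Fintype.sum_prod_type]
  refine Finset.sum_congr rfl fun i _ => ?_
  simp only [row]
  rw [Finset.card_filter]

private noncomputable def T3_P {d : ℕ} (i : Fin d) (r : ℕ) : MvPolynomial (Fin d) ℝ :=
  Polynomial.aeval (MvPolynomial.X i : MvPolynomial (Fin d) ℝ) (descPochhammer ℝ r)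

private theorem T3_deg {d : ℕ} (i : Fin d) (r : ℕ) : (T3_P i r).totalDegree ≤ r := by
  unfold T3_P
  rw [Polynomial.aeval_eq_sum_range, descPochhammer_natDegree]
  refine (MvPolynomial.totalDegree_finsetSum _ _).trans ?_
  refine Finset.sup_le fun j hj => ?_
  refine (MvPolynomial.totalDegree_smul_le _ _).trans ?_
  rw [MvPolynomial.totalDegree_X_pow]
  exact Nat.lt_succ_iff.1 (Finset.mem_range.1 hj)

private theorem T3_eval {d : ℕ} (i : Fin d) (r : ℕ) (s : Fin d → ℕ) :
    MvPolynomial.eval (fun i => (s i : ℝ)) (T3_P i r) = (r.factorial : ℝ) * ((s i).choose r : ℝ) := by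
  unfold T3_P
  have h : MvPolynomial.eval (fun i => (s i : ℝ))
      (Polynomial.aeval (MvPolynomial.X i : MvPolynomial (Fin d) ℝ) (descPochhammer ℝ r))
      = (descPochhammer ℝ r).eval ((s i : ℕ) : ℝ) := by
    rw [Polynomial.aeval_def, Polynomial.hom_eval₂]
    rw [MvPolynomial.eval_X, Polynomial.eval₂_eq_eval_map]
    congr 1
    rw [← Polynomial.map_id (p := descPochhammer ℝ r), Polynomial.map_map]
    congr 1
    ext x
    simp
  rw [h, descPochhammer_eval_eq_descFactorial, Nat.descFactorial_eq_factorial_mul_choose]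
  push_cast
  ring

/-- T3. The averages of a polynomial of degree less than `d` over the choices of sizes `s`
are a polynomial of total degree less than `d` in the sizes. -/
theorem exists_Q {d m : ℕ} (hd : 1 ≤ d) (c : Finset (Fin d × Fin m) → ℝ)
    (hc : ∀ S, d ≤ S.card → c S = 0) :
    ∃ Q : MvPolynomial (Fin d) ℝ, Q.totalDegree < d ∧
      ∀ s : Fin d → ℕ, (∀ i, s i ≤ m) →
        (∏ i, (m.choose (s i) : ℝ)) * MvPolynomial.eval (fun i => (s i : ℝ)) Q
          = ∑ T ∈ choices m s, ev c (pt T) := by
  classical
  refine ⟨∑ S : Finset (Fin d × Fin m), MvPolynomial.C (c S) *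
    ∏ i, (MvPolynomial.C (((row S i).card.factorial : ℝ) * (m.choose (row S i).card : ℝ))⁻¹ *
      T3_P i (row S i).card), ?_, ?_⟩
  · have hle : (∑ S : Finset (Fin d × Fin m), MvPolynomial.C (c S) *
        ∏ i, (MvPolynomial.C (((row S i).card.factorial : ℝ) * (m.choose (row S i).card : ℝ))⁻¹ *
          T3_P i (row S i).card)).totalDegree ≤ d - 1 := by
      refine (MvPolynomial.totalDegree_finsetSum _ _).trans ?_
      refine Finset.sup_le fun S _ => ?_
      by_cases hS : d ≤ S.card
      · rw [hc S hS]; simp
      · refine (MvPolynomial.totalDegree_mul _ _).trans ?_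
        rw [MvPolynomial.totalDegree_C, zero_add]
        refine (MvPolynomial.totalDegree_finsetProd _ _).trans ?_
        have h2 : ∑ i, (MvPolynomial.C (((row S i).card.factorial : ℝ) *
            (m.choose (row S i).card : ℝ))⁻¹ * T3_P i (row S i).card).totalDegree
            ≤ ∑ i, (row S i).card := by
          refine Finset.sum_le_sum fun i _ => ?_
          refine (MvPolynomial.totalDegree_mul _ _).trans ?_
          rw [MvPolynomial.totalDegree_C, zero_add]
          exact T3_deg i _
        refine h2.trans ?_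
        rw [T3_card]
        omega
    omega
  · intro s hs
    have hR : ∑ T ∈ choices m s, ev c (pt T) = ∑ S : Finset (Fin d × Fin m), c S *
        ∏ i, ((m.choose (s i) : ℝ) * ((s i).choose (row S i).card : ℝ)
          / (m.choose (row S i).card : ℝ)) := by
      unfold ev
      rw [Finset.sum_comm]
      refine Finset.sum_congr rfl fun S _ => ?_
      rw [← Finset.mul_sum, sum_monomial S s hs]
    rw [hR, map_sum, Finset.mul_sum]
    refine Finset.sum_congr rfl fun S _ => ?_
    rw [map_mul, MvPolynomial.eval_C, map_prod]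
    rw [mul_left_comm, ← Finset.prod_mul_distrib]
    congr 1
    refine Finset.prod_congr rfl fun i _ => ?_
    rw [map_mul, MvPolynomial.eval_C, T3_eval]
    have hf : ((row S i).card.factorial : ℝ) ≠ 0 := by exact_mod_cast Nat.factorial_ne_zero _
    have hr : (row S i).card ≤ m := by
      have := Finset.card_le_univ (row S i)
      simpa using this
    have hm : (m.choose (row S i).card : ℝ) ≠ 0 := by
      exact_mod_cast (Nat.choose_pos hr).ne'
    field_simp

end Pool.SR
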